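import Pool.Agent.T2H13.B7.Frame
import Pool.Agent.W843.N7.Bound

/-! Averaging over all seven-tuples of vertices. -/

set_option autoImplicit false
set_option linter.unusedVariables false
set_option maxRecDepth 100000
set_option maxHeartbeats 4000000
open Finset
open Pool.Agent.H122R2.N6 (Sy NoK4 Bt k4b)
open Pool.Agent.W843.N7 (TE psum7 conv7 psd_lower)

namespace Pool.Agent.T2H13.B7

noncomputable section

section
variable {V : Type} [Fintype V] (E : V → V → V → ℕ)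

def SU5 : ℤ := ∑ x : Fin 7 → V, (F5 E (x 0) (x 1) (x 2) (x 3) (x 4) (x 5) (x 6) : ℤ)
def SU3 : ℤ := ∑ x : Fin 7 → V, (F3 E (x 0) (x 1) (x 2) (x 3) (x 4) (x 5) (x 6) : ℤ)
def SUT : ℤ := ∑ x : Fin 7 → V, (TT E (x 0) (x 1) (x 2) (x 3) (x 4) (x 5) (x 6) : ℤ)

theorem gs5 (i0 i1 i2 i3 i4 i5 i6 : Fin 7) (h : Function.Injective ![i0, i1, i2, i3, i4, i5, i6]) :
    ∑ x : Fin 7 → V, (F5 E (x i0) (x i1) (x i2) (x i3) (x i4) (x i5) (x i6) : ℤ) = SU5 E :=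
  psum7 (fun a b c d e f g => (F5 E a b c d e f g : ℤ)) ![i0, i1, i2, i3, i4, i5, i6] (Finite.injective_iff_bijective.mp h)
theorem gs3 (i0 i1 i2 i3 i4 i5 i6 : Fin 7) (h : Function.Injective ![i0, i1, i2, i3, i4, i5, i6]) :
    ∑ x : Fin 7 → V, (F3 E (x i0) (x i1) (x i2) (x i3) (x i4) (x i5) (x i6) : ℤ) = SU3 E :=
  psum7 (fun a b c d e f g => (F3 E a b c d e f g : ℤ)) ![i0, i1, i2, i3, i4, i5, i6] (Finite.injective_iff_bijective.mp h)
theorem gsT (i0 i1 i2 i3 i4 i5 i6 : Fin 7) (h : Function.Injective ![i0, i1, i2, i3, i4, i5, i6]) :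
    ∑ x : Fin 7 → V, (TT E (x i0) (x i1) (x i2) (x i3) (x i4) (x i5) (x i6) : ℤ) = SUT E :=
  psum7 (fun a b c d e f g => (TT E a b c d e f g : ℤ)) ![i0, i1, i2, i3, i4, i5, i6] (Finite.injective_iff_bijective.mp h)

theorem ST_eq : SUT E = SU5 E + 7 * SU3 E := by
  unfold SUT TT
  simp only [Nat.cast_add, sum_add_distrib]
  rw [gs5 E 0 1 2 3 6 4 5 (by decide +kernel), gs3 E 0 1 2 3 6 4 5 (by decide +kernel), gs3 E 3 1 2 0 6 4 5 (by decide +kernel), gs3 E 0 3 2 1 6 4 5 (by decide +kernel), gs3 E 0 1 3 2 6 4 5 (by decide +kernel), gs3 E 4 5 6 0 1 2 3 (by decide +kernel), gs3 E 4 5 6 0 2 1 3 (by decide +kernel), gs3 E 4 5 6 0 3 2 1 (by decide +kernel)]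
  ring

theorem LL_sum : ∑ x : Fin 7 → V, (LL E (x 0) (x 1) (x 2) (x 3) (x 4) (x 5) (x 6) : ℤ) = 21 * SU5 E + 105 * SU3 E := by
  unfold LL
  simp only [Nat.cast_add, sum_add_distrib]
  rw [gsT E 2 3 4 5 0 1 6 (by decide +kernel), gsT E 1 3 4 5 0 2 6 (by decide +kernel), gsT E 1 2 4 5 0 3 6 (by decide +kernel), gsT E 1 2 3 5 0 4 6 (by decide +kernel), gsT E 1 2 3 4 0 5 6 (by decide +kernel), gsT E 0 3 4 5 1 2 6 (by decide +kernel), gsT E 0 2 4 5 1 3 6 (by decide +kernel), gsT E 0 2 3 5 1 4 6 (by decide +kernel), gsT E 0 2 3 4 1 5 6 (by decide +kernel), gsT E 0 1 4 5 2 3 6 (by decide +kernel), gsT E 0 1 3 5 2 4 6 (by decide +kernel), gsT E 0 1 3 4 2 5 6 (by decide +kernel), gsT E 0 1 2 5 3 4 6 (by decide +kernel), gsT E 0 1 2 4 3 5 6 (by decide +kernel), gsT E 0 1 2 3 4 5 6 (by decide +kernel), gs5 E 1 2 3 4 5 6 0 (by decide +kernel), gs5 E 0 2 3 4 5 6 1 (by decide +kernel),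 gs5 E 0 1 3 4 5 6 2 (by decide +kernel), gs5 E 0 1 2 4 5 6 3 (by decide +kernel), gs5 E 0 1 2 3 5 6 4 (by decide +kernel), gs5 E 0 1 2 3 4 6 5 (by decide +kernel), ST_eq]
  ring

variable {E}

/-- the weight of a structure on six vertices -/
def GG (E : V → V → V → ℕ) (a b c d e x : V) : ℤ := (gg E a b c d e x : ℤ)

theorem psd5 (hC : CH) (hE : Sy E) (hK : NoK4 E) (a b c d e : V) :
    2 * (Fintype.card V : ℤ) * (∑ x, GG E a b c d e x) - 12 * (9728 : ℤ) ^ 2 * (Fintype.card V : ℤ) ^ 2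
      ≤ ∑ x, ∑ y, (F5 E a b c d e x y : ℤ) := by
  have p := psd_lower 12 (9728 : ℤ) (fun (x : V) k => (ec (mC E a b c d e) (lF E a b c d e x) k : ℤ)) (fun x => (ec (mC E a b c d e) (lF E a b c d e x) 12 : ℤ))
  have e2 : ∀ x y : V, (F5 E a b c d e x y : ℤ) =
      ∑ k ∈ range 12, (ec (mC E a b c d e) (lF E a b c d e x) k : ℤ) * (ec (mC E a b c d e) (lF E a b c d e y) k : ℤ)
        + (ec (mC E a b c d e) (lF E a b c d e x) 12 : ℤ) + (ec (mC E a b c d e) (lF E a b c d e y) 12 : ℤ) := by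
    intro x y
    have h : F5 E a b c d e x y = ((∑ k ∈ range 12, ec (mC E a b c d e) (lF E a b c d e x) k * ec (mC E a b c d e) (lF E a b c d e y) k)
      + ec (mC E a b c d e) (lF E a b c d e x) 12) + ec (mC E a b c d e) (lF E a b c d e y) 12 := rfl
    rw [h]
    push_cast
    rfl
  have e3 : ∑ x, ∑ y, (F5 E a b c d e x y : ℤ) = ∑ x, ∑ y,
      (∑ k ∈ range 12, (ec (mC E a b c d e) (lF E a b c d e x) k : ℤ) * (ec (mC E a b c d e) (lF E a b c d e y) k : ℤ)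
        + (ec (mC E a b c d e) (lF E a b c d e x) 12 : ℤ) + (ec (mC E a b c d e) (lF E a b c d e y) 12 : ℤ)) :=
    sum_congr rfl fun x _ => sum_congr rfl fun y _ => e2 x y
  rw [e3]
  refine le_trans (le_of_eq ?_) p
  have e4 : ∑ x, GG E a b c d e x = ∑ x, ((ec (mC E a b c d e) (lF E a b c d e x) 12 : ℤ)
      + 9728 * ∑ k ∈ range 12, (ec (mC E a b c d e) (lF E a b c d e x) k : ℤ)) :=
    sum_congr rfl fun x _ => by
      have h := ew_E hC hE hK a b c d e x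
      have h' : ((ec (mC E a b c d e) (lF E a b c d e x) 12 + (∑ k ∈ range 12, ec (mC E a b c d e) (lF E a b c d e x) k) * 9728 : ℕ) : ℤ)
        = ((gg E a b c d e x : ℕ) : ℤ) := by rw [h]
      push_cast at h'
      unfold GG
      linarith
  rw [e4]
  push_cast
  ring

theorem S5_lower (hC : CH) (hE : Sy E) (hK : NoK4 E) :
    2 * (Fintype.card V : ℤ) * (∑ a, ∑ b, ∑ c, ∑ d, ∑ e, ∑ x, GG E a b c d e x) - 12 * (9728 : ℤ) ^ 2 * (Fintype.card V : ℤ) ^ 7 ≤ SU5 E := by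
  have h5 : SU5 E = ∑ a, ∑ b, ∑ c, ∑ d, ∑ e, ∑ x, ∑ y, (F5 E a b c d e x y : ℤ) := conv7 (fun a b c d e f g => (F5 E a b c d e f g : ℤ))
  rw [h5]
  have e1 : 2 * (Fintype.card V : ℤ) * (∑ a, ∑ b, ∑ c, ∑ d, ∑ e, ∑ x, GG E a b c d e x) - 12 * (9728 : ℤ) ^ 2 * (Fintype.card V : ℤ) ^ 7
      = ∑ a : V, ∑ b : V, ∑ c : V, ∑ d : V, ∑ e : V, (2 * (Fintype.card V : ℤ) * (∑ x, GG E a b c d e x) - 12 * (9728 : ℤ) ^ 2 * (Fintype.card V : ℤ) ^ 2) := by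
    simp only [sum_sub_distrib, sum_const, card_univ, nsmul_eq_mul, mul_sum]
    ring
  rw [e1]
  exact sum_le_sum fun a _ => sum_le_sum fun b _ => sum_le_sum fun c _ => sum_le_sum fun d _ => sum_le_sum fun e _ => psd5 hC hE hK a b c d e

theorem psd3 (hE : Sy E) (hK : NoK4 E) (r s t : V) :
    (2 * 387666048 - 20 * (4224 : ℤ) ^ 2) * (Fintype.card V : ℤ) ^ 4
      ≤ ∑ u : V × V, ∑ v : V × V, (F3 E r s t u.1 u.2 v.1 v.2 : ℤ) := by
  have p := psd_lower 20 (4224 : ℤ) (fun (u : V × V) k => (e3 (hC E r s t u.1 u.2) k : ℤ)) (fun u => (w3 (hC E r s t u.1 u.2) : ℤ))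
  have e2 : ∀ u v : V × V, (F3 E r s t u.1 u.2 v.1 v.2 : ℤ) =
      ∑ k ∈ range 20, (e3 (hC E r s t u.1 u.2) k : ℤ) * (e3 (hC E r s t v.1 v.2) k : ℤ)
        + (w3 (hC E r s t u.1 u.2) : ℤ) + (w3 (hC E r s t v.1 v.2) : ℤ) := by
    intro u v
    unfold F3
    rw [d3_eq]
    push_cast
    rfl
  have e3' : ∑ u : V × V, ∑ v : V × V, (F3 E r s t u.1 u.2 v.1 v.2 : ℤ) = ∑ u : V × V, ∑ v : V × V,
      (∑ k ∈ range 20, (e3 (hC E r s t u.1 u.2) k : ℤ) * (e3 (hC E r s t v.1 v.2) k : ℤ)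
        + (w3 (hC E r s t u.1 u.2) : ℤ) + (w3 (hC E r s t v.1 v.2) : ℤ)) :=
    sum_congr rfl fun u _ => sum_congr rfl fun v _ => e2 u v
  rw [e3']
  refine le_trans (le_of_eq ?_) p
  have e4 : ∑ u : V × V, ((w3 (hC E r s t u.1 u.2) : ℤ) + 4224 * ∑ k ∈ range 20, (e3 (hC E r s t u.1 u.2) k : ℤ)) = ∑ _u : V × V, (387666048 : ℤ) :=
    sum_congr rfl fun u _ => by
      have h := w3_E hE hK r s t u.1 u.2
      have h' : ((w3 (hC E r s t u.1 u.2) + (∑ k ∈ range 20, e3 (hC E r s t u.1 u.2) k) * 4224 : ℕ) : ℤ) = 387666048 := by rw [h]; rfl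
      push_cast at h'
      linarith
  rw [e4, sum_const, card_univ, Fintype.card_prod, nsmul_eq_mul]
  push_cast
  ring

theorem S3_lower (hE : Sy E) (hK : NoK4 E) :
    (2 * 387666048 - 20 * (4224 : ℤ) ^ 2) * (Fintype.card V : ℤ) ^ 7 ≤ SU3 E := by
  have h3 : SU3 E = ∑ r, ∑ s, ∑ t, ∑ x, ∑ y, ∑ p, ∑ q, (F3 E r s t x y p q : ℤ) := conv7 (fun a b c d e f g => (F3 E a b c d e f g : ℤ))
  have h4 : ∀ r s t : V, ∑ x, ∑ y, ∑ p, ∑ q, (F3 E r s t x y p q : ℤ) = ∑ u : V × V, ∑ v : V × V, (F3 E r s t u.1 u.2 v.1 v.2 : ℤ) := by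
    intro r s t
    simp only [Fintype.sum_prod_type]
  rw [h3]
  have e1 : (2 * 387666048 - 20 * (4224 : ℤ) ^ 2) * (Fintype.card V : ℤ) ^ 7
      = ∑ _r : V, ∑ _s : V, ∑ _t : V, ((2 * 387666048 - 20 * (4224 : ℤ) ^ 2) * (Fintype.card V : ℤ) ^ 4) := by
    simp only [sum_const, card_univ, nsmul_eq_mul]
    ring
  rw [e1]
  refine sum_le_sum fun r _ => sum_le_sum fun s _ => sum_le_sum fun t _ => ?_
  rw [h4]
  exact psd3 hE hK r s t


end

end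

end Pool.Agent.T2H13.B7
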