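import Pool.Agent.T2H13.B7.Vec3

/-! Bounds for the entries of the tables. -/

set_option autoImplicit false
set_option maxRecDepth 100000
set_option maxHeartbeats 4000000
set_option exponentiation.threshold 700000
open Finset

namespace Pool.Agent.T2H13.B7

noncomputable section

theorem enc_land {s : ℕ} (hs : 0 < s) {n : ℕ} {f g : ℕ → ℕ} (hf : ∀ i < 2 ^ n, f i < 2 ^ s)
    (hg : ∀ i < 2 ^ n, g i < 2 ^ s) :
    Nat.land (enc s n f) (enc s n g) = enc s n (fun i => Nat.land (f i) (g i)) := by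
  refine Nat.eq_of_testBit_eq fun t => ?_
  have hfg : ∀ i < 2 ^ n, (fun i => Nat.land (f i) (g i)) i < 2 ^ s := fun i hi =>
    lt_of_le_of_lt (Nat.and_le_left (n := f i) (m := g i)) (hf i hi)
  rw [enc_testBit hs hfg]
  show (enc s n f &&& enc s n g).testBit t = (_ && (f (t / s) &&& g (t / s)).testBit (t % s))
  rw [Nat.testBit_and, Nat.testBit_and, enc_testBit hs hf, enc_testBit hs hg]
  cases decide (t / s < 2 ^ n) <;> simp

theorem enc_eq_zero {s : ℕ} (hs : 0 < s) {n : ℕ} {f : ℕ → ℕ} (hf : ∀ i < 2 ^ n, f i < 2 ^ s)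
    (h : enc s n f = 0) {i : ℕ} (hi : i < 2 ^ n) : f i = 0 := by
  have h0 : enc s n (fun _ => 0) = 0 := by unfold enc; simp
  exact enc_inj hs hf (fun _ _ => by positivity) (h.trans h0.symm) hi

theorem lt_of_land {x w s : ℕ} (hx : x < 2 ^ s) (hws : w ≤ s) (h : Nat.land x (2 ^ s - 2 ^ w) = 0) : x < 2 ^ w := by
  refine Nat.lt_pow_two_of_testBit _ fun b hb => ?_
  by_cases hbs : b < s
  · have h1 : (x &&& (2 ^ s - 2 ^ w)).testBit b = false := by
      have : x &&& (2 ^ s - 2 ^ w) = 0 := h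
      rw [this, Nat.zero_testBit]
    have e : 2 ^ s - 2 ^ w = (2 ^ (s - w) - 1) <<< w := by
      rw [Nat.shiftLeft_eq, Nat.sub_mul, one_mul, ← pow_add, Nat.sub_add_cancel hws]
    rw [Nat.testBit_and, e, Nat.testBit_shiftLeft, Nat.testBit_two_pow_sub_one,
      decide_eq_true hb, decide_eq_true (show b - w < s - w by omega)] at h1
    simpa using h1
  · exact Nat.testBit_lt_two_pow (lt_of_lt_of_le hx (Nat.pow_le_pow_right (by norm_num) (by omega)))

/-- sixteen fields of width 40 -/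
def v16 (a b c d : ℕ) (n : ℕ) : ℕ → ℕ := fun i => if i % 16 < n then a else if i % 16 = n then b else if i % 16 = n + 1 then c else d

def dd (x : ℕ) : ℕ := d2 327680 (d2 163840 (d2 81920 (d2 40960 (d2 20480 (d2 10240 (d2 5120 (d2 2560 (d2 1280 (d2 640 x)))))))))

theorem dd_eq (f : ℕ → ℕ) : dd (enc 40 4 f) = enc 40 14 (fun i => f (i % 16)) := by
  unfold dd
  have h : ∀ n, ∀ g : ℕ → ℕ, d2 (40 * 2 ^ n) (enc 40 n g) = enc 40 (n + 1) (fun i => g (i % 2 ^ n)) := fun n g => enc_rep 40 n g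
  rw [show 640 = 40 * 2 ^ 4 from rfl, h, show 1280 = 40 * 2 ^ 5 from rfl, h, show 2560 = 40 * 2 ^ 6 from rfl, h,
    show 5120 = 40 * 2 ^ 7 from rfl, h, show 10240 = 40 * 2 ^ 8 from rfl, h, show 20480 = 40 * 2 ^ 9 from rfl, h,
    show 40960 = 40 * 2 ^ 10 from rfl, h, show 81920 = 40 * 2 ^ 11 from rfl, h, show 163840 = 40 * 2 ^ 12 from rfl, h,
    show 327680 = 40 * 2 ^ 13 from rfl, h]
  refine enc_congr fun i _ => ?_
  congr 1
  norm_num

def chkT (N A B C : ℕ) : Bool := cnd (Nat.ble N (Nat.sub (Nat.pow 2 655360) 1))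
  (cnd (Nat.beq (Nat.land N (dd A)) 0) (Nat.beq (Nat.land (Nat.add N (dd B)) (dd C)) 0) false) false

/-- pattern of sixteen fields -/
def p16 (a b n : ℕ) : ℕ := Nat.add (Nat.mul a (Nat.div (Nat.sub (Nat.pow 2 (Nat.mul 40 n)) 1) (Nat.sub (Nat.pow 2 40) 1))) (Nat.shiftLeft b (Nat.mul 40 n))

def CA : ℕ := p16 (2 ^ 39) 0 16
def CB5 : ℕ := p16 13311 0 12
def CC5 : ℕ := p16 (2 ^ 40 - 2 ^ 15) (2 ^ 40 - 2 ^ 28) 12
def CB3 : ℕ := p16 7935 0 10
def CC3 : ℕ := p16 (2 ^ 40 - 2 ^ 14) (2 ^ 40 - 2 ^ 27) 10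

theorem D_ok : al 64 (fun r => chkT (st Dg r) CA CB5 CC5) = true := by decide +kernel
theorem H0_ok : chkT H0 CA CB3 CC3 = true := by decide +kernel
theorem H1_ok : chkT H1 CA CB3 CC3 = true := by decide +kernel

theorem CA_eq : CA = enc 40 4 (fun _ => 2 ^ 39) := by simp only [enc_succ, enc_zero]; decide +kernel
theorem CB5_eq : CB5 = enc 40 4 (fun k => if k < 12 then 13311 else 0) := by simp only [enc_succ, enc_zero]; decide +kernel
theorem CC5_eq : CC5 = enc 40 4 (fun k => if k < 12 then 2 ^ 40 - 2 ^ 15 else if k < 13 then 2 ^ 40 - 2 ^ 28 else 0) := by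
  simp only [enc_succ, enc_zero]; decide +kernel
theorem CB3_eq : CB3 = enc 40 4 (fun k => if k < 10 then 7935 else 0) := by simp only [enc_succ, enc_zero]; decide +kernel
theorem CC3_eq : CC3 = enc 40 4 (fun k => if k < 10 then 2 ^ 40 - 2 ^ 14 else if k < 11 then 2 ^ 40 - 2 ^ 27 else 0) := by
  simp only [enc_succ, enc_zero]; decide +kernel

theorem chkT_spec {N B C : ℕ} {b c : ℕ → ℕ} (hB : B = enc 40 4 b) (hC : C = enc 40 4 c) (hb : ∀ i, b i < 2 ^ 39)
    (hc : ∀ i, c i < 2 ^ 40) (h : chkT N CA B C = true) : N < 2 ^ 655360 ∧ ∀ i < 2 ^ 14, fld 40 N i < 2 ^ 39 ∧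
      Nat.land (fld 40 N i + b (i % 16)) (c (i % 16)) = 0 := by
  obtain ⟨h1, h2⟩ := cnd_and h
  obtain ⟨h2, h3⟩ := cnd_and h2
  have hN : N < 2 ^ 655360 := by
    have h4 : N ≤ 2 ^ 655360 - 1 := Nat.le_of_ble_eq_true h1
    have h5 : 0 < 2 ^ 655360 := Nat.pow_pos (by norm_num)
    exact lt_of_le_of_lt h4 (Nat.sub_lt h5 one_pos)
  have eN : N = enc 40 14 (fld 40 N) := (enc_fld (s := 40) (n := 14) (by norm_num) hN).symm
  have h2' := Nat.eq_of_beq_eq_true h2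
  have h3' := Nat.eq_of_beq_eq_true h3
  rw [CA_eq, dd_eq] at h2'
  have hlo : ∀ i < 2 ^ 14, fld 40 N i < 2 ^ 39 := by
    intro i hi
    have e1 : Nat.land (enc 40 14 (fld 40 N)) (enc 40 14 (fun _ => 2 ^ 39)) = 0 := by rw [← eN]; exact h2'
    rw [enc_land (by norm_num) (fun _ _ => fld_lt _ _ _) (fun _ _ => by norm_num)] at e1
    have e2 := enc_eq_zero (by norm_num) (fun i _ => lt_of_le_of_lt (Nat.and_le_left (n := fld 40 N i) (m := 2 ^ 39)) (fld_lt _ _ _)) e1 hi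
    refine lt_of_land (fld_lt _ _ _) (by norm_num) ?_
    rw [show 2 ^ 40 - 2 ^ 39 = 2 ^ 39 by norm_num]
    exact e2
  refine ⟨hN, fun i hi => ⟨hlo i hi, ?_⟩⟩
  rw [hB, dd_eq, hC, dd_eq] at h3'
  have e1 : Nat.land (enc 40 14 (fun i => fld 40 N i + b (i % 16))) (enc 40 14 (fun i => c (i % 16))) = 0 := by
    rw [← enc_add, ← eN]; exact h3'
  have hsum : ∀ i < 2 ^ 14, (fun i => fld 40 N i + b (i % 16)) i < 2 ^ 40 := fun i hi => by
    have := hlo i hi
    have := hb (i % 16)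
    show _ + _ < 2 ^ 40
    rw [show (2 : ℕ) ^ 40 = 2 ^ 39 + 2 ^ 39 by norm_num]
    omega
  rw [enc_land (by norm_num) hsum (fun _ _ => hc _)] at e1
  exact enc_eq_zero (by norm_num) (fun i hi => lt_of_le_of_lt (Nat.and_le_left (n := fld 40 N i + b (i % 16)) (m := c (i % 16))) (hsum i hi)) e1 hi

theorem fld_fld16 (N i j : ℕ) (hj : j < 16) : fld 40 (fld 640 N i) j = fld 40 N (16 * i + j) :=
  fld_fld (s := 40) (k := 4) N i j hj

theorem rt_lt (m : ℕ) : rt m < 64 := by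
  have : rt m = (Nat.shiftRight RT (Nat.mul 6 m)) % 2 ^ 6 := land_ones0 _ 6
  rw [this]; exact Nat.mod_lt _ (by norm_num)

theorem rc_e {m f k : ℕ} (hf : f < 1024) (hk : k < 12) : fld 40 (rc m f) k ≤ 19456 := by
  have h := al_true D_ok (rt_lt m)
  rw [st_eq] at h
  obtain ⟨-, h1⟩ := chkT_spec CB5_eq CC5_eq (fun i => by split_ifs <;> norm_num) (fun i => by split_ifs <;> norm_num) h
  unfold rc
  have hj : 16 * qL (wt m) (f / 16) + qU (wt m) (f % 16) < 1024 := by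
    have := qL_lt (wt m) (f / 16)
    have := qU_lt (wt m) (f % 16)
    omega
  set j := 16 * qL (wt m) (f / 16) + qU (wt m) (f % 16)
  rw [fld_fld16 _ _ _ (by omega)]
  have hlt : 16 * j + k < 2 ^ 14 := by show _ < 16384; omega
  obtain ⟨h2, h3⟩ := h1 _ hlt
  rw [show (16 * j + k) % 16 = k by omega, if_pos hk, if_pos hk] at h3
  have h4 := lt_of_land (x := fld 40 (Dg (rt m)) (16 * j + k) + 13311) (w := 15) (s := 40)
    (by rw [show (2 : ℕ) ^ 40 = 2 ^ 39 + 2 ^ 39 by norm_num]; have : (13311 : ℕ) < 2 ^ 39 := by norm_num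
        omega) (by norm_num) h3
  have : (2 : ℕ) ^ 15 = 32768 := by norm_num
  omega

theorem rc_w {m f : ℕ} (hf : f < 1024) : fld 40 (rc m f) 12 < 2 ^ 28 := by
  have h := al_true D_ok (rt_lt m)
  rw [st_eq] at h
  obtain ⟨-, h1⟩ := chkT_spec CB5_eq CC5_eq (fun i => by split_ifs <;> norm_num) (fun i => by split_ifs <;> norm_num) h
  unfold rc
  have hj : 16 * qL (wt m) (f / 16) + qU (wt m) (f % 16) < 1024 := by
    have := qL_lt (wt m) (f / 16)
    have := qU_lt (wt m) (f % 16)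
    omega
  set j := 16 * qL (wt m) (f / 16) + qU (wt m) (f % 16)
  rw [fld_fld16 _ _ _ (by norm_num)]
  have hlt : 16 * j + 12 < 2 ^ 14 := by show _ < 16384; omega
  obtain ⟨h2, h3⟩ := h1 _ hlt
  rw [show (16 * j + 12) % 16 = 12 by omega, if_neg (by norm_num), if_neg (by norm_num), if_pos (by norm_num), add_zero] at h3
  exact lt_of_land (fld_lt _ _ _) (by norm_num) h3

theorem h_e {H : ℕ} (h : chkT H CA CB3 CC3 = true) {c k : ℕ} (hc : c < 1024) (hk : k < 10) :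
    fld 40 (fld 640 H c) k ≤ 8448 := by
  obtain ⟨-, h1⟩ := chkT_spec CB3_eq CC3_eq (fun i => by split_ifs <;> norm_num) (fun i => by split_ifs <;> norm_num) h
  rw [fld_fld16 _ _ _ (by omega)]
  have hlt : 16 * c + k < 2 ^ 14 := by show _ < 16384; omega
  obtain ⟨h2, h3⟩ := h1 _ hlt
  rw [show (16 * c + k) % 16 = k by omega, if_pos hk, if_pos hk] at h3
  have h4 := lt_of_land (x := fld 40 H (16 * c + k) + 7935) (w := 14) (s := 40)
    (by rw [show (2 : ℕ) ^ 40 = 2 ^ 39 + 2 ^ 39 by norm_num]; have : (7935 : ℕ) < 2 ^ 39 := by norm_num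
        omega) (by norm_num) h3
  have : (2 : ℕ) ^ 14 = 16384 := by norm_num
  omega

theorem h_w {H : ℕ} (h : chkT H CA CB3 CC3 = true) {c : ℕ} (hc : c < 1024) : fld 40 (fld 640 H c) 10 < 2 ^ 27 := by
  obtain ⟨-, h1⟩ := chkT_spec CB3_eq CC3_eq (fun i => by split_ifs <;> norm_num) (fun i => by split_ifs <;> norm_num) h
  rw [fld_fld16 _ _ _ (by norm_num)]
  have hlt : 16 * c + 10 < 2 ^ 14 := by show _ < 16384; omega
  obtain ⟨h2, h3⟩ := h1 _ hlt
  rw [show (16 * c + 10) % 16 = 10 by omega, if_neg (by norm_num), if_neg (by norm_num), if_pos (by norm_num), add_zero] at h3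
  exact lt_of_land (fld_lt _ _ _) (by norm_num) h3

theorem dt_le {m f f' : ℕ} (hf : f < 1024) (hf' : f' < 1024) (m' : ℕ) : dt (rc m f) (rc m' f') ≤ 5079302142 := by
  unfold dt
  have h1 : ∑ k ∈ range 12, fld 40 (rc m f) k * fld 40 (rc m' f') k ≤ ∑ _k ∈ range 12, 19456 * 19456 :=
    sum_le_sum fun k hk => Nat.mul_le_mul (rc_e hf (mem_range.mp hk)) (rc_e hf' (mem_range.mp hk))
  have h2 := rc_w (m := m) hf
  have h3 := rc_w (m := m') hf'
  rw [sum_const, card_range, smul_eq_mul] at h1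
  norm_num at h1 h2 h3 ⊢
  omega

theorem d3_le {c c' : ℕ} (hc : c < 1024) (hc' : c' < 1024) : d3 c c' ≤ 1695809534 := by
  unfold d3 d4
  have h1 : ∑ k ∈ range 10, fld 40 (fld 640 H0 c) k * fld 40 (fld 640 H0 c') k ≤ ∑ _k ∈ range 10, 8448 * 8448 :=
    sum_le_sum fun k hk => Nat.mul_le_mul (h_e H0_ok hc (mem_range.mp hk)) (h_e H0_ok hc' (mem_range.mp hk))
  have h1' : ∑ k ∈ range 10, fld 40 (fld 640 H1 c) k * fld 40 (fld 640 H1 c') k ≤ ∑ _k ∈ range 10, 8448 * 8448 :=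
    sum_le_sum fun k hk => Nat.mul_le_mul (h_e H1_ok hc (mem_range.mp hk)) (h_e H1_ok hc' (mem_range.mp hk))
  have h2 := h_w H0_ok hc
  have h3 := h_w H0_ok hc'
  rw [sum_const, card_range, smul_eq_mul] at h1 h1'
  norm_num at h1 h1' h2 h3 ⊢
  omega

end

end Pool.Agent.T2H13.B7
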