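import Pool.Agent.T2H13.B7.G6
import Pool.Agent.T2H13.B7.Tab6

/-! Check of the leaf inequality. -/

set_option autoImplicit false
set_option maxRecDepth 100000
set_option maxHeartbeats 4000000

namespace Pool.Agent.T2H13.B7

open Pool.Agent.H122R2.N6 (B2 tg five)
open Pool.Agent.T2H13.B7.O6 (q4 q2 CST KM PEN LST)

noncomputable section

def partG (b012 b013 : ℕ) : Bool := B2 fun b023 => B2 fun b123 => B2 fun b014 => B2 fun b024 => B2 fun b124 => B2 fun b034 => B2 fun b134 => B2 fun b234 => or (not (Nat.beq (tg b012 b013 b023 b123 b014 b024 b124 b034 b134 b234) 4)) (or (five b012 b013 b023 b123 b014 b024 b124 b034 b134 b234) (st (fun D => chkG q4 q2 CST KM PEN LST D b012 b013 b023 b123 b014 b024 b124 b034 b134 b234) (DV (c10 b012 b013 b023 b123 b014 b024 b124 b034 b134 b234))))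

theorem part00 : partG 0 0 = true := by decide +kernel
theorem part01 : partG 0 1 = true := by decide +kernel
theorem part10 : partG 1 0 = true := by decide +kernel
theorem part11 : partG 1 1 = true := by decide +kernel

end

end Pool.Agent.T2H13.B7
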