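import Pool.Agent.T2H13.B7.InvL
import Pool.Agent.W843.N7.Bound

/-! The functional of five plus two vertices: weights and invariance. -/

set_option autoImplicit false
set_option linter.unusedVariables false
set_option maxRecDepth 100000
set_option maxHeartbeats 4000000
open Finset
open Pool.Agent.H122R2.N6 (Sy NoK4 Bt k4b B2 B2_true)

namespace Pool.Agent.T2H13.B7

noncomputable section

theorem bt_c10_0 {b0 b1 b2 b3 b4 b5 b6 b7 b8 b9 : ℕ} (h0 : Bt b0) (h1 : Bt b1) (h2 : Bt b2) (h3 : Bt b3) (h4 : Bt b4) (h5 : Bt b5) (h6 : Bt b6) (h7 : Bt b7) (h8 : Bt b8) (h9 : Bt b9) : bt 0 (c10 b0 b1 b2 b3 b4 b5 b6 b7 b8 b9) = b0 := by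
  unfold c10
  rw [bt_zero h0]
theorem bt_c10_1 {b0 b1 b2 b3 b4 b5 b6 b7 b8 b9 : ℕ} (h0 : Bt b0) (h1 : Bt b1) (h2 : Bt b2) (h3 : Bt b3) (h4 : Bt b4) (h5 : Bt b5) (h6 : Bt b6) (h7 : Bt b7) (h8 : Bt b8) (h9 : Bt b9) : bt 1 (c10 b0 b1 b2 b3 b4 b5 b6 b7 b8 b9) = b1 := by
  unfold c10
  rw [bt_succ h0, bt_zero h1]
theorem bt_c10_2 {b0 b1 b2 b3 b4 b5 b6 b7 b8 b9 : ℕ} (h0 : Bt b0) (h1 : Bt b1) (h2 : Bt b2) (h3 : Bt b3) (h4 : Bt b4) (h5 : Bt b5) (h6 : Bt b6) (h7 : Bt b7) (h8 : Bt b8) (h9 : Bt b9) : bt 2 (c10 b0 b1 b2 b3 b4 b5 b6 b7 b8 b9) = b2 := by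
  unfold c10
  rw [bt_succ h0, bt_succ h1, bt_zero h2]
theorem bt_c10_3 {b0 b1 b2 b3 b4 b5 b6 b7 b8 b9 : ℕ} (h0 : Bt b0) (h1 : Bt b1) (h2 : Bt b2) (h3 : Bt b3) (h4 : Bt b4) (h5 : Bt b5) (h6 : Bt b6) (h7 : Bt b7) (h8 : Bt b8) (h9 : Bt b9) : bt 3 (c10 b0 b1 b2 b3 b4 b5 b6 b7 b8 b9) = b3 := by
  unfold c10
  rw [bt_succ h0, bt_succ h1, bt_succ h2, bt_zero h3]
theorem bt_c10_4 {b0 b1 b2 b3 b4 b5 b6 b7 b8 b9 : ℕ} (h0 : Bt b0) (h1 : Bt b1) (h2 : Bt b2) (h3 : Bt b3) (h4 : Bt b4) (h5 : Bt b5) (h6 : Bt b6) (h7 : Bt b7) (h8 : Bt b8) (h9 : Bt b9) : bt 4 (c10 b0 b1 b2 b3 b4 b5 b6 b7 b8 b9) = b4 := by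
  unfold c10
  rw [bt_succ h0, bt_succ h1, bt_succ h2, bt_succ h3, bt_zero h4]
theorem bt_c10_5 {b0 b1 b2 b3 b4 b5 b6 b7 b8 b9 : ℕ} (h0 : Bt b0) (h1 : Bt b1) (h2 : Bt b2) (h3 : Bt b3) (h4 : Bt b4) (h5 : Bt b5) (h6 : Bt b6) (h7 : Bt b7) (h8 : Bt b8) (h9 : Bt b9) : bt 5 (c10 b0 b1 b2 b3 b4 b5 b6 b7 b8 b9) = b5 := by
  unfold c10
  rw [bt_succ h0, bt_succ h1, bt_succ h2, bt_succ h3, bt_succ h4, bt_zero h5]
theorem bt_c10_6 {b0 b1 b2 b3 b4 b5 b6 b7 b8 b9 : ℕ} (h0 : Bt b0) (h1 : Bt b1) (h2 : Bt b2) (h3 : Bt b3) (h4 : Bt b4) (h5 : Bt b5) (h6 : Bt b6) (h7 : Bt b7) (h8 : Bt b8) (h9 : Bt b9) : bt 6 (c10 b0 b1 b2 b3 b4 b5 b6 b7 b8 b9) = b6 := by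
  unfold c10
  rw [bt_succ h0, bt_succ h1, bt_succ h2, bt_succ h3, bt_succ h4, bt_succ h5, bt_zero h6]
theorem bt_c10_7 {b0 b1 b2 b3 b4 b5 b6 b7 b8 b9 : ℕ} (h0 : Bt b0) (h1 : Bt b1) (h2 : Bt b2) (h3 : Bt b3) (h4 : Bt b4) (h5 : Bt b5) (h6 : Bt b6) (h7 : Bt b7) (h8 : Bt b8) (h9 : Bt b9) : bt 7 (c10 b0 b1 b2 b3 b4 b5 b6 b7 b8 b9) = b7 := by
  unfold c10
  rw [bt_succ h0, bt_succ h1, bt_succ h2, bt_succ h3, bt_succ h4, bt_succ h5, bt_succ h6, bt_zero h7]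
theorem bt_c10_8 {b0 b1 b2 b3 b4 b5 b6 b7 b8 b9 : ℕ} (h0 : Bt b0) (h1 : Bt b1) (h2 : Bt b2) (h3 : Bt b3) (h4 : Bt b4) (h5 : Bt b5) (h6 : Bt b6) (h7 : Bt b7) (h8 : Bt b8) (h9 : Bt b9) : bt 8 (c10 b0 b1 b2 b3 b4 b5 b6 b7 b8 b9) = b8 := by
  unfold c10
  rw [bt_succ h0, bt_succ h1, bt_succ h2, bt_succ h3, bt_succ h4, bt_succ h5, bt_succ h6, bt_succ h7, bt_zero h8]
theorem bt_c10_9 {b0 b1 b2 b3 b4 b5 b6 b7 b8 b9 : ℕ} (h0 : Bt b0) (h1 : Bt b1) (h2 : Bt b2) (h3 : Bt b3) (h4 : Bt b4) (h5 : Bt b5) (h6 : Bt b6) (h7 : Bt b7) (h8 : Bt b8) (h9 : Bt b9) : bt 9 (c10 b0 b1 b2 b3 b4 b5 b6 b7 b8 b9) = b9 := by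
  unfold c10
  rw [bt_succ h0, bt_succ h1, bt_succ h2, bt_succ h3, bt_succ h4, bt_succ h5, bt_succ h6, bt_succ h7, bt_succ h8, bt_self h9]
theorem m0_chk : (B2 fun b0 => B2 fun b1 => B2 fun b2 => B2 fun b3 => B2 fun b4 => B2 fun b5 => B2 fun b6 => B2 fun b7 => B2 fun b8 => B2 fun b9 => Nat.beq (m0 (c10 b0 b1 b2 b3 b4 b5 b6 b7 b8 b9)) (c10 b0 b1 b3 b2 b4 b6 b5 b8 b7 b9)) = true := by decide +kernel
theorem m0_eq {b0 b1 b2 b3 b4 b5 b6 b7 b8 b9 : ℕ} (h0 : Bt b0) (h1 : Bt b1) (h2 : Bt b2) (h3 : Bt b3) (h4 : Bt b4) (h5 : Bt b5) (h6 : Bt b6) (h7 : Bt b7) (h8 : Bt b8) (h9 : Bt b9) : m0 (c10 b0 b1 b2 b3 b4 b5 b6 b7 b8 b9) = c10 b0 b1 b3 b2 b4 b6 b5 b8 b7 b9 :=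
  Nat.eq_of_beq_eq_true (B2_true (B2_true (B2_true (B2_true (B2_true (B2_true (B2_true (B2_true (B2_true (B2_true m0_chk h0) h1) h2) h3) h4) h5) h6) h7) h8) h9)
theorem m1_chk : (B2 fun b0 => B2 fun b1 => B2 fun b2 => B2 fun b3 => B2 fun b4 => B2 fun b5 => B2 fun b6 => B2 fun b7 => B2 fun b8 => B2 fun b9 => Nat.beq (m1 (c10 b0 b1 b2 b3 b4 b5 b6 b7 b8 b9)) (c10 b0 b2 b1 b3 b5 b4 b6 b7 b9 b8)) = true := by decide +kernel
theorem m1_eq {b0 b1 b2 b3 b4 b5 b6 b7 b8 b9 : ℕ} (h0 : Bt b0) (h1 : Bt b1) (h2 : Bt b2) (h3 : Bt b3) (h4 : Bt b4) (h5 : Bt b5) (h6 : Bt b6) (h7 : Bt b7) (h8 : Bt b8) (h9 : Bt b9) : m1 (c10 b0 b1 b2 b3 b4 b5 b6 b7 b8 b9) = c10 b0 b2 b1 b3 b5 b4 b6 b7 b9 b8 :=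
  Nat.eq_of_beq_eq_true (B2_true (B2_true (B2_true (B2_true (B2_true (B2_true (B2_true (B2_true (B2_true (B2_true m1_chk h0) h1) h2) h3) h4) h5) h6) h7) h8) h9)
theorem m2_chk : (B2 fun b0 => B2 fun b1 => B2 fun b2 => B2 fun b3 => B2 fun b4 => B2 fun b5 => B2 fun b6 => B2 fun b7 => B2 fun b8 => B2 fun b9 => Nat.beq (m2 (c10 b0 b1 b2 b3 b4 b5 b6 b7 b8 b9)) (c10 b1 b0 b2 b3 b4 b7 b8 b5 b6 b9)) = true := by decide +kernel
theorem m2_eq {b0 b1 b2 b3 b4 b5 b6 b7 b8 b9 : ℕ} (h0 : Bt b0) (h1 : Bt b1) (h2 : Bt b2) (h3 : Bt b3) (h4 : Bt b4) (h5 : Bt b5) (h6 : Bt b6) (h7 : Bt b7) (h8 : Bt b8) (h9 : Bt b9) : m2 (c10 b0 b1 b2 b3 b4 b5 b6 b7 b8 b9) = c10 b1 b0 b2 b3 b4 b7 b8 b5 b6 b9 :=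
  Nat.eq_of_beq_eq_true (B2_true (B2_true (B2_true (B2_true (B2_true (B2_true (B2_true (B2_true (B2_true (B2_true m2_chk h0) h1) h2) h3) h4) h5) h6) h7) h8) h9)
theorem m3_chk : (B2 fun b0 => B2 fun b1 => B2 fun b2 => B2 fun b3 => B2 fun b4 => B2 fun b5 => B2 fun b6 => B2 fun b7 => B2 fun b8 => B2 fun b9 => Nat.beq (m3 (c10 b0 b1 b2 b3 b4 b5 b6 b7 b8 b9)) (c10 b0 b4 b5 b6 b1 b2 b3 b7 b8 b9)) = true := by decide +kernel
theorem m3_eq {b0 b1 b2 b3 b4 b5 b6 b7 b8 b9 : ℕ} (h0 : Bt b0) (h1 : Bt b1) (h2 : Bt b2) (h3 : Bt b3) (h4 : Bt b4) (h5 : Bt b5) (h6 : Bt b6) (h7 : Bt b7) (h8 : Bt b8) (h9 : Bt b9) : m3 (c10 b0 b1 b2 b3 b4 b5 b6 b7 b8 b9) = c10 b0 b4 b5 b6 b1 b2 b3 b7 b8 b9 :=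
  Nat.eq_of_beq_eq_true (B2_true (B2_true (B2_true (B2_true (B2_true (B2_true (B2_true (B2_true (B2_true (B2_true m3_chk h0) h1) h2) h3) h4) h5) h6) h7) h8) h9)
theorem f0_chk : (B2 fun b0 => B2 fun b1 => B2 fun b2 => B2 fun b3 => B2 fun b4 => B2 fun b5 => B2 fun b6 => B2 fun b7 => B2 fun b8 => B2 fun b9 => Nat.beq (f0 (c10 b0 b1 b2 b3 b4 b5 b6 b7 b8 b9)) (c10 b1 b0 b2 b3 b4 b6 b5 b8 b7 b9)) = true := by decide +kernel
theorem f0_eq {b0 b1 b2 b3 b4 b5 b6 b7 b8 b9 : ℕ} (h0 : Bt b0) (h1 : Bt b1) (h2 : Bt b2) (h3 : Bt b3) (h4 : Bt b4) (h5 : Bt b5) (h6 : Bt b6) (h7 : Bt b7) (h8 : Bt b8) (h9 : Bt b9) : f0 (c10 b0 b1 b2 b3 b4 b5 b6 b7 b8 b9) = c10 b1 b0 b2 b3 b4 b6 b5 b8 b7 b9 :=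
  Nat.eq_of_beq_eq_true (B2_true (B2_true (B2_true (B2_true (B2_true (B2_true (B2_true (B2_true (B2_true (B2_true f0_chk h0) h1) h2) h3) h4) h5) h6) h7) h8) h9)
theorem f1_chk : (B2 fun b0 => B2 fun b1 => B2 fun b2 => B2 fun b3 => B2 fun b4 => B2 fun b5 => B2 fun b6 => B2 fun b7 => B2 fun b8 => B2 fun b9 => Nat.beq (f1 (c10 b0 b1 b2 b3 b4 b5 b6 b7 b8 b9)) (c10 b0 b2 b1 b3 b5 b4 b6 b7 b9 b8)) = true := by decide +kernel
theorem f1_eq {b0 b1 b2 b3 b4 b5 b6 b7 b8 b9 : ℕ} (h0 : Bt b0) (h1 : Bt b1) (h2 : Bt b2) (h3 : Bt b3) (h4 : Bt b4) (h5 : Bt b5) (h6 : Bt b6) (h7 : Bt b7) (h8 : Bt b8) (h9 : Bt b9) : f1 (c10 b0 b1 b2 b3 b4 b5 b6 b7 b8 b9) = c10 b0 b2 b1 b3 b5 b4 b6 b7 b9 b8 :=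
  Nat.eq_of_beq_eq_true (B2_true (B2_true (B2_true (B2_true (B2_true (B2_true (B2_true (B2_true (B2_true (B2_true f1_chk h0) h1) h2) h3) h4) h5) h6) h7) h8) h9)
theorem f2_chk : (B2 fun b0 => B2 fun b1 => B2 fun b2 => B2 fun b3 => B2 fun b4 => B2 fun b5 => B2 fun b6 => B2 fun b7 => B2 fun b8 => B2 fun b9 => Nat.beq (f2 (c10 b0 b1 b2 b3 b4 b5 b6 b7 b8 b9)) (c10 b0 b1 b3 b2 b4 b7 b8 b5 b6 b9)) = true := by decide +kernel
theorem f2_eq {b0 b1 b2 b3 b4 b5 b6 b7 b8 b9 : ℕ} (h0 : Bt b0) (h1 : Bt b1) (h2 : Bt b2) (h3 : Bt b3) (h4 : Bt b4) (h5 : Bt b5) (h6 : Bt b6) (h7 : Bt b7) (h8 : Bt b8) (h9 : Bt b9) : f2 (c10 b0 b1 b2 b3 b4 b5 b6 b7 b8 b9) = c10 b0 b1 b3 b2 b4 b7 b8 b5 b6 b9 :=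
  Nat.eq_of_beq_eq_true (B2_true (B2_true (B2_true (B2_true (B2_true (B2_true (B2_true (B2_true (B2_true (B2_true f2_chk h0) h1) h2) h3) h4) h5) h6) h7) h8) h9)
theorem f3_chk : (B2 fun b0 => B2 fun b1 => B2 fun b2 => B2 fun b3 => B2 fun b4 => B2 fun b5 => B2 fun b6 => B2 fun b7 => B2 fun b8 => B2 fun b9 => Nat.beq (f3 (c10 b0 b1 b2 b3 b4 b5 b6 b7 b8 b9)) (c10 b7 b8 b9 b3 b4 b5 b6 b0 b1 b2)) = true := by decide +kernel
theorem f3_eq {b0 b1 b2 b3 b4 b5 b6 b7 b8 b9 : ℕ} (h0 : Bt b0) (h1 : Bt b1) (h2 : Bt b2) (h3 : Bt b3) (h4 : Bt b4) (h5 : Bt b5) (h6 : Bt b6) (h7 : Bt b7) (h8 : Bt b8) (h9 : Bt b9) : f3 (c10 b0 b1 b2 b3 b4 b5 b6 b7 b8 b9) = c10 b7 b8 b9 b3 b4 b5 b6 b0 b1 b2 :=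
  Nat.eq_of_beq_eq_true (B2_true (B2_true (B2_true (B2_true (B2_true (B2_true (B2_true (B2_true (B2_true (B2_true f3_chk h0) h1) h2) h3) h4) h5) h6) h7) h8) h9)

section
variable {V : Type} (E : V → V → V → ℕ)

def mC (a b c d e : V) : ℕ := c10 (E a b c) (E a b d) (E a c d) (E b c d) (E a b e) (E a c e) (E b c e) (E a d e) (E b d e) (E c d e)
def lF (a b c d e x : V) : ℕ := c10 (E a e x) (E b e x) (E c e x) (E d e x) (E a b x) (E a c x) (E b c x) (E a d x) (E b d x) (E c d x)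
/-- the term of five plus two vertices -/
def F5 (a b c d e x y : V) : ℕ := dt (rc (mC E a b c d e) (lF E a b c d e x)) (rc (mC E a b c d e) (lF E a b c d e y))

variable {E}

theorem mC_lt (hE : Sy E) (a b c d e : V) : mC E a b c d e < 1024 :=
  c10_lt (hE.b _ _ _) (hE.b _ _ _) (hE.b _ _ _) (hE.b _ _ _) (hE.b _ _ _) (hE.b _ _ _) (hE.b _ _ _) (hE.b _ _ _) (hE.b _ _ _) (hE.b _ _ _)
theorem lF_lt (hE : Sy E) (a b c d e x : V) : lF E a b c d e x < 1024 :=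
  c10_lt (hE.b _ _ _) (hE.b _ _ _) (hE.b _ _ _) (hE.b _ _ _) (hE.b _ _ _) (hE.b _ _ _) (hE.b _ _ _) (hE.b _ _ _) (hE.b _ _ _) (hE.b _ _ _)

theorem has4_E (hE : Sy E) (hK : NoK4 E) (a b c d e : V) : has4 (mC E a b c d e) = false := by
  unfold has4 k4c mC
  rw [bt_c10_0 (hE.b _ _ _) (hE.b _ _ _) (hE.b _ _ _) (hE.b _ _ _) (hE.b _ _ _) (hE.b _ _ _) (hE.b _ _ _) (hE.b _ _ _) (hE.b _ _ _) (hE.b _ _ _), bt_c10_1 (hE.b _ _ _) (hE.b _ _ _) (hE.b _ _ _) (hE.b _ _ _) (hE.b _ _ _) (hE.b _ _ _) (hE.b _ _ _) (hE.b _ _ _) (hE.b _ _ _) (hE.b _ _ _), bt_c10_2 (hE.b _ _ _) (hE.b _ _ _) (hE.b _ _ _) (hE.b _ _ _) (hE.b _ _ _) (hE.b _ _ _) (hE.b _ _ _) (hE.b _ _ _) (hE.b _ _ _) (hE.b _ _ _), bt_c10_3 (hE.b _ _ _) (hE.b _ _ _) (hE.b _ _ _) (hE.b _ _ _) (hE.b _ _ _) (hE.b _ _ _) (hE.b _ _ _) (hE.b _ _ _) (hE.b _ _ _) (hE.b _ _ _), bt_c10_4 (hE.b _ _ _) (hE.b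 _ _ _) (hE.b _ _ _) (hE.b _ _ _) (hE.b _ _ _) (hE.b _ _ _) (hE.b _ _ _) (hE.b _ _ _) (hE.b _ _ _) (hE.b _ _ _), bt_c10_5 (hE.b _ _ _) (hE.b _ _ _) (hE.b _ _ _) (hE.b _ _ _) (hE.b _ _ _) (hE.b _ _ _) (hE.b _ _ _) (hE.b _ _ _) (hE.b _ _ _) (hE.b _ _ _), bt_c10_6 (hE.b _ _ _) (hE.b _ _ _) (hE.b _ _ _) (hE.b _ _ _) (hE.b _ _ _) (hE.b _ _ _) (hE.b _ _ _) (hE.b _ _ _) (hE.b _ _ _) (hE.b _ _ _), bt_c10_7 (hE.b _ _ _) (hE.b _ _ _) (hE.b _ _ _) (hE.b _ _ _) (hE.b _ _ _) (hE.b _ _ _) (hE.b _ _ _) (hE.b _ _ _) (hE.b _ _ _) (hE.b _ _ _), bt_c10_8 (hE.b _ _ _) (hE.b _ _ _) (hE.b _ _ _) (hE.b _ _ _) (hE.b _ _ _) (hE.b _ _ _) (hE.b _ _ _) (hE.b _ _ _) (hE.b _ _ _) (hE.b _ _ _), bt_c10_9 (hE.b _ _ _) (hE.b _ _ _) (hE.b _ _ _) (hE.b _ _ _) (hE.b _ _ _) (hE.b _ _ _) (hE.b _ _ _) (hE.b _ _ _) (hE.b _ _ _) (hE.b _ _ _)]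
  have e0 := hK a b c d
  have e1 := hK a b c e
  have e2 := hK a b d e
  have e3 := hK a c d e
  have e4 := hK b c d e
  unfold k4b at e0 e1 e2 e3 e4
  rw [e0, e1, e2, e3, e4]
  rfl

theorem k4_zero {p q r s : ℕ} (hp : Bt p) (hq : Bt q) (hr : Bt r) (hs : Bt s) (h : k4b p q r s = false) :
    q * (r * s) * p = 0 := by
  rcases hp with rfl | rfl <;> rcases hq with rfl | rfl <;> rcases hr with rfl | rfl <;> rcases hs with rfl | rfl <;>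
    first | rfl | exact absurd h (by decide)

theorem badf_E (hE : Sy E) (hK : NoK4 E) (a b c d e x : V) : badf (mC E a b c d e) (lF E a b c d e x) = 0 := by
  unfold badf
  rw [m3f_10 (by norm_num : 4 < 10) (by norm_num : 5 < 10) (by norm_num : 6 < 10), m3f_10 (by norm_num : 4 < 10) (by norm_num : 7 < 10) (by norm_num : 8 < 10), m3f_10 (by norm_num : 5 < 10) (by norm_num : 7 < 10) (by norm_num : 9 < 10), m3f_10 (by norm_num : 6 < 10) (by norm_num : 8 < 10) (by norm_num : 9 < 10), m3f_10 (by norm_num : 0 < 10) (by norm_num : 1 < 10) (by norm_num : 4 < 10), m3f_10 (by norm_num : 0 < 10) (by norm_num : 2 < 10) (by norm_num : 5 < 10), m3f_10 (by norm_num : 1 < 10) (by norm_num : 2 < 10) (by norm_num : 6 < 10), m3f_10 (by norm_num : 0 < 10) (by norm_num : 3 < 10) (by norm_num : 7 < 10), m3f_10 (by norm_num : 1 < 10) (by norm_num : 3 < 10) (by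 norm_num : 8 < 10), m3f_10 (by norm_num : 2 < 10) (by norm_num : 3 < 10) (by norm_num : 9 < 10)]
  unfold mC lF
  simp only [bt_c10_0 (hE.b _ _ _) (hE.b _ _ _) (hE.b _ _ _) (hE.b _ _ _) (hE.b _ _ _) (hE.b _ _ _) (hE.b _ _ _) (hE.b _ _ _) (hE.b _ _ _) (hE.b _ _ _), bt_c10_1 (hE.b _ _ _) (hE.b _ _ _) (hE.b _ _ _) (hE.b _ _ _) (hE.b _ _ _) (hE.b _ _ _) (hE.b _ _ _) (hE.b _ _ _) (hE.b _ _ _) (hE.b _ _ _), bt_c10_2 (hE.b _ _ _) (hE.b _ _ _) (hE.b _ _ _) (hE.b _ _ _) (hE.b _ _ _) (hE.b _ _ _) (hE.b _ _ _) (hE.b _ _ _) (hE.b _ _ _) (hE.b _ _ _), bt_c10_3 (hE.b _ _ _) (hE.b _ _ _) (hE.b _ _ _) (hE.b _ _ _) (hE.b _ _ _) (hE.b _ _ _) (hE.b _ _ _) (hE.b _ _ _) (hE.b _ _ _) (hE.b _ _ _), bt_c10_4 (hE.b _ _ _) (hE.b _ _ _) (hE.b _ _ _) (hE.b _ _ _) (hE.b _ _ _) (hE.b _ _ _) (hE.b _ _ _) (hE.b _ _ _) (hE.b _ _ _) (hE.b _ _ _), bt_c10_5 (hE.b _ _ _) (hE.b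 _ _ _) (hE.b _ _ _) (hE.b _ _ _) (hE.b _ _ _) (hE.b _ _ _) (hE.b _ _ _) (hE.b _ _ _) (hE.b _ _ _) (hE.b _ _ _), bt_c10_6 (hE.b _ _ _) (hE.b _ _ _) (hE.b _ _ _) (hE.b _ _ _) (hE.b _ _ _) (hE.b _ _ _) (hE.b _ _ _) (hE.b _ _ _) (hE.b _ _ _) (hE.b _ _ _), bt_c10_7 (hE.b _ _ _) (hE.b _ _ _) (hE.b _ _ _) (hE.b _ _ _) (hE.b _ _ _) (hE.b _ _ _) (hE.b _ _ _) (hE.b _ _ _) (hE.b _ _ _) (hE.b _ _ _), bt_c10_8 (hE.b _ _ _) (hE.b _ _ _) (hE.b _ _ _) (hE.b _ _ _) (hE.b _ _ _) (hE.b _ _ _) (hE.b _ _ _) (hE.b _ _ _) (hE.b _ _ _) (hE.b _ _ _), bt_c10_9 (hE.b _ _ _) (hE.b _ _ _) (hE.b _ _ _) (hE.b _ _ _) (hE.b _ _ _) (hE.b _ _ _) (hE.b _ _ _) (hE.b _ _ _) (hE.b _ _ _) (hE.b _ _ _)]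
  have z0 : E a b x * (E a c x * E b c x) * E a b c = 0 := by
    have h := k4_zero (hE.b a b c) (hE.b a b x) (hE.b a c x) (hE.b b c x) (hK a b c x)
    refine Eq.trans ?_ h
    ring
  have z1 : E a b x * (E a d x * E b d x) * E a b d = 0 := by
    have h := k4_zero (hE.b a b d) (hE.b a b x) (hE.b a d x) (hE.b b d x) (hK a b d x)
    refine Eq.trans ?_ h
    ring
  have z2 : E a c x * (E a d x * E c d x) * E a c d = 0 := by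
    have h := k4_zero (hE.b a c d) (hE.b a c x) (hE.b a d x) (hE.b c d x) (hK a c d x)
    refine Eq.trans ?_ h
    ring
  have z3 : E b c x * (E b d x * E c d x) * E b c d = 0 := by
    have h := k4_zero (hE.b b c d) (hE.b b c x) (hE.b b d x) (hE.b c d x) (hK b c d x)
    refine Eq.trans ?_ h
    ring
  have z4 : E a e x * (E b e x * E a b x) * E a b e = 0 := by
    have h := k4_zero (hE.b a b e) (hE.b a b x) (hE.b a e x) (hE.b b e x) (hK a b e x)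
    refine Eq.trans ?_ h
    ring
  have z5 : E a e x * (E c e x * E a c x) * E a c e = 0 := by
    have h := k4_zero (hE.b a c e) (hE.b a c x) (hE.b a e x) (hE.b c e x) (hK a c e x)
    refine Eq.trans ?_ h
    ring
  have z6 : E b e x * (E c e x * E b c x) * E b c e = 0 := by
    have h := k4_zero (hE.b b c e) (hE.b b c x) (hE.b b e x) (hE.b c e x) (hK b c e x)
    refine Eq.trans ?_ h
    ring
  have z7 : E a e x * (E d e x * E a d x) * E a d e = 0 := by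
    have h := k4_zero (hE.b a d e) (hE.b a d x) (hE.b a e x) (hE.b d e x) (hK a d e x)
    refine Eq.trans ?_ h
    ring
  have z8 : E b e x * (E d e x * E b d x) * E b d e = 0 := by
    have h := k4_zero (hE.b b d e) (hE.b b d x) (hE.b b e x) (hE.b d e x) (hK b d e x)
    refine Eq.trans ?_ h
    ring
  have z9 : E c e x * (E d e x * E c d x) * E c d e = 0 := by
    have h := k4_zero (hE.b c d e) (hE.b c d x) (hE.b c e x) (hE.b d e x) (hK c d e x)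
    refine Eq.trans ?_ h
    ring
  rw [z0, z1, z2, z3, z4, z5, z6, z7, z8, z9]
  rfl

/-- all checks hold -/
def CH : Prop := ∀ m < 1024, chkM m = true

theorem chkM_spec {m : ℕ} (h : chkM m = true) (h4 : has4 m = false) : wid m (DV m) = true ∧ vld m (DV m) = true ∧
    inv (DV m) (v0 (DV (m0 m))) = true ∧ inv (DV m) (v1 (DV (m1 m))) = true ∧
    inv (DV m) (v2 (DV (m2 m))) = true ∧ inv (DV m) (v3 (DV (m3 m))) = true := by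
  unfold chkM at h
  rw [h4, cnd_false', st_eq, st_eq, st_eq, st_eq] at h
  obtain ⟨h1, h⟩ := cnd_and h
  obtain ⟨h2, h⟩ := cnd_and h
  obtain ⟨h3, h⟩ := cnd_and h
  obtain ⟨h4, h⟩ := cnd_and h
  obtain ⟨h5, h6⟩ := cnd_and h
  exact ⟨h1, h2, h3, h4, h5, h6⟩

theorem v0_eq {R : ℕ → ℕ} (hR : ∀ i < 2 ^ 10, R i < 2 ^ 640) : v0 (enc 640 10 R) = enc 640 10 (fun i => R (f0 i)) := by
  unfold v0
  rw [swp_enc (by norm_num) (by norm_num) (by norm_num) hR,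
    swp_enc (by norm_num) (by norm_num) (by norm_num) (f := fun i => R (sb 0 1 i)) (fun i hi => hR _ (sb_lt (by norm_num) (by norm_num) hi)),
    swp_enc (by norm_num) (by norm_num) (by norm_num) (f := fun i => R (sb 0 1 (sb 5 6 i)))
      (fun i hi => hR _ (sb_lt (by norm_num) (by norm_num) (sb_lt (by norm_num) (by norm_num) hi)))]
  rfl
theorem v1_eq {R : ℕ → ℕ} (hR : ∀ i < 2 ^ 10, R i < 2 ^ 640) : v1 (enc 640 10 R) = enc 640 10 (fun i => R (f1 i)) := by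
  unfold v1
  rw [swp_enc (by norm_num) (by norm_num) (by norm_num) hR,
    swp_enc (by norm_num) (by norm_num) (by norm_num) (f := fun i => R (sb 1 2 i)) (fun i hi => hR _ (sb_lt (by norm_num) (by norm_num) hi)),
    swp_enc (by norm_num) (by norm_num) (by norm_num) (f := fun i => R (sb 1 2 (sb 4 5 i)))
      (fun i hi => hR _ (sb_lt (by norm_num) (by norm_num) (sb_lt (by norm_num) (by norm_num) hi)))]
  rfl
theorem v2_eq {R : ℕ → ℕ} (hR : ∀ i < 2 ^ 10, R i < 2 ^ 640) : v2 (enc 640 10 R) = enc 640 10 (fun i => R (f2 i)) := by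
  unfold v2
  rw [swp_enc (by norm_num) (by norm_num) (by norm_num) hR,
    swp_enc (by norm_num) (by norm_num) (by norm_num) (f := fun i => R (sb 2 3 i)) (fun i hi => hR _ (sb_lt (by norm_num) (by norm_num) hi)),
    swp_enc (by norm_num) (by norm_num) (by norm_num) (f := fun i => R (sb 2 3 (sb 5 7 i)))
      (fun i hi => hR _ (sb_lt (by norm_num) (by norm_num) (sb_lt (by norm_num) (by norm_num) hi)))]
  rfl
theorem v3_eq {R : ℕ → ℕ} (hR : ∀ i < 2 ^ 10, R i < 2 ^ 640) : v3 (enc 640 10 R) = enc 640 10 (fun i => R (f3 i)) := by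
  unfold v3
  rw [swp_enc (by norm_num) (by norm_num) (by norm_num) hR,
    swp_enc (by norm_num) (by norm_num) (by norm_num) (f := fun i => R (sb 0 7 i)) (fun i hi => hR _ (sb_lt (by norm_num) (by norm_num) hi)),
    swp_enc (by norm_num) (by norm_num) (by norm_num) (f := fun i => R (sb 0 7 (sb 1 8 i)))
      (fun i hi => hR _ (sb_lt (by norm_num) (by norm_num) (sb_lt (by norm_num) (by norm_num) hi)))]
  rfl

theorem mC_s0 (hE : Sy E) (a b c d e : V) : mC E b a c d e = m0 (mC E a b c d e) := by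
  unfold mC
  rw [m0_eq (hE.b _ _ _) (hE.b _ _ _) (hE.b _ _ _) (hE.b _ _ _) (hE.b _ _ _) (hE.b _ _ _) (hE.b _ _ _) (hE.b _ _ _) (hE.b _ _ _) (hE.b _ _ _)]
  rw [hE.h213 a b c, hE.h213 a b d, hE.h213 a b e]
theorem lF_s0 (hE : Sy E) (a b c d e x : V) : lF E b a c d e x = f0 (lF E a b c d e x) := by
  unfold lF
  rw [f0_eq (hE.b _ _ _) (hE.b _ _ _) (hE.b _ _ _) (hE.b _ _ _) (hE.b _ _ _) (hE.b _ _ _) (hE.b _ _ _) (hE.b _ _ _) (hE.b _ _ _) (hE.b _ _ _)]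
  rw [hE.h213 a b x]
theorem mC_s1 (hE : Sy E) (a b c d e : V) : mC E a c b d e = m1 (mC E a b c d e) := by
  unfold mC
  rw [m1_eq (hE.b _ _ _) (hE.b _ _ _) (hE.b _ _ _) (hE.b _ _ _) (hE.b _ _ _) (hE.b _ _ _) (hE.b _ _ _) (hE.b _ _ _) (hE.b _ _ _) (hE.b _ _ _)]
  rw [hE.h132 a b c, hE.h213 b c d, hE.h213 b c e]
theorem lF_s1 (hE : Sy E) (a b c d e x : V) : lF E a c b d e x = f1 (lF E a b c d e x) := by
  unfold lF
  rw [f1_eq (hE.b _ _ _) (hE.b _ _ _) (hE.b _ _ _) (hE.b _ _ _) (hE.b _ _ _) (hE.b _ _ _) (hE.b _ _ _) (hE.b _ _ _) (hE.b _ _ _) (hE.b _ _ _)]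
  rw [hE.h213 b c x]
theorem mC_s2 (hE : Sy E) (a b c d e : V) : mC E a b d c e = m2 (mC E a b c d e) := by
  unfold mC
  rw [m2_eq (hE.b _ _ _) (hE.b _ _ _) (hE.b _ _ _) (hE.b _ _ _) (hE.b _ _ _) (hE.b _ _ _) (hE.b _ _ _) (hE.b _ _ _) (hE.b _ _ _) (hE.b _ _ _)]
  rw [hE.h132 a c d, hE.h132 b c d, hE.h213 c d e]
theorem lF_s2 (hE : Sy E) (a b c d e x : V) : lF E a b d c e x = f2 (lF E a b c d e x) := by
  unfold lF
  rw [f2_eq (hE.b _ _ _) (hE.b _ _ _) (hE.b _ _ _) (hE.b _ _ _) (hE.b _ _ _) (hE.b _ _ _) (hE.b _ _ _) (hE.b _ _ _) (hE.b _ _ _) (hE.b _ _ _)]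
  rw [hE.h213 c d x]
theorem mC_s3 (hE : Sy E) (a b c d e : V) : mC E a b c e d = m3 (mC E a b c d e) := by
  unfold mC
  rw [m3_eq (hE.b _ _ _) (hE.b _ _ _) (hE.b _ _ _) (hE.b _ _ _) (hE.b _ _ _) (hE.b _ _ _) (hE.b _ _ _) (hE.b _ _ _) (hE.b _ _ _) (hE.b _ _ _)]
  rw [hE.h132 a d e, hE.h132 b d e, hE.h132 c d e]
theorem lF_s3 (hE : Sy E) (a b c d e x : V) : lF E a b c e d x = f3 (lF E a b c d e x) := by
  unfold lF
  rw [f3_eq (hE.b _ _ _) (hE.b _ _ _) (hE.b _ _ _) (hE.b _ _ _) (hE.b _ _ _) (hE.b _ _ _) (hE.b _ _ _) (hE.b _ _ _) (hE.b _ _ _) (hE.b _ _ _)]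
  rw [hE.h213 d e x]

theorem ev_E (hC : CH) (hE : Sy E) (hK : NoK4 E) (a b c d e x : V) : ec (mC E a b c d e) (lF E a b c d e x) 13 = 1 :=
  vld_spec (mC_lt hE _ _ _ _ _) (chkM_spec (hC _ (mC_lt hE _ _ _ _ _)) (has4_E hE hK _ _ _ _ _)).2.1 (lF_lt hE _ _ _ _ _ _) (badf_E hE hK _ _ _ _ _ _)

/-- the weight of a structure on six vertices, as stored in the tables -/
def gg (E : V → V → V → ℕ) (a b c d e x : V) : ℕ := ec (mC E a b c d e) (lF E a b c d e x) 14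

theorem ew_E (hC : CH) (hE : Sy E) (hK : NoK4 E) (a b c d e x : V) :
    ec (mC E a b c d e) (lF E a b c d e x) 12 + (∑ k ∈ range 12, ec (mC E a b c d e) (lF E a b c d e x) k) * 9728
      = gg E a b c d e x := by
  exact wid_spec (mC_lt hE _ _ _ _ _) (chkM_spec (hC _ (mC_lt hE _ _ _ _ _)) (has4_E hE hK _ _ _ _ _)).1 (lF_lt hE _ _ _ _ _ _)

/-- the term as a sum of products -/
theorem F5_int (hC : CH) (hE : Sy E) (hK : NoK4 E) (a b c d e x y : V) : (F5 E a b c d e x y : ℤ) =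
    (gg E a b c d e x : ℕ) + (gg E a b c d e y : ℕ)
    + (∑ k ∈ range 12, ((ec (mC E a b c d e) (lF E a b c d e x) k : ℤ) - 9728) * ((ec (mC E a b c d e) (lF E a b c d e y) k : ℤ) - 9728)) - 12 * 9728 ^ 2 := by
  have h1 := ew_E hC hE hK a b c d e x
  have h2 := ew_E hC hE hK a b c d e y
  rw [← h1, ← h2]
  unfold F5 dt
  have hfe : ∀ f k, fld 40 (rc (mC E a b c d e) f) k = ec (mC E a b c d e) f k := fun _ _ => rfl
  simp only [hfe]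
  have h3 : ∑ k ∈ range 12, ((ec (mC E a b c d e) (lF E a b c d e x) k : ℤ) - 9728) * ((ec (mC E a b c d e) (lF E a b c d e y) k : ℤ) - 9728)
      = ∑ k ∈ range 12, (ec (mC E a b c d e) (lF E a b c d e x) k : ℤ) * (ec (mC E a b c d e) (lF E a b c d e y) k : ℤ)
        - 9728 * ∑ k ∈ range 12, (ec (mC E a b c d e) (lF E a b c d e x) k : ℤ) - 9728 * ∑ k ∈ range 12, (ec (mC E a b c d e) (lF E a b c d e y) k : ℤ)
        + 12 * 9728 ^ 2 := by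
    rw [mul_sum, mul_sum, ← sum_sub_distrib, ← sum_sub_distrib]
    have : (12 * 9728 ^ 2 : ℤ) = ∑ _k ∈ range 12, (9728 ^ 2 : ℤ) := by rw [sum_const, card_range]; norm_num
    rw [this, ← sum_add_distrib]
    exact sum_congr rfl fun k _ => by ring
  rw [h3]
  push_cast
  ring

theorem Rk_prod {m m' : ℕ} {g : ℕ → ℕ} {k : ℕ} (h : Rk m m' g k) {f1 f2 : ℕ} (h1 : f1 < 1024) (h2 : f2 < 1024)
    (e1 : ec m f1 13 = 1) (e2 : ec m f2 13 = 1) :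
    ((ec m' (g f1) k : ℤ) - 9728) * ((ec m' (g f2) k : ℤ) - 9728) = ((ec m f1 k : ℤ) - 9728) * ((ec m f2 k : ℤ) - 9728) := by
  rcases h with h | h
  · rw [h f1 h1, h f2 h2]
  · have a1 := h f1 h1
    have a2 := h f2 h2
    rw [e1] at a1
    rw [e2] at a2
    have b1 : (ec m' (g f1) k : ℤ) = 19456 - ec m f1 k := by
      have : ((ec m f1 k + ec m' (g f1) k : ℕ) : ℤ) = ((1 * 19456 : ℕ) : ℤ) := by rw [a1]
      push_cast at this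
      linarith
    have b2 : (ec m' (g f2) k : ℤ) = 19456 - ec m f2 k := by
      have : ((ec m f2 k + ec m' (g f2) k : ℕ) : ℤ) = ((1 * 19456 : ℕ) : ℤ) := by rw [a2]
      push_cast at this
      linarith
    rw [b1, b2]
    ring


theorem sum_prod {m m' : ℕ} {g : ℕ → ℕ} (hR : ∀ k < 12, Rk m m' g k) {f1 f2 : ℕ} (h1 : f1 < 1024) (h2 : f2 < 1024)
    (e1 : ec m f1 13 = 1) (e2 : ec m f2 13 = 1) :
    ∑ k ∈ range 12, ((ec m' (g f1) k : ℤ) - 9728) * ((ec m' (g f2) k : ℤ) - 9728)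
      = ∑ k ∈ range 12, ((ec m f1 k : ℤ) - 9728) * ((ec m f2 k : ℤ) - 9728) :=
  sum_congr rfl fun k hk => Rk_prod (hR k (mem_range.mp hk)) h1 h2 e1 e2

theorem hy0 {m : ℕ} (h : m0 m < 1024) : v0 (DV (m0 m)) = enc 640 10 (fun f => rc (m0 m) (f0 f)) := by
  rw [DV_eq h, v0_eq (fun i _ => rc_lt _ _)]
theorem R_s0 {m : ℕ} (hm : m < 1024) (h0 : m0 m < 1024) (hi : inv (DV m) (v0 (DV (m0 m))) = true) : ∀ k < 12, Rk m (m0 m) f0 k :=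
  fun k hk => inv_spec hm (hy0 h0) hi hk
theorem gg_s0 (hC : CH) (hE : Sy E) (hK : NoK4 E) (a b c d e x : V) : gg E b a c d e x = gg E a b c d e x := by
  have hm := mC_lt hE a b c d e
  have hm' := mC_lt hE b a c d e
  rw [mC_s0 hE] at hm'
  unfold gg
  rw [mC_s0 hE a b c d e, lF_s0 hE a b c d e x]
  exact (inv14_spec hm (hy0 hm') (chkM_spec (hC _ hm) (has4_E hE hK a b c d e)).2.2.1 (lF_lt hE a b c d e x)).symm
theorem F5_s0 (hC : CH) (hE : Sy E) (hK : NoK4 E) (a b c d e x y : V) : F5 E b a c d e x y = F5 E a b c d e x y := by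
  have hm := mC_lt hE a b c d e
  have hm' := mC_lt hE b a c d e
  rw [mC_s0 hE] at hm'
  have hS := sum_prod (R_s0 hm hm' (chkM_spec (hC _ hm) (has4_E hE hK a b c d e)).2.2.1) (lF_lt hE a b c d e x) (lF_lt hE a b c d e y)
    (ev_E hC hE hK a b c d e x) (ev_E hC hE hK a b c d e y)
  have h1 := F5_int hC hE hK b a c d e x y
  rw [gg_s0 hC hE hK a b c d e x, gg_s0 hC hE hK a b c d e y, mC_s0 hE a b c d e, lF_s0 hE a b c d e x, lF_s0 hE a b c d e y, hS, ← F5_int hC hE hK a b c d e x y] at h1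
  exact Nat.cast_injective (R := ℤ) h1
theorem hy1 {m : ℕ} (h : m1 m < 1024) : v1 (DV (m1 m)) = enc 640 10 (fun f => rc (m1 m) (f1 f)) := by
  rw [DV_eq h, v1_eq (fun i _ => rc_lt _ _)]
theorem R_s1 {m : ℕ} (hm : m < 1024) (h0 : m1 m < 1024) (hi : inv (DV m) (v1 (DV (m1 m))) = true) : ∀ k < 12, Rk m (m1 m) f1 k :=
  fun k hk => inv_spec hm (hy1 h0) hi hk
theorem gg_s1 (hC : CH) (hE : Sy E) (hK : NoK4 E) (a b c d e x : V) : gg E a c b d e x = gg E a b c d e x := by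
  have hm := mC_lt hE a b c d e
  have hm' := mC_lt hE a c b d e
  rw [mC_s1 hE] at hm'
  unfold gg
  rw [mC_s1 hE a b c d e, lF_s1 hE a b c d e x]
  exact (inv14_spec hm (hy1 hm') (chkM_spec (hC _ hm) (has4_E hE hK a b c d e)).2.2.2.1 (lF_lt hE a b c d e x)).symm
theorem F5_s1 (hC : CH) (hE : Sy E) (hK : NoK4 E) (a b c d e x y : V) : F5 E a c b d e x y = F5 E a b c d e x y := by
  have hm := mC_lt hE a b c d e
  have hm' := mC_lt hE a c b d e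
  rw [mC_s1 hE] at hm'
  have hS := sum_prod (R_s1 hm hm' (chkM_spec (hC _ hm) (has4_E hE hK a b c d e)).2.2.2.1) (lF_lt hE a b c d e x) (lF_lt hE a b c d e y)
    (ev_E hC hE hK a b c d e x) (ev_E hC hE hK a b c d e y)
  have h1 := F5_int hC hE hK a c b d e x y
  rw [gg_s1 hC hE hK a b c d e x, gg_s1 hC hE hK a b c d e y, mC_s1 hE a b c d e, lF_s1 hE a b c d e x, lF_s1 hE a b c d e y, hS, ← F5_int hC hE hK a b c d e x y] at h1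
  exact Nat.cast_injective (R := ℤ) h1
theorem hy2 {m : ℕ} (h : m2 m < 1024) : v2 (DV (m2 m)) = enc 640 10 (fun f => rc (m2 m) (f2 f)) := by
  rw [DV_eq h, v2_eq (fun i _ => rc_lt _ _)]
theorem R_s2 {m : ℕ} (hm : m < 1024) (h0 : m2 m < 1024) (hi : inv (DV m) (v2 (DV (m2 m))) = true) : ∀ k < 12, Rk m (m2 m) f2 k :=
  fun k hk => inv_spec hm (hy2 h0) hi hk
theorem gg_s2 (hC : CH) (hE : Sy E) (hK : NoK4 E) (a b c d e x : V) : gg E a b d c e x = gg E a b c d e x := by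
  have hm := mC_lt hE a b c d e
  have hm' := mC_lt hE a b d c e
  rw [mC_s2 hE] at hm'
  unfold gg
  rw [mC_s2 hE a b c d e, lF_s2 hE a b c d e x]
  exact (inv14_spec hm (hy2 hm') (chkM_spec (hC _ hm) (has4_E hE hK a b c d e)).2.2.2.2.1 (lF_lt hE a b c d e x)).symm
theorem F5_s2 (hC : CH) (hE : Sy E) (hK : NoK4 E) (a b c d e x y : V) : F5 E a b d c e x y = F5 E a b c d e x y := by
  have hm := mC_lt hE a b c d e
  have hm' := mC_lt hE a b d c e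
  rw [mC_s2 hE] at hm'
  have hS := sum_prod (R_s2 hm hm' (chkM_spec (hC _ hm) (has4_E hE hK a b c d e)).2.2.2.2.1) (lF_lt hE a b c d e x) (lF_lt hE a b c d e y)
    (ev_E hC hE hK a b c d e x) (ev_E hC hE hK a b c d e y)
  have h1 := F5_int hC hE hK a b d c e x y
  rw [gg_s2 hC hE hK a b c d e x, gg_s2 hC hE hK a b c d e y, mC_s2 hE a b c d e, lF_s2 hE a b c d e x, lF_s2 hE a b c d e y, hS, ← F5_int hC hE hK a b c d e x y] at h1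
  exact Nat.cast_injective (R := ℤ) h1
theorem hy3 {m : ℕ} (h : m3 m < 1024) : v3 (DV (m3 m)) = enc 640 10 (fun f => rc (m3 m) (f3 f)) := by
  rw [DV_eq h, v3_eq (fun i _ => rc_lt _ _)]
theorem R_s3 {m : ℕ} (hm : m < 1024) (h0 : m3 m < 1024) (hi : inv (DV m) (v3 (DV (m3 m))) = true) : ∀ k < 12, Rk m (m3 m) f3 k :=
  fun k hk => inv_spec hm (hy3 h0) hi hk
theorem gg_s3 (hC : CH) (hE : Sy E) (hK : NoK4 E) (a b c d e x : V) : gg E a b c e d x = gg E a b c d e x := by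
  have hm := mC_lt hE a b c d e
  have hm' := mC_lt hE a b c e d
  rw [mC_s3 hE] at hm'
  unfold gg
  rw [mC_s3 hE a b c d e, lF_s3 hE a b c d e x]
  exact (inv14_spec hm (hy3 hm') (chkM_spec (hC _ hm) (has4_E hE hK a b c d e)).2.2.2.2.2 (lF_lt hE a b c d e x)).symm
theorem F5_s3 (hC : CH) (hE : Sy E) (hK : NoK4 E) (a b c d e x y : V) : F5 E a b c e d x y = F5 E a b c d e x y := by
  have hm := mC_lt hE a b c d e
  have hm' := mC_lt hE a b c e d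
  rw [mC_s3 hE] at hm'
  have hS := sum_prod (R_s3 hm hm' (chkM_spec (hC _ hm) (has4_E hE hK a b c d e)).2.2.2.2.2) (lF_lt hE a b c d e x) (lF_lt hE a b c d e y)
    (ev_E hC hE hK a b c d e x) (ev_E hC hE hK a b c d e y)
  have h1 := F5_int hC hE hK a b c e d x y
  rw [gg_s3 hC hE hK a b c d e x, gg_s3 hC hE hK a b c d e y, mC_s3 hE a b c d e, lF_s3 hE a b c d e x, lF_s3 hE a b c d e y, hS, ← F5_int hC hE hK a b c d e x y] at h1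
  exact Nat.cast_injective (R := ℤ) h1
theorem F5_xy (a b c d e x y : V) : F5 E a b c d e y x = F5 E a b c d e x y := by
  unfold F5 dt
  rw [add_right_comm]
  congr 2
  exact sum_congr rfl fun k _ => mul_comm _ _

end

end

end Pool.Agent.T2H13.B7
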