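import Pool.Agent.T2H13.B7.Msk

set_option autoImplicit false
set_option maxRecDepth 100000
set_option maxHeartbeats 4000000

namespace Pool.Agent.T2H13.B7

def k19_3 : chB 19 rq19 3 30 = true := by decide +kernel
def k19_33 : chB 19 rq19 33 64 = true := by decide +kernel
def k19_97 : chB 19 rq19 97 927 = true := by decide +kernel
def k20_0 : chB 20 rq20 0 1 = true := by decide +kernel
def k20_1 : chB 20 rq20 1 4 = true := by decide +kernel
def k20_5 : chB 20 rq20 5 1019 = true := by decide +kernel
def k21_0 : chB 21 rq21 0 1 = true := by decide +kernel
def k21_1 : chB 21 rq21 1 4 = true := by decide +kernel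
def k21_5 : chB 21 rq21 5 4 = true := by decide +kernel
def k21_9 : chB 21 rq21 9 8 = true := by decide +kernel
def k21_17 : chB 21 rq21 17 16 = true := by decide +kernel
def k21_33 : chB 21 rq21 33 40 = true := by decide +kernel
def k21_73 : chB 21 rq21 73 8 = true := by decide +kernel
def k21_81 : chB 21 rq21 81 16 = true := by decide +kernel
def k21_97 : chB 21 rq21 97 64 = true := by decide +kernel
def k21_161 : chB 21 rq21 161 112 = true := by decide +kernel

end Pool.Agent.T2H13.B7
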