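import Pool.Agent.T2H13.B7.Msk

set_option autoImplicit false
set_option maxRecDepth 100000
set_option maxHeartbeats 4000000

namespace Pool.Agent.T2H13.B7

def k23_129 : chB 23 rq23 129 1 = true := by decide +kernel
def k23_130 : chB 23 rq23 130 1 = true := by decide +kernel
def k23_131 : chB 23 rq23 131 2 = true := by decide +kernel
def k23_133 : chB 23 rq23 133 28 = true := by decide +kernel
def k23_161 : chB 23 rq23 161 32 = true := by decide +kernel
def k23_193 : chB 23 rq23 193 32 = true := by decide +kernel
def k23_225 : chB 23 rq23 225 32 = true := by decide +kernel
def k23_257 : chB 23 rq23 257 1 = true := by decide +kernel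
def k23_258 : chB 23 rq23 258 3 = true := by decide +kernel
def k23_261 : chB 23 rq23 261 4 = true := by decide +kernel
def k23_265 : chB 23 rq23 265 8 = true := by decide +kernel
def k23_273 : chB 23 rq23 273 16 = true := by decide +kernel
def k23_289 : chB 23 rq23 289 32 = true := by decide +kernel
def k23_321 : chB 23 rq23 321 8 = true := by decide +kernel
def k23_329 : chB 23 rq23 329 8 = true := by decide +kernel
def k23_337 : chB 23 rq23 337 16 = true := by decide +kernel

end Pool.Agent.T2H13.B7
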