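import Pool.Agent.T2H13.B7.Msk

set_option autoImplicit false
set_option maxRecDepth 100000
set_option maxHeartbeats 4000000

namespace Pool.Agent.T2H13.B7

def k28_258 : chB 28 rq28 258 766 = true := by decide +kernel
def k29_0 : chB 29 rq29 0 1 = true := by decide +kernel
def k29_1 : chB 29 rq29 1 1 = true := by decide +kernel
def k29_2 : chB 29 rq29 2 7 = true := by decide +kernel
def k29_9 : chB 29 rq29 9 56 = true := by decide +kernel
def k29_65 : chB 29 rq29 65 8 = true := by decide +kernel
def k29_73 : chB 29 rq29 73 8 = true := by decide +kernel
def k29_81 : chB 29 rq29 81 112 = true := by decide +kernel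
def k29_193 : chB 29 rq29 193 8 = true := by decide +kernel
def k29_201 : chB 29 rq29 201 56 = true := by decide +kernel
def k29_257 : chB 29 rq29 257 1 = true := by decide +kernel
def k29_258 : chB 29 rq29 258 7 = true := by decide +kernel
def k29_265 : chB 29 rq29 265 56 = true := by decide +kernel
def k29_321 : chB 29 rq29 321 8 = true := by decide +kernel
def k29_329 : chB 29 rq29 329 8 = true := by decide +kernel
def k29_337 : chB 29 rq29 337 176 = true := by decide +kernel

end Pool.Agent.T2H13.B7
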