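import Pool.Agent.T2H13.B7.Msk

set_option autoImplicit false
set_option maxRecDepth 100000
set_option maxHeartbeats 4000000

namespace Pool.Agent.T2H13.B7

def k55_5 : chB 55 rq55 5 1 = true := by decide +kernel
def k55_6 : chB 55 rq55 6 3 = true := by decide +kernel
def k55_9 : chB 55 rq55 9 1 = true := by decide +kernel
def k55_10 : chB 55 rq55 10 3 = true := by decide +kernel
def k55_13 : chB 55 rq55 13 4 = true := by decide +kernel
def k55_17 : chB 55 rq55 17 1 = true := by decide +kernel
def k55_18 : chB 55 rq55 18 1 = true := by decide +kernel
def k55_19 : chB 55 rq55 19 2 = true := by decide +kernel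
def k55_21 : chB 55 rq55 21 4 = true := by decide +kernel
def k55_25 : chB 55 rq55 25 24 = true := by decide +kernel
def k55_49 : chB 55 rq55 49 24 = true := by decide +kernel
def k55_73 : chB 55 rq55 73 1 = true := by decide +kernel
def k55_74 : chB 55 rq55 74 3 = true := by decide +kernel
def k55_77 : chB 55 rq55 77 4 = true := by decide +kernel
def k55_81 : chB 55 rq55 81 1 = true := by decide +kernel
def k55_82 : chB 55 rq55 82 1 = true := by decide +kernel

end Pool.Agent.T2H13.B7
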