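import Pool.Agent.T2H13.B7.Msk

set_option autoImplicit false
set_option maxRecDepth 100000
set_option maxHeartbeats 4000000

namespace Pool.Agent.T2H13.B7

def k55_433 : chB 55 rq55 433 80 = true := by decide +kernel
def k55_513 : chB 55 rq55 513 1 = true := by decide +kernel
def k55_514 : chB 55 rq55 514 2 = true := by decide +kernel
def k55_516 : chB 55 rq55 516 1 = true := by decide +kernel
def k55_517 : chB 55 rq55 517 1 = true := by decide +kernel
def k55_518 : chB 55 rq55 518 3 = true := by decide +kernel
def k55_521 : chB 55 rq55 521 4 = true := by decide +kernel
def k55_525 : chB 55 rq55 525 4 = true := by decide +kernel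
def k55_529 : chB 55 rq55 529 1 = true := by decide +kernel
def k55_530 : chB 55 rq55 530 1 = true := by decide +kernel
def k55_531 : chB 55 rq55 531 2 = true := by decide +kernel
def k55_533 : chB 55 rq55 533 4 = true := by decide +kernel
def k55_537 : chB 55 rq55 537 24 = true := by decide +kernel
def k55_561 : chB 55 rq55 561 24 = true := by decide +kernel
def k55_585 : chB 55 rq55 585 4 = true := by decide +kernel
def k55_589 : chB 55 rq55 589 4 = true := by decide +kernel

end Pool.Agent.T2H13.B7
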