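import Pool.Agent.T2H13.B7.Msk

set_option autoImplicit false
set_option maxRecDepth 100000
set_option maxHeartbeats 4000000

namespace Pool.Agent.T2H13.B7

def k58_9 : chB 58 rq58 9 2 = true := by decide +kernel
def k58_11 : chB 58 rq58 11 2 = true := by decide +kernel
def k58_13 : chB 58 rq58 13 4 = true := by decide +kernel
def k58_17 : chB 58 rq58 17 2 = true := by decide +kernel
def k58_19 : chB 58 rq58 19 14 = true := by decide +kernel
def k58_33 : chB 58 rq58 33 1 = true := by decide +kernel
def k58_34 : chB 58 rq58 34 1 = true := by decide +kernel
def k58_35 : chB 58 rq58 35 46 = true := by decide +kernel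
def k58_81 : chB 58 rq58 81 16 = true := by decide +kernel
def k58_97 : chB 58 rq58 97 40 = true := by decide +kernel
def k58_137 : chB 58 rq58 137 2 = true := by decide +kernel
def k58_139 : chB 58 rq58 139 22 = true := by decide +kernel
def k58_161 : chB 58 rq58 161 2 = true := by decide +kernel
def k58_163 : chB 58 rq58 163 126 = true := by decide +kernel
def k58_289 : chB 58 rq58 289 1 = true := by decide +kernel
def k58_290 : chB 58 rq58 290 223 = true := by decide +kernel

end Pool.Agent.T2H13.B7
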