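import Pool.Agent.T2H13.B7.Msk

set_option autoImplicit false
set_option maxRecDepth 100000
set_option maxHeartbeats 4000000

namespace Pool.Agent.T2H13.B7

def k59_361 : chB 59 rq59 361 8 = true := by decide +kernel
def k59_369 : chB 59 rq59 369 56 = true := by decide +kernel
def k59_425 : chB 59 rq59 425 88 = true := by decide +kernel
def k59_513 : chB 59 rq59 513 1 = true := by decide +kernel
def k59_514 : chB 59 rq59 514 1 = true := by decide +kernel
def k59_515 : chB 59 rq59 515 4 = true := by decide +kernel
def k59_519 : chB 59 rq59 519 2 = true := by decide +kernel
def k59_521 : chB 59 rq59 521 2 = true := by decide +kernel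
def k59_523 : chB 59 rq59 523 2 = true := by decide +kernel
def k59_525 : chB 59 rq59 525 4 = true := by decide +kernel
def k59_529 : chB 59 rq59 529 2 = true := by decide +kernel
def k59_531 : chB 59 rq59 531 14 = true := by decide +kernel
def k59_545 : chB 59 rq59 545 1 = true := by decide +kernel
def k59_546 : chB 59 rq59 546 1 = true := by decide +kernel
def k59_547 : chB 59 rq59 547 6 = true := by decide +kernel
def k59_553 : chB 59 rq59 553 32 = true := by decide +kernel

end Pool.Agent.T2H13.B7
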