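import Pool.Agent.T2H13.B7.Msk

set_option autoImplicit false
set_option maxRecDepth 100000
set_option maxHeartbeats 4000000

namespace Pool.Agent.T2H13.B7

def k62_83 : chB 62 rq62 83 46 = true := by decide +kernel
def k62_129 : chB 62 rq62 129 1 = true := by decide +kernel
def k62_130 : chB 62 rq62 130 1 = true := by decide +kernel
def k62_131 : chB 62 rq62 131 1 = true := by decide +kernel
def k62_132 : chB 62 rq62 132 1 = true := by decide +kernel
def k62_133 : chB 62 rq62 133 2 = true := by decide +kernel
def k62_135 : chB 62 rq62 135 2 = true := by decide +kernel
def k62_137 : chB 62 rq62 137 4 = true := by decide +kernel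
def k62_141 : chB 62 rq62 141 4 = true := by decide +kernel
def k62_145 : chB 62 rq62 145 2 = true := by decide +kernel
def k62_147 : chB 62 rq62 147 14 = true := by decide +kernel
def k62_161 : chB 62 rq62 161 1 = true := by decide +kernel
def k62_162 : chB 62 rq62 162 31 = true := by decide +kernel
def k62_193 : chB 62 rq62 193 4 = true := by decide +kernel
def k62_197 : chB 62 rq62 197 4 = true := by decide +kernel
def k62_201 : chB 62 rq62 201 4 = true := by decide +kernel

end Pool.Agent.T2H13.B7
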