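import Pool.Agent.T2H13.B7.Msk

set_option autoImplicit false
set_option maxRecDepth 100000
set_option maxHeartbeats 4000000

namespace Pool.Agent.T2H13.B7

def k62_521 : chB 62 rq62 521 4 = true := by decide +kernel
def k62_525 : chB 62 rq62 525 4 = true := by decide +kernel
def k62_529 : chB 62 rq62 529 2 = true := by decide +kernel
def k62_531 : chB 62 rq62 531 46 = true := by decide +kernel
def k62_577 : chB 62 rq62 577 1 = true := by decide +kernel
def k62_578 : chB 62 rq62 578 3 = true := by decide +kernel
def k62_581 : chB 62 rq62 581 1 = true := by decide +kernel
def k62_582 : chB 62 rq62 582 7 = true := by decide +kernel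
def k62_589 : chB 62 rq62 589 4 = true := by decide +kernel
def k62_593 : chB 62 rq62 593 2 = true := by decide +kernel
def k62_595 : chB 62 rq62 595 46 = true := by decide +kernel
def k62_641 : chB 62 rq62 641 1 = true := by decide +kernel
def k62_642 : chB 62 rq62 642 1 = true := by decide +kernel
def k62_643 : chB 62 rq62 643 2 = true := by decide +kernel
def k62_645 : chB 62 rq62 645 2 = true := by decide +kernel
def k62_647 : chB 62 rq62 647 2 = true := by decide +kernel

end Pool.Agent.T2H13.B7
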