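import Pool.Agent.T2H13.B7.Msk

set_option autoImplicit false
set_option maxRecDepth 100000
set_option maxHeartbeats 4000000

namespace Pool.Agent.T2H13.B7

def k183_162 : chB 183 rq183 162 2 = true := by decide +kernel
def k183_164 : chB 183 rq183 164 1 = true := by decide +kernel
def k183_165 : chB 183 rq183 165 1 = true := by decide +kernel
def k183_166 : chB 183 rq183 166 7 = true := by decide +kernel
def k183_173 : chB 183 rq183 173 851 = true := by decide +kernel
def k184_0 : chB 184 rq184 0 1 = true := by decide +kernel
def k184_1 : chB 184 rq184 1 1 = true := by decide +kernel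
def k184_2 : chB 184 rq184 2 3 = true := by decide +kernel
def k184_5 : chB 184 rq184 5 8 = true := by decide +kernel
def k184_13 : chB 184 rq184 13 8 = true := by decide +kernel
def k184_21 : chB 184 rq184 21 44 = true := by decide +kernel
def k184_65 : chB 184 rq184 65 4 = true := by decide +kernel
def k184_69 : chB 184 rq184 69 955 = true := by decide +kernel
def k185_0 : chB 185 rq185 0 1 = true := by decide +kernel
def k185_1 : chB 185 rq185 1 1 = true := by decide +kernel
def k185_2 : chB 185 rq185 2 3 = true := by decide +kernel

end Pool.Agent.T2H13.B7
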