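import Pool.Agent.T2H13.B7.Msk

set_option autoImplicit false
set_option maxRecDepth 100000
set_option maxHeartbeats 4000000

namespace Pool.Agent.T2H13.B7

def k185_593 : chB 185 rq185 593 4 = true := by decide +kernel
def k185_597 : chB 185 rq185 597 44 = true := by decide +kernel
def k185_641 : chB 185 rq185 641 32 = true := by decide +kernel
def k185_673 : chB 185 rq185 673 351 = true := by decide +kernel
def k187_0 : chB 187 rq187 0 1 = true := by decide +kernel
def k187_1 : chB 187 rq187 1 1 = true := by decide +kernel
def k187_2 : chB 187 rq187 2 1 = true := by decide +kernel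
def k187_3 : chB 187 rq187 3 1 = true := by decide +kernel
def k187_4 : chB 187 rq187 4 1 = true := by decide +kernel
def k187_5 : chB 187 rq187 5 1 = true := by decide +kernel
def k187_6 : chB 187 rq187 6 1 = true := by decide +kernel
def k187_7 : chB 187 rq187 7 4 = true := by decide +kernel
def k187_11 : chB 187 rq187 11 1 = true := by decide +kernel
def k187_12 : chB 187 rq187 12 1 = true := by decide +kernel
def k187_13 : chB 187 rq187 13 1 = true := by decide +kernel
def k187_14 : chB 187 rq187 14 1 = true := by decide +kernel

end Pool.Agent.T2H13.B7
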