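import Pool.Agent.T2H13.B7.Msk

set_option autoImplicit false
set_option maxRecDepth 100000
set_option maxHeartbeats 4000000

namespace Pool.Agent.T2H13.B7

def k187_173 : chB 187 rq187 173 20 = true := by decide +kernel
def k187_193 : chB 187 rq187 193 2 = true := by decide +kernel
def k187_195 : chB 187 rq187 195 2 = true := by decide +kernel
def k187_197 : chB 187 rq187 197 6 = true := by decide +kernel
def k187_203 : chB 187 rq187 203 2 = true := by decide +kernel
def k187_205 : chB 187 rq187 205 8 = true := by decide +kernel
def k187_213 : chB 187 rq187 213 12 = true := by decide +kernel
def k187_225 : chB 187 rq187 225 2 = true := by decide +kernel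
def k187_227 : chB 187 rq187 227 2 = true := by decide +kernel
def k187_229 : chB 187 rq187 229 28 = true := by decide +kernel
def k187_257 : chB 187 rq187 257 1 = true := by decide +kernel
def k187_258 : chB 187 rq187 258 1 = true := by decide +kernel
def k187_259 : chB 187 rq187 259 2 = true := by decide +kernel
def k187_261 : chB 187 rq187 261 1 = true := by decide +kernel
def k187_262 : chB 187 rq187 262 3 = true := by decide +kernel
def k187_265 : chB 187 rq187 265 1 = true := by decide +kernel

end Pool.Agent.T2H13.B7
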