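import Pool.Agent.T2H13.B7.Msk

set_option autoImplicit false
set_option maxRecDepth 100000
set_option maxHeartbeats 4000000

namespace Pool.Agent.T2H13.B7

def k187_418 : chB 187 rq187 418 1 = true := by decide +kernel
def k187_419 : chB 187 rq187 419 6 = true := by decide +kernel
def k187_425 : chB 187 rq187 425 8 = true := by decide +kernel
def k187_433 : chB 187 rq187 433 336 = true := by decide +kernel
def k187_769 : chB 187 rq187 769 1 = true := by decide +kernel
def k187_770 : chB 187 rq187 770 1 = true := by decide +kernel
def k187_771 : chB 187 rq187 771 2 = true := by decide +kernel
def k187_773 : chB 187 rq187 773 1 = true := by decide +kernel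
def k187_774 : chB 187 rq187 774 7 = true := by decide +kernel
def k187_781 : chB 187 rq187 781 8 = true := by decide +kernel
def k187_789 : chB 187 rq187 789 2 = true := by decide +kernel
def k187_791 : chB 187 rq187 791 10 = true := by decide +kernel
def k187_801 : chB 187 rq187 801 1 = true := by decide +kernel
def k187_802 : chB 187 rq187 802 1 = true := by decide +kernel
def k187_803 : chB 187 rq187 803 2 = true := by decide +kernel
def k187_805 : chB 187 rq187 805 28 = true := by decide +kernel

end Pool.Agent.T2H13.B7
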