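import Pool.Agent.T2H13.B7.Msk

set_option autoImplicit false
set_option maxRecDepth 100000
set_option maxHeartbeats 4000000

namespace Pool.Agent.T2H13.B7

def k221_521 : chB 221 rq221 521 1 = true := by decide +kernel
def k221_522 : chB 221 rq221 522 1 = true := by decide +kernel
def k221_523 : chB 221 rq221 523 2 = true := by decide +kernel
def k221_525 : chB 221 rq221 525 1 = true := by decide +kernel
def k221_526 : chB 221 rq221 526 3 = true := by decide +kernel
def k221_529 : chB 221 rq221 529 1 = true := by decide +kernel
def k221_530 : chB 221 rq221 530 1 = true := by decide +kernel
def k221_531 : chB 221 rq221 531 1 = true := by decide +kernel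
def k221_532 : chB 221 rq221 532 1 = true := by decide +kernel
def k221_533 : chB 221 rq221 533 4 = true := by decide +kernel
def k221_537 : chB 221 rq221 537 8 = true := by decide +kernel
def k221_545 : chB 221 rq221 545 1 = true := by decide +kernel
def k221_546 : chB 221 rq221 546 1 = true := by decide +kernel
def k221_547 : chB 221 rq221 547 2 = true := by decide +kernel
def k221_549 : chB 221 rq221 549 4 = true := by decide +kernel
def k221_553 : chB 221 rq221 553 8 = true := by decide +kernel

end Pool.Agent.T2H13.B7
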