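import Pool.Agent.T2H13.B7.Msk

set_option autoImplicit false
set_option maxRecDepth 100000
set_option maxHeartbeats 4000000

namespace Pool.Agent.T2H13.B7

def k221_659 : chB 221 rq221 659 3 = true := by decide +kernel
def k221_662 : chB 221 rq221 662 1 = true := by decide +kernel
def k221_663 : chB 221 rq221 663 2 = true := by decide +kernel
def k221_665 : chB 221 rq221 665 8 = true := by decide +kernel
def k221_673 : chB 221 rq221 673 1 = true := by decide +kernel
def k221_674 : chB 221 rq221 674 2 = true := by decide +kernel
def k221_676 : chB 221 rq221 676 1 = true := by decide +kernel
def k221_677 : chB 221 rq221 677 1 = true := by decide +kernel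
def k221_678 : chB 221 rq221 678 3 = true := by decide +kernel
def k221_681 : chB 221 rq221 681 4 = true := by decide +kernel
def k221_685 : chB 221 rq221 685 40 = true := by decide +kernel
def k221_725 : chB 221 rq221 725 60 = true := by decide +kernel
def k221_785 : chB 221 rq221 785 1 = true := by decide +kernel
def k221_786 : chB 221 rq221 786 2 = true := by decide +kernel
def k221_788 : chB 221 rq221 788 1 = true := by decide +kernel
def k221_789 : chB 221 rq221 789 1 = true := by decide +kernel

end Pool.Agent.T2H13.B7
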