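import Pool.Agent.T2H13.B7.Msk

set_option autoImplicit false
set_option maxRecDepth 100000
set_option maxHeartbeats 4000000

namespace Pool.Agent.T2H13.B7

def k254_18 : chB 254 rq254 18 1 = true := by decide +kernel
def k254_19 : chB 254 rq254 19 1 = true := by decide +kernel
def k254_20 : chB 254 rq254 20 1 = true := by decide +kernel
def k254_21 : chB 254 rq254 21 1 = true := by decide +kernel
def k254_22 : chB 254 rq254 22 1 = true := by decide +kernel
def k254_23 : chB 254 rq254 23 1 = true := by decide +kernel
def k254_24 : chB 254 rq254 24 1 = true := by decide +kernel
def k254_25 : chB 254 rq254 25 2 = true := by decide +kernel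
def k254_27 : chB 254 rq254 27 2 = true := by decide +kernel
def k254_29 : chB 254 rq254 29 2 = true := by decide +kernel
def k254_31 : chB 254 rq254 31 18 = true := by decide +kernel
def k254_49 : chB 254 rq254 49 1 = true := by decide +kernel
def k254_50 : chB 254 rq254 50 2 = true := by decide +kernel
def k254_52 : chB 254 rq254 52 5 = true := by decide +kernel
def k254_57 : chB 254 rq254 57 16 = true := by decide +kernel
def k254_73 : chB 254 rq254 73 1 = true := by decide +kernel

end Pool.Agent.T2H13.B7
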