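import Pool.Agent.T2H13.B7.Msk

set_option autoImplicit false
set_option maxRecDepth 100000
set_option maxHeartbeats 4000000

namespace Pool.Agent.T2H13.B7

def k254_95 : chB 254 rq254 95 18 = true := by decide +kernel
def k254_113 : chB 254 rq254 113 1 = true := by decide +kernel
def k254_114 : chB 254 rq254 114 2 = true := by decide +kernel
def k254_116 : chB 254 rq254 116 5 = true := by decide +kernel
def k254_121 : chB 254 rq254 121 24 = true := by decide +kernel
def k254_145 : chB 254 rq254 145 1 = true := by decide +kernel
def k254_146 : chB 254 rq254 146 1 = true := by decide +kernel
def k254_147 : chB 254 rq254 147 1 = true := by decide +kernel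
def k254_148 : chB 254 rq254 148 1 = true := by decide +kernel
def k254_149 : chB 254 rq254 149 1 = true := by decide +kernel
def k254_150 : chB 254 rq254 150 1 = true := by decide +kernel
def k254_151 : chB 254 rq254 151 2 = true := by decide +kernel
def k254_153 : chB 254 rq254 153 2 = true := by decide +kernel
def k254_155 : chB 254 rq254 155 2 = true := by decide +kernel
def k254_157 : chB 254 rq254 157 2 = true := by decide +kernel
def k254_159 : chB 254 rq254 159 2 = true := by decide +kernel

end Pool.Agent.T2H13.B7
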