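import Pool.Agent.T2H13.B7.Msk

set_option autoImplicit false
set_option maxRecDepth 100000
set_option maxHeartbeats 4000000

namespace Pool.Agent.T2H13.B7

def k254_219 : chB 254 rq254 219 2 = true := by decide +kernel
def k254_221 : chB 254 rq254 221 2 = true := by decide +kernel
def k254_223 : chB 254 rq254 223 10 = true := by decide +kernel
def k254_233 : chB 254 rq254 233 4 = true := by decide +kernel
def k254_237 : chB 254 rq254 237 4 = true := by decide +kernel
def k254_241 : chB 254 rq254 241 2 = true := by decide +kernel
def k254_243 : chB 254 rq254 243 6 = true := by decide +kernel
def k254_249 : chB 254 rq254 249 184 = true := by decide +kernel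
def k254_433 : chB 254 rq254 433 1 = true := by decide +kernel
def k254_434 : chB 254 rq254 434 2 = true := by decide +kernel
def k254_436 : chB 254 rq254 436 5 = true := by decide +kernel
def k254_441 : chB 254 rq254 441 64 = true := by decide +kernel
def k254_505 : chB 254 rq254 505 8 = true := by decide +kernel
def k254_513 : chB 254 rq254 513 1 = true := by decide +kernel
def k254_514 : chB 254 rq254 514 2 = true := by decide +kernel
def k254_516 : chB 254 rq254 516 1 = true := by decide +kernel

end Pool.Agent.T2H13.B7
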