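import Pool.Agent.T2H13.B7.Msk

set_option autoImplicit false
set_option maxRecDepth 100000
set_option maxHeartbeats 4000000

namespace Pool.Agent.T2H13.B7

def k254_600 : chB 254 rq254 600 25 = true := by decide +kernel
def k254_625 : chB 254 rq254 625 32 = true := by decide +kernel
def k254_657 : chB 254 rq254 657 2 = true := by decide +kernel
def k254_659 : chB 254 rq254 659 2 = true := by decide +kernel
def k254_661 : chB 254 rq254 661 2 = true := by decide +kernel
def k254_663 : chB 254 rq254 663 8 = true := by decide +kernel
def k254_671 : chB 254 rq254 671 2 = true := by decide +kernel
def k254_673 : chB 254 rq254 673 1 = true := by decide +kernel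
def k254_674 : chB 254 rq254 674 2 = true := by decide +kernel
def k254_676 : chB 254 rq254 676 1 = true := by decide +kernel
def k254_677 : chB 254 rq254 677 1 = true := by decide +kernel
def k254_678 : chB 254 rq254 678 2 = true := by decide +kernel
def k254_680 : chB 254 rq254 680 1 = true := by decide +kernel
def k254_681 : chB 254 rq254 681 1 = true := by decide +kernel
def k254_682 : chB 254 rq254 682 3 = true := by decide +kernel
def k254_685 : chB 254 rq254 685 4 = true := by decide +kernel

end Pool.Agent.T2H13.B7
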