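import Pool.Agent.T2H13.B7.Code
import Pool.Agent.T2H13.B7.Chain
import Pool.Agent.T2H13.B7.C15

/-! The exceptional structures on seven vertices. -/

set_option autoImplicit false
set_option linter.unusedVariables false
set_option maxRecDepth 100000
set_option maxHeartbeats 4000000
open Finset
open Pool.Agent.H122R2.N6 (Sy NoK4 Bt)

namespace Pool.Agent.T2H13.B7

/-- index of a triple, in any order -/
def ix (a b c : ℕ) : ℕ :=
  (max a (max b c)) * (max a (max b c) - 1) * (max a (max b c) - 2) / 6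
    + (a + b + c - max a (max b c) - min a (min b c)) * (a + b + c - max a (max b c) - min a (min b c) - 1) / 2
    + min a (min b c)

/-- the codes of the two patterns -/
def FA : ℕ := 8582586477
def FB : ℕ := 8574189822

/-- is the triple an edge of the pattern -/
def Fs (F : ℕ) (a b c : Fin 7) : ℕ := F / 2 ^ ix a b c % 2

theorem ix_213 : ∀ a b c : Fin 7, ix b a c = ix a b c := by decide +kernel
theorem ix_132 : ∀ a b c : Fin 7, ix a c b = ix a b c := by decide +kernel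
theorem Fs_213 (F : ℕ) (a b c : Fin 7) : Fs F b a c = Fs F a b c := by unfold Fs; rw [ix_213]
theorem Fs_132 (F : ℕ) (a b c : Fin 7) : Fs F a c b = Fs F a b c := by unfold Fs; rw [ix_132]

theorem sym_ext {g h : Fin 7 → Fin 7 → Fin 7 → ℕ} (g1 : ∀ a b c, g b a c = g a b c) (g2 : ∀ a b c, g a c b = g a b c)
    (h1 : ∀ a b c, h b a c = h a b c) (h2 : ∀ a b c, h a c b = h a b c)
    (hs : ∀ a b c, a < b → b < c → g a b c = h a b c) (a b c : Fin 7) (hab : a ≠ b) (hac : a ≠ c) (hbc : b ≠ c) :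
    g a b c = h a b c := by
  have key : ∀ x y z, x < y → y < z → g x y z = h x y z ∧ g y x z = h y x z ∧ g x z y = h x z y ∧
      g y z x = h y z x ∧ g z x y = h z x y ∧ g z y x = h z y x := by
    intro x y z hx hy
    have e := hs x y z hx hy
    refine ⟨e, ?_, ?_, ?_, ?_, ?_⟩
    · rw [g1, h1, e]
    · rw [g2, h2, e]
    · rw [g2 y x z, h2 y x z, g1, h1, e]
    · rw [g1 x z y, h1 x z y, g2, h2, e]
    · rw [g2 z x y, h2 z x y, g1 x z y, h1 x z y, g2, h2, e]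
  rcases lt_or_gt_of_ne hab with p | p <;> rcases lt_or_gt_of_ne hac with q | q <;> rcases lt_or_gt_of_ne hbc with r | r
  · exact (key a b c p r).1
  · exact (key a c b q r).2.2.1
  · exact absurd (p.trans r) (not_lt.mpr q.le)
  · exact (key c a b q p).2.2.2.1
  · exact (key b a c p q).2.1
  · exact absurd (r.trans p) (not_lt.mpr q.le)
  · exact (key b c a r q).2.2.2.2.1
  · exact (key c b a r p).2.2.2.2.2

section
variable {V : Type}

/-- `v` spans a copy of the pattern -/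
def Hit (E : V → V → V → ℕ) (F : ℕ) (v : Fin 7 → V) : Prop :=
  ∀ a b c : Fin 7, a ≠ b → a ≠ c → b ≠ c → E (v a) (v b) (v c) = Fs F a b c

open scoped Classical in
/-- indicator of the exceptional structures -/
noncomputable def Y (E : V → V → V → ℕ) (v : Fin 7 → V) : ℕ :=
  if ∃ σ : Equiv.Perm (Fin 7), Hit E FA (v ∘ σ) ∨ Hit E FB (v ∘ σ) then 1 else 0

open scoped Classical in
theorem Y_perm (E : V → V → V → ℕ) (v : Fin 7 → V) (τ : Equiv.Perm (Fin 7)) : Y E (v ∘ τ) = Y E v := by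
  have h : (∃ σ : Equiv.Perm (Fin 7), Hit E FA ((v ∘ τ) ∘ σ) ∨ Hit E FB ((v ∘ τ) ∘ σ)) ↔
      ∃ σ : Equiv.Perm (Fin 7), Hit E FA (v ∘ σ) ∨ Hit E FB (v ∘ σ) := by
    constructor
    · rintro ⟨σ, h⟩
      exact ⟨σ.trans τ, h⟩
    · rintro ⟨σ, h⟩
      refine ⟨σ.trans τ.symm, ?_⟩
      have e : (v ∘ τ) ∘ (σ.trans τ.symm) = v ∘ σ := by
        funext x
        simp
      rwa [e]
  unfold Y
  exact if_congr h rfl rfl

theorem vec_eta (x : Fin 7 → V) : ![x 0, x 1, x 2, x 3, x 4, x 5, x 6] = x := by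
  funext i
  fin_cases i <;> rfl

theorem Y_s0 (E : V → V → V → ℕ) (a b c d e f z : V) : Y E ![b, a, c, d, e, f, z] = Y E ![a, b, c, d, e, f, z] := by
  have h : (![b, a, c, d, e, f, z] : Fin 7 → V) = ![a, b, c, d, e, f, z] ∘ (Equiv.swap (0 : Fin 7) 1) := by
    funext i
    fin_cases i <;> rfl
  rw [h, Y_perm]

theorem Y_s1 (E : V → V → V → ℕ) (a b c d e f z : V) : Y E ![a, c, b, d, e, f, z] = Y E ![a, b, c, d, e, f, z] := by
  have h : (![a, c, b, d, e, f, z] : Fin 7 → V) = ![a, b, c, d, e, f, z] ∘ (Equiv.swap (1 : Fin 7) 2) := by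
    funext i
    fin_cases i <;> rfl
  rw [h, Y_perm]

theorem Y_s2 (E : V → V → V → ℕ) (a b c d e f z : V) : Y E ![a, b, d, c, e, f, z] = Y E ![a, b, c, d, e, f, z] := by
  have h : (![a, b, d, c, e, f, z] : Fin 7 → V) = ![a, b, c, d, e, f, z] ∘ (Equiv.swap (2 : Fin 7) 3) := by
    funext i
    fin_cases i <;> rfl
  rw [h, Y_perm]

theorem Y_s3 (E : V → V → V → ℕ) (a b c d e f z : V) : Y E ![a, b, c, e, d, f, z] = Y E ![a, b, c, d, e, f, z] := by
  have h : (![a, b, c, e, d, f, z] : Fin 7 → V) = ![a, b, c, d, e, f, z] ∘ (Equiv.swap (3 : Fin 7) 4) := by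
    funext i
    fin_cases i <;> rfl
  rw [h, Y_perm]

theorem Y_s4 (E : V → V → V → ℕ) (a b c d e f z : V) : Y E ![a, b, c, d, f, e, z] = Y E ![a, b, c, d, e, f, z] := by
  have h : (![a, b, c, d, f, e, z] : Fin 7 → V) = ![a, b, c, d, e, f, z] ∘ (Equiv.swap (4 : Fin 7) 5) := by
    funext i
    fin_cases i <;> rfl
  rw [h, Y_perm]

/-- position of a pair in the code of the seventh vertex -/
def lpT : ℕ := 1022898165782461080

/-- the triples in terms of the codes -/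
def bE (code l x y z : ℕ) : ℕ :=
  if z < 6 then code / 2 ^ ix x y z % 2 else l / 2 ^ (lpT / 16 ^ (y * (y - 1) / 2 + x) % 16) % 2

/-- the entry describes an isomorphism -/
def Good (code : ℕ) (e : ℕ × ℕ × ℕ) : Prop :=
  (e.2.1 = FA ∨ e.2.1 = FB) ∧ e.1 < 2 ^ 15 ∧ (∀ x : Fin 7, e.2.2 / 8 ^ (x : ℕ) % 8 < 7) ∧
    (∀ x y : Fin 7, e.2.2 / 8 ^ (x : ℕ) % 8 = e.2.2 / 8 ^ (y : ℕ) % 8 → x = y) ∧
    ∀ x y z : Fin 7, x < y → y < z →
      bE code e.1 x y z = e.2.1 / 2 ^ ix (e.2.2 / 8 ^ (x : ℕ) % 8) (e.2.2 / 8 ^ (y : ℕ) % 8) (e.2.2 / 8 ^ (z : ℕ) % 8) % 2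

instance (code : ℕ) (e : ℕ × ℕ × ℕ) : Decidable (Good code e) := by unfold Good; infer_instance

def Pr (code : ℕ) (T : List (ℕ × ℕ × ℕ)) : Prop := (T.map Prod.fst).Nodup ∧ ∀ e ∈ T, Good code e

instance (code : ℕ) (T : List (ℕ × ℕ × ℕ)) : Decidable (Pr code T) := by unfold Pr; infer_instance

theorem Pr_cnd {code c0 : ℕ} {T S : List (ℕ × ℕ × ℕ)} (hT : Pr c0 T) (hS : Pr code S) :
    Pr code (cnd (Nat.beq code c0) T S) := by
  cases h : Nat.beq code c0 with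
  | true =>
    rw [Nat.eq_of_beq_eq_true h]
    exact hT
  | false => exact hS

theorem tab_Pr (m f : ℕ) : Pr (m + 1024 * f) (tab m f) := by
  unfold tab
  show Pr (m + 1024 * f) (cnd (Nat.beq (m + 1024 * f) _) _ _)
  refine Pr_cnd (by decide +kernel) ?_
  refine Pr_cnd (by decide +kernel) ?_
  refine Pr_cnd (by decide +kernel) ?_
  refine Pr_cnd (by decide +kernel) ?_
  refine Pr_cnd (by decide +kernel) ?_
  refine Pr_cnd (by decide +kernel) ?_
  refine Pr_cnd (by decide +kernel) ?_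
  refine Pr_cnd (by decide +kernel) ?_
  exact ⟨List.nodup_nil, fun e he => absurd he (List.not_mem_nil)⟩

theorem tab_nodup (m f : ℕ) : ((tab m f).map Prod.fst).Nodup := (tab_Pr m f).1

theorem tab_lt (m f : ℕ) : ∀ e ∈ tab m f, e.1 < 2 ^ 15 := fun e he => ((tab_Pr m f).2 e he).2.1

theorem lowb {m f k : ℕ} (hm : m < 1024) (hk : k < 10) : (m + 1024 * f) / 2 ^ k % 2 = m / 2 ^ k % 2 := by
  have h1 : 1024 * f = 2 ^ k * (2 * (2 ^ (9 - k) * f)) := by
    have : (2 : ℕ) ^ k * (2 * (2 ^ (9 - k))) = 1024 := by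
      rw [← pow_succ', ← pow_add]
      norm_num [show k + (9 - k + 1) = 10 by omega]
    calc 1024 * f = (2 ^ k * (2 * (2 ^ (9 - k)))) * f := by rw [this]
      _ = _ := by ring
  rw [h1, Nat.add_mul_div_left _ _ (by positivity), Nat.add_mul_mod_self_left]

theorem highb {m f k : ℕ} (hm : m < 1024) : (m + 1024 * f) / 2 ^ (10 + k) % 2 = f / 2 ^ k % 2 := by
  rw [pow_add, ← Nat.div_div_eq_div_mul]
  congr 2
  norm_num
  omega

variable {E : V → V → V → ℕ}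

theorem bE_E (hE : Sy E) (a b c d e f z : V) : ∀ x y w : Fin 7, x < y → y < w →
    E (![a, b, c, d, e, f, z] x) (![a, b, c, d, e, f, z] y) (![a, b, c, d, e, f, z] w) =
      bE (c10 (E a b c) (E a b d) (E a c d) (E b c d) (E a b e) (E a c e) (E b c e) (E a d e) (E b d e) (E c d e) + 1024 * c10 (E a b f) (E a c f) (E b c f) (E a d f) (E b d f) (E c d f) (E a e f) (E b e f) (E c e f) (E d e f)) (c15 (E a f z) (E b f z) (E c f z) (E d f z) (E a e z) (E b e z) (E c e z) (E d e z) (E a b z) (E a c z) (E b c z) (E a d z) (E b d z) (E c d z) (E e f z)) x y w := by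
  have hm : c10 (E a b c) (E a b d) (E a c d) (E b c d) (E a b e) (E a c e) (E b c e) (E a d e) (E b d e) (E c d e) < 1024 := c10_lt (hE.b _ _ _) (hE.b _ _ _) (hE.b _ _ _) (hE.b _ _ _) (hE.b _ _ _) (hE.b _ _ _) (hE.b _ _ _) (hE.b _ _ _) (hE.b _ _ _) (hE.b _ _ _)
  have t012 : E a b c = bE (c10 (E a b c) (E a b d) (E a c d) (E b c d) (E a b e) (E a c e) (E b c e) (E a d e) (E b d e) (E c d e) + 1024 * c10 (E a b f) (E a c f) (E b c f) (E a d f) (E b d f) (E c d f) (E a e f) (E b e f) (E c e f) (E d e f)) (c15 (E a f z) (E b f z) (E c f z) (E d f z) (E a e z) (E b e z) (E c e z) (E d e z) (E a b z) (E a c z) (E b c z) (E a d z) (E b d z) (E c d z) (E e f z)) 0 1 2 :=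
    ((bt_c10_0 (hE.b _ _ _) (hE.b _ _ _) (hE.b _ _ _) (hE.b _ _ _) (hE.b _ _ _) (hE.b _ _ _) (hE.b _ _ _) (hE.b _ _ _) (hE.b _ _ _) (hE.b _ _ _)).symm.trans (bt_eq _ _)).trans (lowb (k := 0) hm (by norm_num)).symm
  have t013 : E a b d = bE (c10 (E a b c) (E a b d) (E a c d) (E b c d) (E a b e) (E a c e) (E b c e) (E a d e) (E b d e) (E c d e) + 1024 * c10 (E a b f) (E a c f) (E b c f) (E a d f) (E b d f) (E c d f) (E a e f) (E b e f) (E c e f) (E d e f)) (c15 (E a f z) (E b f z) (E c f z) (E d f z) (E a e z) (E b e z) (E c e z) (E d e z) (E a b z) (E a c z) (E b c z) (E a d z) (E b d z) (E c d z) (E e f z)) 0 1 3 :=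
    ((bt_c10_1 (hE.b _ _ _) (hE.b _ _ _) (hE.b _ _ _) (hE.b _ _ _) (hE.b _ _ _) (hE.b _ _ _) (hE.b _ _ _) (hE.b _ _ _) (hE.b _ _ _) (hE.b _ _ _)).symm.trans (bt_eq _ _)).trans (lowb (k := 1) hm (by norm_num)).symm
  have t023 : E a c d = bE (c10 (E a b c) (E a b d) (E a c d) (E b c d) (E a b e) (E a c e) (E b c e) (E a d e) (E b d e) (E c d e) + 1024 * c10 (E a b f) (E a c f) (E b c f) (E a d f) (E b d f) (E c d f) (E a e f) (E b e f) (E c e f) (E d e f)) (c15 (E a f z) (E b f z) (E c f z) (E d f z) (E a e z) (E b e z) (E c e z) (E d e z) (E a b z) (E a c z) (E b c z) (E a d z) (E b d z) (E c d z) (E e f z)) 0 2 3 :=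
    ((bt_c10_2 (hE.b _ _ _) (hE.b _ _ _) (hE.b _ _ _) (hE.b _ _ _) (hE.b _ _ _) (hE.b _ _ _) (hE.b _ _ _) (hE.b _ _ _) (hE.b _ _ _) (hE.b _ _ _)).symm.trans (bt_eq _ _)).trans (lowb (k := 2) hm (by norm_num)).symm
  have t123 : E b c d = bE (c10 (E a b c) (E a b d) (E a c d) (E b c d) (E a b e) (E a c e) (E b c e) (E a d e) (E b d e) (E c d e) + 1024 * c10 (E a b f) (E a c f) (E b c f) (E a d f) (E b d f) (E c d f) (E a e f) (E b e f) (E c e f) (E d e f)) (c15 (E a f z) (E b f z) (E c f z) (E d f z) (E a e z) (E b e z) (E c e z) (E d e z) (E a b z) (E a c z) (E b c z) (E a d z) (E b d z) (E c d z) (E e f z)) 1 2 3 :=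
    ((bt_c10_3 (hE.b _ _ _) (hE.b _ _ _) (hE.b _ _ _) (hE.b _ _ _) (hE.b _ _ _) (hE.b _ _ _) (hE.b _ _ _) (hE.b _ _ _) (hE.b _ _ _) (hE.b _ _ _)).symm.trans (bt_eq _ _)).trans (lowb (k := 3) hm (by norm_num)).symm
  have t014 : E a b e = bE (c10 (E a b c) (E a b d) (E a c d) (E b c d) (E a b e) (E a c e) (E b c e) (E a d e) (E b d e) (E c d e) + 1024 * c10 (E a b f) (E a c f) (E b c f) (E a d f) (E b d f) (E c d f) (E a e f) (E b e f) (E c e f) (E d e f)) (c15 (E a f z) (E b f z) (E c f z) (E d f z) (E a e z) (E b e z) (E c e z) (E d e z) (E a b z) (E a c z) (E b c z) (E a d z) (E b d z) (E c d z) (E e f z)) 0 1 4 :=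
    ((bt_c10_4 (hE.b _ _ _) (hE.b _ _ _) (hE.b _ _ _) (hE.b _ _ _) (hE.b _ _ _) (hE.b _ _ _) (hE.b _ _ _) (hE.b _ _ _) (hE.b _ _ _) (hE.b _ _ _)).symm.trans (bt_eq _ _)).trans (lowb (k := 4) hm (by norm_num)).symm
  have t024 : E a c e = bE (c10 (E a b c) (E a b d) (E a c d) (E b c d) (E a b e) (E a c e) (E b c e) (E a d e) (E b d e) (E c d e) + 1024 * c10 (E a b f) (E a c f) (E b c f) (E a d f) (E b d f) (E c d f) (E a e f) (E b e f) (E c e f) (E d e f)) (c15 (E a f z) (E b f z) (E c f z) (E d f z) (E a e z) (E b e z) (E c e z) (E d e z) (E a b z) (E a c z) (E b c z) (E a d z) (E b d z) (E c d z) (E e f z)) 0 2 4 :=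
    ((bt_c10_5 (hE.b _ _ _) (hE.b _ _ _) (hE.b _ _ _) (hE.b _ _ _) (hE.b _ _ _) (hE.b _ _ _) (hE.b _ _ _) (hE.b _ _ _) (hE.b _ _ _) (hE.b _ _ _)).symm.trans (bt_eq _ _)).trans (lowb (k := 5) hm (by norm_num)).symm
  have t124 : E b c e = bE (c10 (E a b c) (E a b d) (E a c d) (E b c d) (E a b e) (E a c e) (E b c e) (E a d e) (E b d e) (E c d e) + 1024 * c10 (E a b f) (E a c f) (E b c f) (E a d f) (E b d f) (E c d f) (E a e f) (E b e f) (E c e f) (E d e f)) (c15 (E a f z) (E b f z) (E c f z) (E d f z) (E a e z) (E b e z) (E c e z) (E d e z) (E a b z) (E a c z) (E b c z) (E a d z) (E b d z) (E c d z) (E e f z)) 1 2 4 :=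
    ((bt_c10_6 (hE.b _ _ _) (hE.b _ _ _) (hE.b _ _ _) (hE.b _ _ _) (hE.b _ _ _) (hE.b _ _ _) (hE.b _ _ _) (hE.b _ _ _) (hE.b _ _ _) (hE.b _ _ _)).symm.trans (bt_eq _ _)).trans (lowb (k := 6) hm (by norm_num)).symm
  have t034 : E a d e = bE (c10 (E a b c) (E a b d) (E a c d) (E b c d) (E a b e) (E a c e) (E b c e) (E a d e) (E b d e) (E c d e) + 1024 * c10 (E a b f) (E a c f) (E b c f) (E a d f) (E b d f) (E c d f) (E a e f) (E b e f) (E c e f) (E d e f)) (c15 (E a f z) (E b f z) (E c f z) (E d f z) (E a e z) (E b e z) (E c e z) (E d e z) (E a b z) (E a c z) (E b c z) (E a d z) (E b d z) (E c d z) (E e f z)) 0 3 4 :=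
    ((bt_c10_7 (hE.b _ _ _) (hE.b _ _ _) (hE.b _ _ _) (hE.b _ _ _) (hE.b _ _ _) (hE.b _ _ _) (hE.b _ _ _) (hE.b _ _ _) (hE.b _ _ _) (hE.b _ _ _)).symm.trans (bt_eq _ _)).trans (lowb (k := 7) hm (by norm_num)).symm
  have t134 : E b d e = bE (c10 (E a b c) (E a b d) (E a c d) (E b c d) (E a b e) (E a c e) (E b c e) (E a d e) (E b d e) (E c d e) + 1024 * c10 (E a b f) (E a c f) (E b c f) (E a d f) (E b d f) (E c d f) (E a e f) (E b e f) (E c e f) (E d e f)) (c15 (E a f z) (E b f z) (E c f z) (E d f z) (E a e z) (E b e z) (E c e z) (E d e z) (E a b z) (E a c z) (E b c z) (E a d z) (E b d z) (E c d z) (E e f z)) 1 3 4 :=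
    ((bt_c10_8 (hE.b _ _ _) (hE.b _ _ _) (hE.b _ _ _) (hE.b _ _ _) (hE.b _ _ _) (hE.b _ _ _) (hE.b _ _ _) (hE.b _ _ _) (hE.b _ _ _) (hE.b _ _ _)).symm.trans (bt_eq _ _)).trans (lowb (k := 8) hm (by norm_num)).symm
  have t234 : E c d e = bE (c10 (E a b c) (E a b d) (E a c d) (E b c d) (E a b e) (E a c e) (E b c e) (E a d e) (E b d e) (E c d e) + 1024 * c10 (E a b f) (E a c f) (E b c f) (E a d f) (E b d f) (E c d f) (E a e f) (E b e f) (E c e f) (E d e f)) (c15 (E a f z) (E b f z) (E c f z) (E d f z) (E a e z) (E b e z) (E c e z) (E d e z) (E a b z) (E a c z) (E b c z) (E a d z) (E b d z) (E c d z) (E e f z)) 2 3 4 :=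
    ((bt_c10_9 (hE.b _ _ _) (hE.b _ _ _) (hE.b _ _ _) (hE.b _ _ _) (hE.b _ _ _) (hE.b _ _ _) (hE.b _ _ _) (hE.b _ _ _) (hE.b _ _ _) (hE.b _ _ _)).symm.trans (bt_eq _ _)).trans (lowb (k := 9) hm (by norm_num)).symm
  have t015 : E a b f = bE (c10 (E a b c) (E a b d) (E a c d) (E b c d) (E a b e) (E a c e) (E b c e) (E a d e) (E b d e) (E c d e) + 1024 * c10 (E a b f) (E a c f) (E b c f) (E a d f) (E b d f) (E c d f) (E a e f) (E b e f) (E c e f) (E d e f)) (c15 (E a f z) (E b f z) (E c f z) (E d f z) (E a e z) (E b e z) (E c e z) (E d e z) (E a b z) (E a c z) (E b c z) (E a d z) (E b d z) (E c d z) (E e f z)) 0 1 5 :=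
    ((bt_c10_0 (hE.b _ _ _) (hE.b _ _ _) (hE.b _ _ _) (hE.b _ _ _) (hE.b _ _ _) (hE.b _ _ _) (hE.b _ _ _) (hE.b _ _ _) (hE.b _ _ _) (hE.b _ _ _)).symm.trans (bt_eq _ _)).trans (highb (k := 0) hm).symm
  have t025 : E a c f = bE (c10 (E a b c) (E a b d) (E a c d) (E b c d) (E a b e) (E a c e) (E b c e) (E a d e) (E b d e) (E c d e) + 1024 * c10 (E a b f) (E a c f) (E b c f) (E a d f) (E b d f) (E c d f) (E a e f) (E b e f) (E c e f) (E d e f)) (c15 (E a f z) (E b f z) (E c f z) (E d f z) (E a e z) (E b e z) (E c e z) (E d e z) (E a b z) (E a c z) (E b c z) (E a d z) (E b d z) (E c d z) (E e f z)) 0 2 5 :=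
    ((bt_c10_1 (hE.b _ _ _) (hE.b _ _ _) (hE.b _ _ _) (hE.b _ _ _) (hE.b _ _ _) (hE.b _ _ _) (hE.b _ _ _) (hE.b _ _ _) (hE.b _ _ _) (hE.b _ _ _)).symm.trans (bt_eq _ _)).trans (highb (k := 1) hm).symm
  have t125 : E b c f = bE (c10 (E a b c) (E a b d) (E a c d) (E b c d) (E a b e) (E a c e) (E b c e) (E a d e) (E b d e) (E c d e) + 1024 * c10 (E a b f) (E a c f) (E b c f) (E a d f) (E b d f) (E c d f) (E a e f) (E b e f) (E c e f) (E d e f)) (c15 (E a f z) (E b f z) (E c f z) (E d f z) (E a e z) (E b e z) (E c e z) (E d e z) (E a b z) (E a c z) (E b c z) (E a d z) (E b d z) (E c d z) (E e f z)) 1 2 5 :=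
    ((bt_c10_2 (hE.b _ _ _) (hE.b _ _ _) (hE.b _ _ _) (hE.b _ _ _) (hE.b _ _ _) (hE.b _ _ _) (hE.b _ _ _) (hE.b _ _ _) (hE.b _ _ _) (hE.b _ _ _)).symm.trans (bt_eq _ _)).trans (highb (k := 2) hm).symm
  have t035 : E a d f = bE (c10 (E a b c) (E a b d) (E a c d) (E b c d) (E a b e) (E a c e) (E b c e) (E a d e) (E b d e) (E c d e) + 1024 * c10 (E a b f) (E a c f) (E b c f) (E a d f) (E b d f) (E c d f) (E a e f) (E b e f) (E c e f) (E d e f)) (c15 (E a f z) (E b f z) (E c f z) (E d f z) (E a e z) (E b e z) (E c e z) (E d e z) (E a b z) (E a c z) (E b c z) (E a d z) (E b d z) (E c d z) (E e f z)) 0 3 5 :=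
    ((bt_c10_3 (hE.b _ _ _) (hE.b _ _ _) (hE.b _ _ _) (hE.b _ _ _) (hE.b _ _ _) (hE.b _ _ _) (hE.b _ _ _) (hE.b _ _ _) (hE.b _ _ _) (hE.b _ _ _)).symm.trans (bt_eq _ _)).trans (highb (k := 3) hm).symm
  have t135 : E b d f = bE (c10 (E a b c) (E a b d) (E a c d) (E b c d) (E a b e) (E a c e) (E b c e) (E a d e) (E b d e) (E c d e) + 1024 * c10 (E a b f) (E a c f) (E b c f) (E a d f) (E b d f) (E c d f) (E a e f) (E b e f) (E c e f) (E d e f)) (c15 (E a f z) (E b f z) (E c f z) (E d f z) (E a e z) (E b e z) (E c e z) (E d e z) (E a b z) (E a c z) (E b c z) (E a d z) (E b d z) (E c d z) (E e f z)) 1 3 5 :=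
    ((bt_c10_4 (hE.b _ _ _) (hE.b _ _ _) (hE.b _ _ _) (hE.b _ _ _) (hE.b _ _ _) (hE.b _ _ _) (hE.b _ _ _) (hE.b _ _ _) (hE.b _ _ _) (hE.b _ _ _)).symm.trans (bt_eq _ _)).trans (highb (k := 4) hm).symm
  have t235 : E c d f = bE (c10 (E a b c) (E a b d) (E a c d) (E b c d) (E a b e) (E a c e) (E b c e) (E a d e) (E b d e) (E c d e) + 1024 * c10 (E a b f) (E a c f) (E b c f) (E a d f) (E b d f) (E c d f) (E a e f) (E b e f) (E c e f) (E d e f)) (c15 (E a f z) (E b f z) (E c f z) (E d f z) (E a e z) (E b e z) (E c e z) (E d e z) (E a b z) (E a c z) (E b c z) (E a d z) (E b d z) (E c d z) (E e f z)) 2 3 5 :=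
    ((bt_c10_5 (hE.b _ _ _) (hE.b _ _ _) (hE.b _ _ _) (hE.b _ _ _) (hE.b _ _ _) (hE.b _ _ _) (hE.b _ _ _) (hE.b _ _ _) (hE.b _ _ _) (hE.b _ _ _)).symm.trans (bt_eq _ _)).trans (highb (k := 5) hm).symm
  have t045 : E a e f = bE (c10 (E a b c) (E a b d) (E a c d) (E b c d) (E a b e) (E a c e) (E b c e) (E a d e) (E b d e) (E c d e) + 1024 * c10 (E a b f) (E a c f) (E b c f) (E a d f) (E b d f) (E c d f) (E a e f) (E b e f) (E c e f) (E d e f)) (c15 (E a f z) (E b f z) (E c f z) (E d f z) (E a e z) (E b e z) (E c e z) (E d e z) (E a b z) (E a c z) (E b c z) (E a d z) (E b d z) (E c d z) (E e f z)) 0 4 5 :=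
    ((bt_c10_6 (hE.b _ _ _) (hE.b _ _ _) (hE.b _ _ _) (hE.b _ _ _) (hE.b _ _ _) (hE.b _ _ _) (hE.b _ _ _) (hE.b _ _ _) (hE.b _ _ _) (hE.b _ _ _)).symm.trans (bt_eq _ _)).trans (highb (k := 6) hm).symm
  have t145 : E b e f = bE (c10 (E a b c) (E a b d) (E a c d) (E b c d) (E a b e) (E a c e) (E b c e) (E a d e) (E b d e) (E c d e) + 1024 * c10 (E a b f) (E a c f) (E b c f) (E a d f) (E b d f) (E c d f) (E a e f) (E b e f) (E c e f) (E d e f)) (c15 (E a f z) (E b f z) (E c f z) (E d f z) (E a e z) (E b e z) (E c e z) (E d e z) (E a b z) (E a c z) (E b c z) (E a d z) (E b d z) (E c d z) (E e f z)) 1 4 5 :=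
    ((bt_c10_7 (hE.b _ _ _) (hE.b _ _ _) (hE.b _ _ _) (hE.b _ _ _) (hE.b _ _ _) (hE.b _ _ _) (hE.b _ _ _) (hE.b _ _ _) (hE.b _ _ _) (hE.b _ _ _)).symm.trans (bt_eq _ _)).trans (highb (k := 7) hm).symm
  have t245 : E c e f = bE (c10 (E a b c) (E a b d) (E a c d) (E b c d) (E a b e) (E a c e) (E b c e) (E a d e) (E b d e) (E c d e) + 1024 * c10 (E a b f) (E a c f) (E b c f) (E a d f) (E b d f) (E c d f) (E a e f) (E b e f) (E c e f) (E d e f)) (c15 (E a f z) (E b f z) (E c f z) (E d f z) (E a e z) (E b e z) (E c e z) (E d e z) (E a b z) (E a c z) (E b c z) (E a d z) (E b d z) (E c d z) (E e f z)) 2 4 5 :=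
    ((bt_c10_8 (hE.b _ _ _) (hE.b _ _ _) (hE.b _ _ _) (hE.b _ _ _) (hE.b _ _ _) (hE.b _ _ _) (hE.b _ _ _) (hE.b _ _ _) (hE.b _ _ _) (hE.b _ _ _)).symm.trans (bt_eq _ _)).trans (highb (k := 8) hm).symm
  have t345 : E d e f = bE (c10 (E a b c) (E a b d) (E a c d) (E b c d) (E a b e) (E a c e) (E b c e) (E a d e) (E b d e) (E c d e) + 1024 * c10 (E a b f) (E a c f) (E b c f) (E a d f) (E b d f) (E c d f) (E a e f) (E b e f) (E c e f) (E d e f)) (c15 (E a f z) (E b f z) (E c f z) (E d f z) (E a e z) (E b e z) (E c e z) (E d e z) (E a b z) (E a c z) (E b c z) (E a d z) (E b d z) (E c d z) (E e f z)) 3 4 5 :=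
    ((bt_c10_9 (hE.b _ _ _) (hE.b _ _ _) (hE.b _ _ _) (hE.b _ _ _) (hE.b _ _ _) (hE.b _ _ _) (hE.b _ _ _) (hE.b _ _ _) (hE.b _ _ _) (hE.b _ _ _)).symm.trans (bt_eq _ _)).trans (highb (k := 9) hm).symm
  have t016 : E a b z = bE (c10 (E a b c) (E a b d) (E a c d) (E b c d) (E a b e) (E a c e) (E b c e) (E a d e) (E b d e) (E c d e) + 1024 * c10 (E a b f) (E a c f) (E b c f) (E a d f) (E b d f) (E c d f) (E a e f) (E b e f) (E c e f) (E d e f)) (c15 (E a f z) (E b f z) (E c f z) (E d f z) (E a e z) (E b e z) (E c e z) (E d e z) (E a b z) (E a c z) (E b c z) (E a d z) (E b d z) (E c d z) (E e f z)) 0 1 6 :=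
    (bt_c15_8 (hE.b _ _ _) (hE.b _ _ _) (hE.b _ _ _) (hE.b _ _ _) (hE.b _ _ _) (hE.b _ _ _) (hE.b _ _ _) (hE.b _ _ _) (hE.b _ _ _) (hE.b _ _ _) (hE.b _ _ _) (hE.b _ _ _) (hE.b _ _ _) (hE.b _ _ _) (hE.b _ _ _)).symm.trans (bt_eq _ _)
  have t026 : E a c z = bE (c10 (E a b c) (E a b d) (E a c d) (E b c d) (E a b e) (E a c e) (E b c e) (E a d e) (E b d e) (E c d e) + 1024 * c10 (E a b f) (E a c f) (E b c f) (E a d f) (E b d f) (E c d f) (E a e f) (E b e f) (E c e f) (E d e f)) (c15 (E a f z) (E b f z) (E c f z) (E d f z) (E a e z) (E b e z) (E c e z) (E d e z) (E a b z) (E a c z) (E b c z) (E a d z) (E b d z) (E c d z) (E e f z)) 0 2 6 :=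
    (bt_c15_9 (hE.b _ _ _) (hE.b _ _ _) (hE.b _ _ _) (hE.b _ _ _) (hE.b _ _ _) (hE.b _ _ _) (hE.b _ _ _) (hE.b _ _ _) (hE.b _ _ _) (hE.b _ _ _) (hE.b _ _ _) (hE.b _ _ _) (hE.b _ _ _) (hE.b _ _ _) (hE.b _ _ _)).symm.trans (bt_eq _ _)
  have t126 : E b c z = bE (c10 (E a b c) (E a b d) (E a c d) (E b c d) (E a b e) (E a c e) (E b c e) (E a d e) (E b d e) (E c d e) + 1024 * c10 (E a b f) (E a c f) (E b c f) (E a d f) (E b d f) (E c d f) (E a e f) (E b e f) (E c e f) (E d e f)) (c15 (E a f z) (E b f z) (E c f z) (E d f z) (E a e z) (E b e z) (E c e z) (E d e z) (E a b z) (E a c z) (E b c z) (E a d z) (E b d z) (E c d z) (E e f z)) 1 2 6 :=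
    (bt_c15_10 (hE.b _ _ _) (hE.b _ _ _) (hE.b _ _ _) (hE.b _ _ _) (hE.b _ _ _) (hE.b _ _ _) (hE.b _ _ _) (hE.b _ _ _) (hE.b _ _ _) (hE.b _ _ _) (hE.b _ _ _) (hE.b _ _ _) (hE.b _ _ _) (hE.b _ _ _) (hE.b _ _ _)).symm.trans (bt_eq _ _)
  have t036 : E a d z = bE (c10 (E a b c) (E a b d) (E a c d) (E b c d) (E a b e) (E a c e) (E b c e) (E a d e) (E b d e) (E c d e) + 1024 * c10 (E a b f) (E a c f) (E b c f) (E a d f) (E b d f) (E c d f) (E a e f) (E b e f) (E c e f) (E d e f)) (c15 (E a f z) (E b f z) (E c f z) (E d f z) (E a e z) (E b e z) (E c e z) (E d e z) (E a b z) (E a c z) (E b c z) (E a d z) (E b d z) (E c d z) (E e f z)) 0 3 6 :=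
    (bt_c15_11 (hE.b _ _ _) (hE.b _ _ _) (hE.b _ _ _) (hE.b _ _ _) (hE.b _ _ _) (hE.b _ _ _) (hE.b _ _ _) (hE.b _ _ _) (hE.b _ _ _) (hE.b _ _ _) (hE.b _ _ _) (hE.b _ _ _) (hE.b _ _ _) (hE.b _ _ _) (hE.b _ _ _)).symm.trans (bt_eq _ _)
  have t136 : E b d z = bE (c10 (E a b c) (E a b d) (E a c d) (E b c d) (E a b e) (E a c e) (E b c e) (E a d e) (E b d e) (E c d e) + 1024 * c10 (E a b f) (E a c f) (E b c f) (E a d f) (E b d f) (E c d f) (E a e f) (E b e f) (E c e f) (E d e f)) (c15 (E a f z) (E b f z) (E c f z) (E d f z) (E a e z) (E b e z) (E c e z) (E d e z) (E a b z) (E a c z) (E b c z) (E a d z) (E b d z) (E c d z) (E e f z)) 1 3 6 :=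
    (bt_c15_12 (hE.b _ _ _) (hE.b _ _ _) (hE.b _ _ _) (hE.b _ _ _) (hE.b _ _ _) (hE.b _ _ _) (hE.b _ _ _) (hE.b _ _ _) (hE.b _ _ _) (hE.b _ _ _) (hE.b _ _ _) (hE.b _ _ _) (hE.b _ _ _) (hE.b _ _ _) (hE.b _ _ _)).symm.trans (bt_eq _ _)
  have t236 : E c d z = bE (c10 (E a b c) (E a b d) (E a c d) (E b c d) (E a b e) (E a c e) (E b c e) (E a d e) (E b d e) (E c d e) + 1024 * c10 (E a b f) (E a c f) (E b c f) (E a d f) (E b d f) (E c d f) (E a e f) (E b e f) (E c e f) (E d e f)) (c15 (E a f z) (E b f z) (E c f z) (E d f z) (E a e z) (E b e z) (E c e z) (E d e z) (E a b z) (E a c z) (E b c z) (E a d z) (E b d z) (E c d z) (E e f z)) 2 3 6 :=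
    (bt_c15_13 (hE.b _ _ _) (hE.b _ _ _) (hE.b _ _ _) (hE.b _ _ _) (hE.b _ _ _) (hE.b _ _ _) (hE.b _ _ _) (hE.b _ _ _) (hE.b _ _ _) (hE.b _ _ _) (hE.b _ _ _) (hE.b _ _ _) (hE.b _ _ _) (hE.b _ _ _) (hE.b _ _ _)).symm.trans (bt_eq _ _)
  have t046 : E a e z = bE (c10 (E a b c) (E a b d) (E a c d) (E b c d) (E a b e) (E a c e) (E b c e) (E a d e) (E b d e) (E c d e) + 1024 * c10 (E a b f) (E a c f) (E b c f) (E a d f) (E b d f) (E c d f) (E a e f) (E b e f) (E c e f) (E d e f)) (c15 (E a f z) (E b f z) (E c f z) (E d f z) (E a e z) (E b e z) (E c e z) (E d e z) (E a b z) (E a c z) (E b c z) (E a d z) (E b d z) (E c d z) (E e f z)) 0 4 6 :=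
    (bt_c15_4 (hE.b _ _ _) (hE.b _ _ _) (hE.b _ _ _) (hE.b _ _ _) (hE.b _ _ _) (hE.b _ _ _) (hE.b _ _ _) (hE.b _ _ _) (hE.b _ _ _) (hE.b _ _ _) (hE.b _ _ _) (hE.b _ _ _) (hE.b _ _ _) (hE.b _ _ _) (hE.b _ _ _)).symm.trans (bt_eq _ _)
  have t146 : E b e z = bE (c10 (E a b c) (E a b d) (E a c d) (E b c d) (E a b e) (E a c e) (E b c e) (E a d e) (E b d e) (E c d e) + 1024 * c10 (E a b f) (E a c f) (E b c f) (E a d f) (E b d f) (E c d f) (E a e f) (E b e f) (E c e f) (E d e f)) (c15 (E a f z) (E b f z) (E c f z) (E d f z) (E a e z) (E b e z) (E c e z) (E d e z) (E a b z) (E a c z) (E b c z) (E a d z) (E b d z) (E c d z) (E e f z)) 1 4 6 :=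
    (bt_c15_5 (hE.b _ _ _) (hE.b _ _ _) (hE.b _ _ _) (hE.b _ _ _) (hE.b _ _ _) (hE.b _ _ _) (hE.b _ _ _) (hE.b _ _ _) (hE.b _ _ _) (hE.b _ _ _) (hE.b _ _ _) (hE.b _ _ _) (hE.b _ _ _) (hE.b _ _ _) (hE.b _ _ _)).symm.trans (bt_eq _ _)
  have t246 : E c e z = bE (c10 (E a b c) (E a b d) (E a c d) (E b c d) (E a b e) (E a c e) (E b c e) (E a d e) (E b d e) (E c d e) + 1024 * c10 (E a b f) (E a c f) (E b c f) (E a d f) (E b d f) (E c d f) (E a e f) (E b e f) (E c e f) (E d e f)) (c15 (E a f z) (E b f z) (E c f z) (E d f z) (E a e z) (E b e z) (E c e z) (E d e z) (E a b z) (E a c z) (E b c z) (E a d z) (E b d z) (E c d z) (E e f z)) 2 4 6 :=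
    (bt_c15_6 (hE.b _ _ _) (hE.b _ _ _) (hE.b _ _ _) (hE.b _ _ _) (hE.b _ _ _) (hE.b _ _ _) (hE.b _ _ _) (hE.b _ _ _) (hE.b _ _ _) (hE.b _ _ _) (hE.b _ _ _) (hE.b _ _ _) (hE.b _ _ _) (hE.b _ _ _) (hE.b _ _ _)).symm.trans (bt_eq _ _)
  have t346 : E d e z = bE (c10 (E a b c) (E a b d) (E a c d) (E b c d) (E a b e) (E a c e) (E b c e) (E a d e) (E b d e) (E c d e) + 1024 * c10 (E a b f) (E a c f) (E b c f) (E a d f) (E b d f) (E c d f) (E a e f) (E b e f) (E c e f) (E d e f)) (c15 (E a f z) (E b f z) (E c f z) (E d f z) (E a e z) (E b e z) (E c e z) (E d e z) (E a b z) (E a c z) (E b c z) (E a d z) (E b d z) (E c d z) (E e f z)) 3 4 6 :=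
    (bt_c15_7 (hE.b _ _ _) (hE.b _ _ _) (hE.b _ _ _) (hE.b _ _ _) (hE.b _ _ _) (hE.b _ _ _) (hE.b _ _ _) (hE.b _ _ _) (hE.b _ _ _) (hE.b _ _ _) (hE.b _ _ _) (hE.b _ _ _) (hE.b _ _ _) (hE.b _ _ _) (hE.b _ _ _)).symm.trans (bt_eq _ _)
  have t056 : E a f z = bE (c10 (E a b c) (E a b d) (E a c d) (E b c d) (E a b e) (E a c e) (E b c e) (E a d e) (E b d e) (E c d e) + 1024 * c10 (E a b f) (E a c f) (E b c f) (E a d f) (E b d f) (E c d f) (E a e f) (E b e f) (E c e f) (E d e f)) (c15 (E a f z) (E b f z) (E c f z) (E d f z) (E a e z) (E b e z) (E c e z) (E d e z) (E a b z) (E a c z) (E b c z) (E a d z) (E b d z) (E c d z) (E e f z)) 0 5 6 :=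
    (bt_c15_0 (hE.b _ _ _) (hE.b _ _ _) (hE.b _ _ _) (hE.b _ _ _) (hE.b _ _ _) (hE.b _ _ _) (hE.b _ _ _) (hE.b _ _ _) (hE.b _ _ _) (hE.b _ _ _) (hE.b _ _ _) (hE.b _ _ _) (hE.b _ _ _) (hE.b _ _ _) (hE.b _ _ _)).symm.trans (bt_eq _ _)
  have t156 : E b f z = bE (c10 (E a b c) (E a b d) (E a c d) (E b c d) (E a b e) (E a c e) (E b c e) (E a d e) (E b d e) (E c d e) + 1024 * c10 (E a b f) (E a c f) (E b c f) (E a d f) (E b d f) (E c d f) (E a e f) (E b e f) (E c e f) (E d e f)) (c15 (E a f z) (E b f z) (E c f z) (E d f z) (E a e z) (E b e z) (E c e z) (E d e z) (E a b z) (E a c z) (E b c z) (E a d z) (E b d z) (E c d z) (E e f z)) 1 5 6 :=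
    (bt_c15_1 (hE.b _ _ _) (hE.b _ _ _) (hE.b _ _ _) (hE.b _ _ _) (hE.b _ _ _) (hE.b _ _ _) (hE.b _ _ _) (hE.b _ _ _) (hE.b _ _ _) (hE.b _ _ _) (hE.b _ _ _) (hE.b _ _ _) (hE.b _ _ _) (hE.b _ _ _) (hE.b _ _ _)).symm.trans (bt_eq _ _)
  have t256 : E c f z = bE (c10 (E a b c) (E a b d) (E a c d) (E b c d) (E a b e) (E a c e) (E b c e) (E a d e) (E b d e) (E c d e) + 1024 * c10 (E a b f) (E a c f) (E b c f) (E a d f) (E b d f) (E c d f) (E a e f) (E b e f) (E c e f) (E d e f)) (c15 (E a f z) (E b f z) (E c f z) (E d f z) (E a e z) (E b e z) (E c e z) (E d e z) (E a b z) (E a c z) (E b c z) (E a d z) (E b d z) (E c d z) (E e f z)) 2 5 6 :=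
    (bt_c15_2 (hE.b _ _ _) (hE.b _ _ _) (hE.b _ _ _) (hE.b _ _ _) (hE.b _ _ _) (hE.b _ _ _) (hE.b _ _ _) (hE.b _ _ _) (hE.b _ _ _) (hE.b _ _ _) (hE.b _ _ _) (hE.b _ _ _) (hE.b _ _ _) (hE.b _ _ _) (hE.b _ _ _)).symm.trans (bt_eq _ _)
  have t356 : E d f z = bE (c10 (E a b c) (E a b d) (E a c d) (E b c d) (E a b e) (E a c e) (E b c e) (E a d e) (E b d e) (E c d e) + 1024 * c10 (E a b f) (E a c f) (E b c f) (E a d f) (E b d f) (E c d f) (E a e f) (E b e f) (E c e f) (E d e f)) (c15 (E a f z) (E b f z) (E c f z) (E d f z) (E a e z) (E b e z) (E c e z) (E d e z) (E a b z) (E a c z) (E b c z) (E a d z) (E b d z) (E c d z) (E e f z)) 3 5 6 :=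
    (bt_c15_3 (hE.b _ _ _) (hE.b _ _ _) (hE.b _ _ _) (hE.b _ _ _) (hE.b _ _ _) (hE.b _ _ _) (hE.b _ _ _) (hE.b _ _ _) (hE.b _ _ _) (hE.b _ _ _) (hE.b _ _ _) (hE.b _ _ _) (hE.b _ _ _) (hE.b _ _ _) (hE.b _ _ _)).symm.trans (bt_eq _ _)
  have t456 : E e f z = bE (c10 (E a b c) (E a b d) (E a c d) (E b c d) (E a b e) (E a c e) (E b c e) (E a d e) (E b d e) (E c d e) + 1024 * c10 (E a b f) (E a c f) (E b c f) (E a d f) (E b d f) (E c d f) (E a e f) (E b e f) (E c e f) (E d e f)) (c15 (E a f z) (E b f z) (E c f z) (E d f z) (E a e z) (E b e z) (E c e z) (E d e z) (E a b z) (E a c z) (E b c z) (E a d z) (E b d z) (E c d z) (E e f z)) 4 5 6 :=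
    (bt_c15_14 (hE.b _ _ _) (hE.b _ _ _) (hE.b _ _ _) (hE.b _ _ _) (hE.b _ _ _) (hE.b _ _ _) (hE.b _ _ _) (hE.b _ _ _) (hE.b _ _ _) (hE.b _ _ _) (hE.b _ _ _) (hE.b _ _ _) (hE.b _ _ _) (hE.b _ _ _) (hE.b _ _ _)).symm.trans (bt_eq _ _)
  intro x y w hxy hyw
  fin_cases w <;> fin_cases y <;> first | exact absurd hyw (by decide) | skip
  all_goals (fin_cases x <;> first | exact absurd hxy (by decide) | skip)
  · exact t012
  · exact t013
  · exact t023
  · exact t123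
  · exact t014
  · exact t024
  · exact t124
  · exact t034
  · exact t134
  · exact t234
  · exact t015
  · exact t025
  · exact t125
  · exact t035
  · exact t135
  · exact t235
  · exact t045
  · exact t145
  · exact t245
  · exact t345
  · exact t016
  · exact t026
  · exact t126
  · exact t036
  · exact t136
  · exact t236
  · exact t046
  · exact t146
  · exact t246
  · exact t346
  · exact t056
  · exact t156
  · exact t256
  · exact t356
  · exact t456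

theorem pn_Y (hE : Sy E) (a b c d e f z : V) :
    pn (tab (c10 (E a b c) (E a b d) (E a c d) (E b c d) (E a b e) (E a c e) (E b c e) (E a d e) (E b d e) (E c d e)) (c10 (E a b f) (E a c f) (E b c f) (E a d f) (E b d f) (E c d f) (E a e f) (E b e f) (E c e f) (E d e f))) (c15 (E a f z) (E b f z) (E c f z) (E d f z) (E a e z) (E b e z) (E c e z) (E d e z) (E a b z) (E a c z) (E b c z) (E a d z) (E b d z) (E c d z) (E e f z))
      ≤ Pc * Y E ![a, b, c, d, e, f, z] := by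
  unfold pn
  split_ifs with h
  · obtain ⟨en, hen, hel⟩ := List.mem_map.mp h
    obtain ⟨hF, -, h7, hinj, hs⟩ := (tab_Pr _ _).2 en hen
    have hY : Y E ![a, b, c, d, e, f, z] = 1 := by
      set q : Fin 7 → Fin 7 := fun x => ⟨en.2.2 / 8 ^ (x : ℕ) % 8, h7 x⟩ with hq
      have hqi : Function.Injective q := fun x y hxy => hinj x y (by
        have := congrArg Fin.val hxy
        exact this)
      set τ : Equiv.Perm (Fin 7) := Equiv.ofBijective q (Finite.injective_iff_bijective.mp hqi) with hτ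
      have hτq : ∀ x, τ x = q x := fun x => rfl
      have key : Hit E en.2.1 (![a, b, c, d, e, f, z] ∘ τ.symm) := by
        intro i j k hij hik hjk
        have h3 := sym_ext (g := fun x y w => E (![a, b, c, d, e, f, z] x) (![a, b, c, d, e, f, z] y) (![a, b, c, d, e, f, z] w))
          (h := fun x y w => Fs en.2.1 (τ x) (τ y) (τ w)) (fun _ _ _ => hE.h213 _ _ _) (fun _ _ _ => hE.h132 _ _ _)
          (fun _ _ _ => Fs_213 _ _ _ _) (fun _ _ _ => Fs_132 _ _ _ _)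
          (fun x y w hxy hyw => by
            show E (![a, b, c, d, e, f, z] x) (![a, b, c, d, e, f, z] y) (![a, b, c, d, e, f, z] w) = _
            rw [bE_E hE a b c d e f z x y w hxy hyw, ← hel]
            exact hs x y w hxy hyw)
          (τ.symm i) (τ.symm j) (τ.symm k) (fun h => hij (τ.symm.injective h)) (fun h => hik (τ.symm.injective h))
          (fun h => hjk (τ.symm.injective h))
        simp only [Equiv.apply_symm_apply] at h3
        exact h3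
      unfold Y
      refine if_pos ⟨τ.symm, ?_⟩
      rcases hF with hF | hF
      · left; rw [hF] at key; exact key
      · right; rw [hF] at key; exact key
    rw [hY, mul_one]
  · exact Nat.zero_le _

end

end Pool.Agent.T2H13.B7
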