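import Pool.Agent.T2H13.B7.Chk6
import Pool.Agent.T2H13.B7.Psd6
import Pool.Agent.T2H13.B7.Final

/-! The bound for the number of edges of a `K_4^3`-free 3-graph with few copies of two 3-graphs on seven vertices. -/

set_option autoImplicit false
set_option maxRecDepth 100000
set_option maxHeartbeats 4000000
open Finset

namespace Pool.Agent.T2H13.B7
open Pool.Agent.H122R2.N6 (Sy NoK4 B2 k4b Bt tg five B2_true or_false_left nall nall_true nsum nsum_eq kk tri tri_sy tri_noK4 K43Free six_card_le conv6)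
open Pool.Agent.H37R3.Pen (mem boundX T2_lin)
open Pool.Agent.H37R3.Cop (X6 XX XX_eq Copy Rel hmem_of isoL ti tri_one)
open Pool.Agent.T2H13.B7.O6

theorem hc6 (b012 b013 b023 b123 b014 b024 b124 b034 b134 b234 : ℕ) (hb012 : Bt b012) (hb013 : Bt b013) (hb023 : Bt b023) (hb123 : Bt b123) (hb014 : Bt b014) (hb024 : Bt b024) (hb124 : Bt b124) (hb034 : Bt b034) (hb134 : Bt b134) (hb234 : Bt b234) (ht : tg b012 b013 b023 b123 b014 b024 b124 b034 b134 b234 = 4) (h5 : five b012 b013 b023 b123 b014 b024 b124 b034 b134 b234 = false) :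
    chkG q4 q2 CST KM PEN LST (DV (c10 b012 b013 b023 b123 b014 b024 b124 b034 b134 b234)) b012 b013 b023 b123 b014 b024 b124 b034 b134 b234 = true := by
  have h : partG b012 b013 = true := by
    rcases hb012 with rfl | rfl <;> rcases hb013 with rfl | rfl
    exacts [part00, part01, part10, part11]
  have h2 := (B2_true (B2_true (B2_true (B2_true (B2_true (B2_true (B2_true (B2_true h hb023) hb123) hb014) hb024) hb124) hb034) hb134) hb234)
  have h3 := or_false_left (or_false_left h2 (by rw [ht]; rfl)) h5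
  rwa [st_eq] at h3

theorem rng : (nall 16 fun c => and (Nat.blt (rho c) 4) (nall 64 fun i => Nat.blt (pc c i) 64)) = true := by
  decide +kernel

theorem rho_lt {c : ℕ} (h : c < 16) : rho c < 4 := by
  have := nall_true rng c h
  rw [Bool.and_eq_true] at this
  exact Nat.le_of_ble_eq_true this.1

theorem pc_lt {c i : ℕ} (h : c < 16) (hi : i < 64) : pc c i < 64 := by
  have := nall_true rng c h
  rw [Bool.and_eq_true] at this
  exact Nat.le_of_ble_eq_true (nall_true this.2 i hi)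

theorem g4_all {r i j : ℕ} (hr : r < 4) (hi : i < 64) (hj : j < 64) : g4 r i j = true := by
  have h : chk4 r = true := by
    interval_cases r
    exacts [cp0, cp1, cp2, cp3]
  exact nall_true (nall_true h i hi) j hj

theorem expand (s : Finset ℕ) (w u v : ℕ → ℕ) (B : ℤ) :
    ∑ k ∈ s, (w k : ℤ) * ((u k : ℤ) - B) * ((v k : ℤ) - B) =
      ∑ k ∈ s, (w k : ℤ) * ((u k : ℤ) * (v k : ℤ)) + B ^ 2 * ∑ k ∈ s, (w k : ℤ)
        - B * (∑ k ∈ s, (w k : ℤ) * (u k : ℤ) + ∑ k ∈ s, (w k : ℤ) * (v k : ℤ)) := by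
  rw [mul_add, mul_sum, mul_sum, mul_sum, ← sum_add_distrib, ← sum_add_distrib, ← sum_sub_distrib]
  exact sum_congr rfl fun k _ => by ring

theorem hq4 (c i j : ℕ) (hc : c < 16) (hi : i < 64) (hj : j < 64) : (q4 c i j : ℤ) =
    ∑ k ∈ range 30, (w4 (rho c) k : ℤ) * ((l4 (rho c) (pc c i) k : ℤ) - 131072) *
      ((l4 (rho c) (pc c j) k : ℤ) - 131072) + 70368744177664 := by
  have h := Nat.eq_of_beq_eq_true (g4_all (rho_lt hc) (pc_lt hc hi) (pc_lt hc hj))
  unfold ll O6.sw O6.sl at h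
  rw [nsum_eq, nsum_eq, nsum_eq, nsum_eq] at h
  have h2 := congrArg (fun n : ℕ => (n : ℤ)) h
  simp only [Nat.add_eq, Nat.mul_eq] at h2
  push_cast at h2
  rw [expand (range 30) (fun k => w4 (rho c) k) (fun k => l4 (rho c) (pc c i) k)
    (fun k => l4 (rho c) (pc c j) k) 131072]
  have h3 : (q4 c i j : ℤ) = (tq (rho c) (pc c i) (pc c j) : ℤ) := rfl
  rw [h3]
  linarith

theorem hq2 (i j : ℕ) (hi : i < 16) (hj : j < 16) : (q2 i j : ℤ) =
    ∑ k ∈ range 19, (w2 k : ℤ) * ((l2 i k : ℤ) - 131072) * ((l2 j k : ℤ) - 131072)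
      + (70368744177664 + 6442450944 * ((kk i j : ℕ) : ℤ)) := by
  have h := Nat.eq_of_beq_eq_true (nall_true (nall_true cpb i hi) j hj)
  unfold ll2 sw2 sl2 at h
  rw [nsum_eq, nsum_eq, nsum_eq, nsum_eq] at h
  have h2 := congrArg (fun n : ℕ => (n : ℤ)) h
  simp only [Nat.add_eq, Nat.mul_eq] at h2
  push_cast at h2
  rw [expand (range 19) (fun k => w2 k) (fun k => l2 i k) (fun k => l2 j k) 131072]
  linarith

theorem iso : isoL LST [] 0 0 = true := by decide +kernel

open scoped Classical in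
/-- the bound in terms of the ordered copies -/
theorem main7 {V : Type} [Fintype V] {H : Finset (Finset V)} (hH : ∀ e ∈ H, e.card = 3)
    (hF : K43Free H) :
    54 * Fintype.card V ^ 4 * H.card ≤ 5 * Fintype.card V ^ 7 + 3 * ∑ x : Fin 7 → V, Y (tri H) x := by
  have hE := tri_sy H
  have hK := tri_noK4 hH hF
  have hb := boundX (tri H) hE 30 19 CST 1 (XG (tri H) KM PEN 0) q4
    (fun c k => w4 (rho c) k) (fun c i k => l4 (rho c) (pc c i) k)
    q2 w2 l2 131072 70368744177664 70368744177664 (fun k => 6442450944 * (k : ℤ)) hq4 hq2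
    (leafG_all CH_all hE hK (hmem_of hE iso) cs4 cs2 hc6)
  rw [T2_lin (tri H) hE] at hb
  have hPn : PEN = 0 := rfl
  have hsum : ∑ x : Fin 6 → V, (XG (tri H) KM PEN 0 (x 0) (x 1) (x 2) (x 3) (x 4) (x 5) : ℤ) =
      KM * ∑ a : V, ∑ b : V, ∑ c : V, ∑ d : V, ∑ e : V, ∑ x : V, (gg (tri H) a b c d e x : ℤ) := by
    rw [← conv6 (fun a b c d e x => (gg (tri H) a b c d e x : ℤ)), mul_sum]
    refine sum_congr rfl fun x _ => ?_
    unfold XG
    rw [hPn, zero_mul, add_zero]
    push_cast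
    ring
  rw [hsum] at hb
  have hg := gg_le hE hK
  have hC : (CST : ℤ) = 4043951275945600 := rfl
  have hKM : (KM : ℤ) = 144955 := rfl
  rw [hC, hKM] at hb
  have h2 : ((6 * H.card : ℕ) : ℤ) ≤ ∑ a, ∑ b, ∑ c, ((tri H a b c : ℕ) : ℤ) := by
    exact_mod_cast six_card_le hH
  have h3 : (0 : ℤ) ≤ (Fintype.card V : ℤ) ^ 3 := by positivity
  have h4 := mul_le_mul_of_nonneg_left h2 h3
  set n : ℤ := (Fintype.card V : ℤ) with hn
  set S : ℤ := ∑ a : V, ∑ b : V, ∑ c : V, ∑ d : V, ∑ e : V, ∑ x : V, (gg (tri H) a b c d e x : ℤ) with hS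
  set YY : ℤ := ∑ x : Fin 7 → V, (Y (tri H) x : ℤ) with hYY
  have hYY0 : 0 ≤ YY := sum_nonneg fun _ _ => by positivity
  have hn0 : 0 ≤ n := by rw [hn]; positivity
  -- the bound for the sum of the weights from below
  have h6 : 128849018880 * (54 * n ^ 3 * (H.card : ℤ) - 5 * n ^ 6) ≤ 144955 * (S - 1233607808 * n ^ 6) := by
    push_cast at h4 hb
    linarith
  have h7 := mul_le_mul_of_nonneg_left h6 hn0
  have h5 : 54 * n ^ 4 * (H.card : ℤ) ≤ 5 * n ^ 7 + 3 * YY := by
    have e1 : n * (128849018880 * (54 * n ^ 3 * (H.card : ℤ) - 5 * n ^ 6)) =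
        128849018880 * (54 * n ^ 4 * (H.card : ℤ) - 5 * n ^ 7) := by ring
    have e2 : n * (144955 * (S - 1233607808 * n ^ 6)) = 144955 * (n * S) - 144955 * 1233607808 * n ^ 7 := by ring
    rw [e1, e2] at h7
    have e3 : 42 * n * S = 42 * (n * S) := by ring
    rw [e3] at hg
    linarith
  have h8 : ((54 * Fintype.card V ^ 4 * H.card : ℕ) : ℤ) ≤ ((5 * Fintype.card V ^ 7 + 3 * ∑ x : Fin 7 → V, Y (tri H) x : ℕ) : ℤ) := by
    push_cast
    rw [← hn, ← hYY]
    exact h5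
  exact_mod_cast h8

section
variable {V : Type}

/-- an edge of the pattern for every pair -/
theorem covA : ∀ a b : Fin 7, a ≠ b → ∃ c : Fin 7, a ≠ c ∧ b ≠ c ∧ Fs FA a b c = 1 := by decide +kernel
theorem covB : ∀ a b : Fin 7, a ≠ b → ∃ c : Fin 7, a ≠ c ∧ b ≠ c ∧ Fs FB a b c = 1 := by decide +kernel

theorem sorted7 (t : Finset (Fin 7)) (ht : t.card = 3) :
    ∃ i j k : Fin 7, i ≠ j ∧ i ≠ k ∧ j ≠ k ∧ t = {i, j, k} := by
  obtain ⟨x, y, z, hxy, hxz, hyz, rfl⟩ := Finset.card_eq_three.mp ht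
  exact ⟨x, y, z, hxy, hxz, hyz, rfl⟩

/-- `S` induces a copy of the pattern `F` in `H` -/
def Ind7 (F : Finset (Finset (Fin 7))) (H : Finset (Finset V)) (S : Finset V) : Prop :=
  ∃ f : Fin 7 → V, Function.Injective f ∧ (∀ v, v ∈ S ↔ ∃ i, f i = v) ∧
    ∀ i j k : Fin 7, i ≠ j → i ≠ k → j ≠ k → ((∃ e ∈ H, ∀ v, v ∈ e ↔ v = f i ∨ v = f j ∨ v = f k) ↔ {i, j, k} ∈ F)

open scoped Classical in
theorem ex_iff {H : Finset (Finset V)} {a b c : V} :
    (∃ e ∈ H, ∀ v, v ∈ e ↔ v = a ∨ v = b ∨ v = c) ↔ ({a, b, c} : Finset V) ∈ H := by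
  constructor
  · rintro ⟨e, he, h⟩
    have : e = {a, b, c} := by
      ext v
      rw [h v]
      simp
    rwa [← this]
  · intro h
    exact ⟨_, h, fun v => by simp⟩

theorem hit_inj {H : Finset (Finset V)} (hH : ∀ e ∈ H, e.card = 3) {v : Fin 7 → V} {F : ℕ}
    (hcov : ∀ a b : Fin 7, a ≠ b → ∃ c : Fin 7, a ≠ c ∧ b ≠ c ∧ Fs F a b c = 1) (h : Hit (tri H) F v) :
    Function.Injective v := by
  intro a b hab
  by_contra hne
  obtain ⟨c, hac, hbc, h1⟩ := hcov a b hne
  have h2 := h a b c hne hac hbc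
  rw [h1, tri_one] at h2
  exact (Pool.Agent.H122R2.N6.distinct_of_mem hH h2).1 hab

theorem ind_of_hit {H : Finset (Finset V)} (hH : ∀ e ∈ H, e.card = 3) {v : Fin 7 → V} {F : ℕ} {Fm : Finset (Finset (Fin 7))}
    (hcov : ∀ a b : Fin 7, a ≠ b → ∃ c : Fin 7, a ≠ c ∧ b ≠ c ∧ Fs F a b c = 1)
    (hm : ∀ i j k : Fin 7, i ≠ j → i ≠ k → j ≠ k → (Fs F i j k = 1 ↔ ({i, j, k} : Finset (Fin 7)) ∈ Fm))
    (h : Hit (tri H) F v) {S : Finset V} (hS : ∀ u, u ∈ S ↔ ∃ i, v i = u) : Ind7 Fm H S := by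
  refine ⟨v, hit_inj hH hcov h, hS, ?_⟩
  intro i j k hij hik hjk
  rw [ex_iff, ← hm i j k hij hik hjk, ← h i j k hij hik hjk, tri_one]

open scoped Classical in
theorem fiber7 [Fintype V] (S : Finset V) (hS : S.card = 7) :
    ((univ : Finset (Fin 7 → V)).filter fun x => univ.image x = S).card ≤ 5040 := by
  have hsub : ((univ : Finset (Fin 7 → V)).filter fun x => univ.image x = S) ⊆
      (univ : Finset (Fin 7 ↪ S)).image (fun e i => (e i : V)) := by
    intro x hx
    rw [mem_filter] at hx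
    have hinj : Function.Injective x := by
      have h1 : (univ.image x).card = (univ : Finset (Fin 7)).card := by
        rw [hx.2, hS]; rfl
      have h2 := Finset.injOn_of_card_image_eq h1
      intro i j hij
      exact h2 (by simp) (by simp) hij
    have hmem : ∀ i, x i ∈ S := fun i => by
      rw [← hx.2]; exact mem_image_of_mem _ (mem_univ _)
    rw [mem_image]
    refine ⟨⟨fun i => ⟨x i, hmem i⟩, ?_⟩, mem_univ _, rfl⟩
    intro i j hij
    exact hinj (congrArg Subtype.val hij)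
  refine (card_le_card hsub).trans (card_image_le.trans ?_)
  rw [card_univ, Fintype.card_embedding_eq, Fintype.card_fin, Fintype.card_coe, hS]
  decide

open scoped Classical in
theorem sum_Y_le [Fintype V] {H : Finset (Finset V)} (hH : ∀ e ∈ H, e.card = 3) {F1 F2 : Finset (Finset (Fin 7))}
    (h1 : ∀ i j k : Fin 7, i ≠ j → i ≠ k → j ≠ k → (Fs FA i j k = 1 ↔ ({i, j, k} : Finset (Fin 7)) ∈ F1))
    (h2 : ∀ i j k : Fin 7, i ≠ j → i ≠ k → j ≠ k → (Fs FB i j k = 1 ↔ ({i, j, k} : Finset (Fin 7)) ∈ F2)) :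
    ∑ x : Fin 7 → V, Y (tri H) x ≤
      5040 * (((univ : Finset V).powersetCard 7).filter fun S => Ind7 F1 H S ∨ Ind7 F2 H S).card := by
  set TA := ((univ : Finset V).powersetCard 7).filter fun S => Ind7 F1 H S ∨ Ind7 F2 H S with hTA
  have e1 : ∑ x : Fin 7 → V, Y (tri H) x =
      ((univ : Finset (Fin 7 → V)).filter fun x => ∃ σ : Equiv.Perm (Fin 7), Hit (tri H) FA (x ∘ σ) ∨ Hit (tri H) FB (x ∘ σ)).card := by
    rw [card_filter]; rfl
  have hmap : ∀ x ∈ (univ : Finset (Fin 7 → V)).filter (fun x => ∃ σ : Equiv.Perm (Fin 7), Hit (tri H) FA (x ∘ σ) ∨ Hit (tri H) FB (x ∘ σ)),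
      univ.image x ∈ TA := by
    intro x hx
    rw [mem_filter] at hx
    obtain ⟨-, σ, hh⟩ := hx
    have hS : ∀ u, u ∈ univ.image x ↔ ∃ i, (x ∘ σ) i = u := by
      intro u
      simp only [mem_image, mem_univ, true_and, Function.comp]
      constructor
      · rintro ⟨i, hi⟩; exact ⟨σ.symm i, by rw [Equiv.apply_symm_apply]; exact hi⟩
      · rintro ⟨i, hi⟩; exact ⟨σ i, hi⟩
    have hinj : Function.Injective (x ∘ σ) := by
      rcases hh with hh | hh
      · exact hit_inj hH covA hh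
      · exact hit_inj hH covB hh
    have hinjx : Function.Injective x := by
      have : x = (x ∘ σ) ∘ σ.symm := by funext i; simp
      rw [this]
      exact hinj.comp σ.symm.injective
    refine mem_filter.mpr ⟨mem_powersetCard.mpr ⟨subset_univ _, ?_⟩, ?_⟩
    · rw [card_image_of_injective _ hinjx]; rfl
    · rcases hh with hh | hh
      · exact Or.inl (ind_of_hit hH covA h1 hh hS)
      · exact Or.inr (ind_of_hit hH covB h2 hh hS)
  rw [e1, card_eq_sum_card_fiberwise hmap]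
  calc _ ≤ ∑ S ∈ TA, 5040 := by
        refine sum_le_sum fun S hS => ?_
        have hS7 : S.card = 7 := (mem_powersetCard.mp (mem_filter.mp hS).1).2
        refine (card_le_card ?_).trans (fiber7 S hS7)
        intro x hx
        rw [mem_filter] at hx ⊢
        exact ⟨mem_univ _, hx.2⟩
    _ = 5040 * TA.card := by rw [sum_const, smul_eq_mul, mul_comm]

end

end Pool.Agent.T2H13.B7
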