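import Pool.Agent.T2H13.B7.Inv

/-! Consequences of the checks of the tables. -/

set_option autoImplicit false
set_option linter.unusedVariables false
set_option maxRecDepth 100000
set_option maxHeartbeats 4000000
set_option exponentiation.threshold 700000
open Finset
open Pool.Agent.H122R2.N6 (Bt)

namespace Pool.Agent.T2H13.B7

noncomputable section

theorem onv_eq (n : ℕ) : onv n = enc 640 n (fun _ => 1) := by
  induction n with
  | zero => rw [enc_zero]; rfl
  | succ n ih => rw [enc_const_succ, ← ih]; rfl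

theorem afv_eq (c : ℕ) (w : ℕ → ℕ) (n : ℕ) : afv c w n = enc 640 n (fun i => c + ∑ j ∈ range n, bt j i * w j) := by
  induction n with
  | zero => rw [enc_zero]; simp [afv]
  | succ n ih =>
    have e : afv c w (n + 1) = Nat.add (afv c w n) (Nat.shiftLeft (Nat.add (afv c w n) (Nat.mul (w n) (onv n))) (640 * 2 ^ n)) := rfl
    rw [e, add_shl, ih, onv_eq, enc_succ]
    congr 1
    · refine enc_congr fun i hi => ?_
      rw [sum_range_succ, bt_lt hi, zero_mul, add_zero]
    · congr 1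
      show _ + w n * _ = _
      rw [mul_comm (w n), enc_mulc, enc_add]
      refine enc_congr fun i hi => ?_
      rw [sum_range_succ, bt_add_self hi, one_mul, ← add_assoc]
      congr 2
      refine sum_congr rfl fun j hj => ?_
      rw [bt_add (mem_range.mp hj)]

/-- the product of three bits as far as they are below `n` -/
def m3f (p q r n i : ℕ) : ℕ := if (p < n → bt p i = 1) ∧ (q < n → bt q i = 1) ∧ (r < n → bt r i = 1) then 1 else 0

theorem m3f_le (p q r n i : ℕ) : m3f p q r n i ≤ 1 := by unfold m3f; split_ifs <;> omega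

theorem beq_false {a b : ℕ} (h : a ≠ b) : Nat.beq a b = false := by
  rw [← Bool.not_eq_true]; exact fun hh => h (Nat.eq_of_beq_eq_true hh)

theorem mk3_eq {p q r : ℕ} (n : ℕ) : mk3 p q r n = enc 640 n (m3f p q r n) := by
  induction n with
  | zero => rw [enc_zero]; simp [mk3, m3f]
  | succ n ih =>
    have e : mk3 p q r (n + 1) = cnd (Nat.beq n p) (Nat.shiftLeft (mk3 p q r n) (640 * 2 ^ n))
      (cnd (Nat.beq n q) (Nat.shiftLeft (mk3 p q r n) (640 * 2 ^ n)) (cnd (Nat.beq n r) (Nat.shiftLeft (mk3 p q r n) (640 * 2 ^ n))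
        (d2 (640 * 2 ^ n) (mk3 p q r n)))) := rfl
    have hz : ∀ g : ℕ → ℕ, (∀ i < 2 ^ n, g i = 0) → enc 640 n g = 0 := fun g hg => by
      unfold enc
      exact sum_eq_zero fun i hi => by rw [hg i (mem_range.mp hi), zero_mul]
    have hsame : ∀ x, x ≠ n → ∀ i < 2 ^ n, ((x < n + 1 → bt x i = 1) ↔ (x < n → bt x i = 1)) ∧
        ((x < n + 1 → bt x (2 ^ n + i) = 1) ↔ (x < n → bt x i = 1)) := by
      intro x hx i hi
      refine ⟨⟨fun h h' => h (by omega), fun h h' => h (by omega)⟩, ⟨fun h h' => ?_, fun h h' => ?_⟩⟩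
      · rw [← bt_add h' i]; exact h (by omega)
      · rw [bt_add (by omega) i]; exact h (by omega)
    have hup : ∀ x, ∀ i < 2 ^ n, ((x < n + 1 → bt x (2 ^ n + i) = 1) ↔ (x < n → bt x i = 1)) := by
      intro x i hi
      by_cases hx : x = n
      · subst hx
        exact ⟨fun _ h => absurd h (lt_irrefl _), fun _ _ => bt_add_self hi⟩
      · exact (hsame x hx i hi).2
    have hU : enc 640 n (fun i => m3f p q r (n + 1) (2 ^ n + i)) = enc 640 n (m3f p q r n) :=
      enc_congr fun i hi => by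
        unfold m3f
        exact if_congr (and_congr (hup p i hi) (and_congr (hup q i hi) (hup r i hi))) rfl rfl
    rw [enc_succ, hU, e, ih]
    have hlow : (n = p ∨ n = q ∨ n = r) → enc 640 n (m3f p q r (n + 1)) = 0 := by
      intro h
      refine hz _ fun i hi => ?_
      unfold m3f
      rw [if_neg]
      rintro ⟨h1, h2, h3⟩
      have h0 := bt_lt hi
      rcases h with rfl | rfl | rfl
      · have := h1 (by omega); omega
      · have := h2 (by omega); omega
      · have := h3 (by omega); omega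
    have eshl : Nat.shiftLeft (enc 640 n (m3f p q r n)) (640 * 2 ^ n) = enc 640 n (m3f p q r n) * 2 ^ (640 * 2 ^ n) :=
      Nat.shiftLeft_eq _ _
    by_cases hp : n = p
    · rw [hlow (Or.inl hp), zero_add, ← eshl]
      rw [show Nat.beq n p = true by rw [hp]; exact Nat.beq_refl p]; rfl
    · rw [beq_false hp]
      by_cases hq : n = q
      · rw [hlow (Or.inr (Or.inl hq)), zero_add, ← eshl]
        rw [show Nat.beq n q = true by rw [hq]; exact Nat.beq_refl q]; rfl
      · rw [beq_false hq]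
        by_cases hr : n = r
        · rw [hlow (Or.inr (Or.inr hr)), zero_add, ← eshl]
          rw [show Nat.beq n r = true by rw [hr]; exact Nat.beq_refl r]; rfl
        · rw [beq_false hr]
          have hL : enc 640 n (m3f p q r (n + 1)) = enc 640 n (m3f p q r n) :=
            enc_congr fun i hi => by
              unfold m3f
              exact if_congr (and_congr (hsame p (Ne.symm hp) i hi).1 (and_congr (hsame q (Ne.symm hq) i hi).1 (hsame r (Ne.symm hr) i hi).1)) rfl rfl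
          rw [hL, ← eshl]
          rfl

theorem m3f_10 {p q r : ℕ} (hp : p < 10) (hq : q < 10) (hr : r < 10) (i : ℕ) : m3f p q r 10 i = bt p i * (bt q i * bt r i) := by
  unfold m3f
  rcases bt01 p i with h0 | h0 <;> rcases bt01 q i with h1 | h1 <;> rcases bt01 r i with h2 | h2 <;>
    simp [h0, h1, h2, hp, hq, hr]

theorem enc_lor {s : ℕ} (hs : 0 < s) {n : ℕ} {f g : ℕ → ℕ} (hf : ∀ i < 2 ^ n, f i < 2 ^ s)
    (hg : ∀ i < 2 ^ n, g i < 2 ^ s) :
    Nat.lor (enc s n f) (enc s n g) = enc s n (fun i => Nat.lor (f i) (g i)) := by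
  refine Nat.eq_of_testBit_eq fun t => ?_
  have hfg : ∀ i < 2 ^ n, (fun i => Nat.lor (f i) (g i)) i < 2 ^ s := fun i hi =>
    Nat.or_lt_two_pow (hf i hi) (hg i hi)
  rw [enc_testBit hs hfg]
  show (enc s n f ||| enc s n g).testBit t = (_ && (f (t / s) ||| g (t / s)).testBit (t % s))
  rw [Nat.testBit_or, Nat.testBit_or, enc_testBit hs hf, enc_testBit hs hg]
  cases decide (t / s < 2 ^ n) <;> simp

/-- coordinate `k` of the record of a flag -/
def ec (m f k : ℕ) : ℕ := fld 40 (rc m f) k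

theorem kN_DV {m : ℕ} (hm : m < 1024) {k : ℕ} (hk : k < 16) : kN (DV m) (40 * k) = enc 640 10 (fun f => ec m f k) := by
  rw [DV_eq hm, kN_eq (fun i _ => rc_lt m i) hk]
  rfl

theorem ec_lt (m f k : ℕ) : ec m f k < 2 ^ 40 := fld_lt _ _ _

theorem sume_eq {m : ℕ} (hm : m < 1024) : sume (DV m) = enc 640 10 (fun f => ∑ k ∈ range 12, ec m f k) := by
  have key : sume (DV m) = kN (DV m) (40 * 0) + (kN (DV m) (40 * 1) + (kN (DV m) (40 * 2) + (kN (DV m) (40 * 3)
      + (kN (DV m) (40 * 4) + (kN (DV m) (40 * 5) + (kN (DV m) (40 * 6) + (kN (DV m) (40 * 7) + (kN (DV m) (40 * 8)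
      + (kN (DV m) (40 * 9) + (kN (DV m) (40 * 10) + kN (DV m) (40 * 11))))))))))) := rfl
  rw [key, kN_DV hm (by norm_num), kN_DV hm (by norm_num), kN_DV hm (by norm_num), kN_DV hm (by norm_num),
    kN_DV hm (by norm_num), kN_DV hm (by norm_num), kN_DV hm (by norm_num), kN_DV hm (by norm_num),
    kN_DV hm (by norm_num), kN_DV hm (by norm_num), kN_DV hm (by norm_num), kN_DV hm (by norm_num)]
  simp only [enc_add]
  refine enc_congr fun i _ => ?_
  simp only [sum_range_succ, sum_range_zero]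
  ring

theorem pow640 {x : ℕ} (h : x < 2 ^ 80) : x < 2 ^ 640 := lt_of_lt_of_le h (Nat.pow_le_pow_right (by norm_num) (by norm_num))

theorem enc_inj10 {f g : ℕ → ℕ} (hf : ∀ i, f i < 2 ^ 640) (hg : ∀ i, g i < 2 ^ 640) (h : enc 640 10 f = enc 640 10 g) {i : ℕ}
    (hi : i < 1024) : f i = g i := by
  have h1024 : (1024 : ℕ) = 2 ^ 10 := by norm_num
  rw [h1024] at hi
  exact enc_inj (by norm_num) (fun i _ => hf i) (fun i _ => hg i) h hi

theorem aux_w {a b : ℕ} (ha : a < 2 ^ 40) (hb : b ≤ 12 * 2 ^ 40) : a + b * 9728 < 2 ^ 80 := by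
  have e40 : (2 : ℕ) ^ 40 = 1099511627776 := by norm_num
  have e80 : (2 : ℕ) ^ 80 = 1208925819614629174706176 := by norm_num
  rw [e40] at ha hb
  rw [e80]
  omega

theorem wid_spec {m : ℕ} (hm : m < 1024) (h : wid m (DV m) = true) {f : ℕ} (hf : f < 1024) :
    ec m f 12 + (∑ k ∈ range 12, ec m f k) * 9728 = ec m f 14 := by
  unfold wid at h
  have h1 := Nat.eq_of_beq_eq_true h
  have e1 : kN (DV m) 480 = enc 640 10 (fun f => ec m f 12) := kN_DV (k := 12) hm (by norm_num)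
  have e2 : kN (DV m) 560 = enc 640 10 (fun f => ec m f 14) := kN_DV (k := 14) hm (by norm_num)
  rw [e1, e2, sume_eq hm] at h1
  simp only [Nat.add_eq, Nat.mul_eq] at h1
  rw [enc_mulc, enc_add] at h1
  refine enc_inj10 (f := fun f => ec m f 12 + (∑ k ∈ range 12, ec m f k) * 9728)
    (g := fun f => ec m f 14) ?_ ?_ h1 hf
  · intro i
    refine pow640 (aux_w (ec_lt m i 12) ?_)
    have h4 : ∑ k ∈ range 12, ec m i k ≤ ∑ _k ∈ range 12, 2 ^ 40 := sum_le_sum fun k _ => (ec_lt m i k).le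
    rwa [sum_const, card_range, smul_eq_mul] at h4
  · intro i
    exact pow640 (lt_trans (ec_lt m i 14) (by norm_num))

theorem m3_lt (p q r : ℕ) (b : ℕ) (hb : b ≤ 1) : ∀ i < 2 ^ 10, m3f p q r 10 i * b < 2 ^ 640 := fun i _ => by
  have := m3f_le p q r 10 i
  refine lt_of_le_of_lt (Nat.mul_le_mul this hb) (by norm_num)

/-- a triple of the type with its three pairs in the link -/
def badf (m f : ℕ) : ℕ := Nat.lor (m3f 4 5 6 10 f * bt 0 m) (Nat.lor (m3f 4 7 8 10 f * bt 1 m)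
  (Nat.lor (m3f 5 7 9 10 f * bt 2 m) (Nat.lor (m3f 6 8 9 10 f * bt 3 m) (Nat.lor (m3f 0 1 4 10 f * bt 4 m)
  (Nat.lor (m3f 0 2 5 10 f * bt 5 m) (Nat.lor (m3f 1 2 6 10 f * bt 6 m) (Nat.lor (m3f 0 3 7 10 f * bt 7 m)
  (Nat.lor (m3f 1 3 8 10 f * bt 8 m) (m3f 2 3 9 10 f * bt 9 m)))))))))

theorem bt_le1 (k m : ℕ) : bt k m ≤ 1 := by rcases bt01 k m with h | h <;> omega

theorem lor_lt {a b : ℕ} (ha : a < 2 ^ 640) (hb : b < 2 ^ 640) : Nat.lor a b < 2 ^ 640 := Nat.or_lt_two_pow ha hb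

theorem bad_eq (m : ℕ) : bad m = enc 640 10 (badf m) := by
  have e : ∀ p q r k, Nat.mul (mk3 p q r 10) (bt k m) = enc 640 10 (fun i => m3f p q r 10 i * bt k m) := fun p q r k => by
    rw [mk3_eq]; exact enc_mulc _ _ _ _
  have l : ∀ p q r k, ∀ i < 2 ^ 10, (fun i => m3f p q r 10 i * bt k m) i < 2 ^ 640 := fun p q r k =>
    m3_lt p q r (bt k m) (bt_le1 _ _)
  unfold bad
  rw [e, e, e, e, e, e, e, e, e, e]
  have h9 := l 2 3 9 9
  have h8 := l 1 3 8 8
  have h7 := l 0 3 7 7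
  have h6 := l 1 2 6 6
  have h5 := l 0 2 5 5
  have h4 := l 0 1 4 4
  have h3 := l 6 8 9 3
  have h2 := l 5 7 9 2
  have h1 := l 4 7 8 1
  have h0 := l 4 5 6 0
  rw [enc_lor (by norm_num) h8 h9, enc_lor (by norm_num) h7 (fun i hi => lor_lt (h8 i hi) (h9 i hi)),
    enc_lor (by norm_num) h6 (fun i hi => lor_lt (h7 i hi) (lor_lt (h8 i hi) (h9 i hi))),
    enc_lor (by norm_num) h5 (fun i hi => lor_lt (h6 i hi) (lor_lt (h7 i hi) (lor_lt (h8 i hi) (h9 i hi)))),
    enc_lor (by norm_num) h4 (fun i hi => lor_lt (h5 i hi) (lor_lt (h6 i hi) (lor_lt (h7 i hi) (lor_lt (h8 i hi) (h9 i hi))))),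
    enc_lor (by norm_num) h3 (fun i hi => lor_lt (h4 i hi) (lor_lt (h5 i hi) (lor_lt (h6 i hi) (lor_lt (h7 i hi) (lor_lt (h8 i hi) (h9 i hi)))))),
    enc_lor (by norm_num) h2 (fun i hi => lor_lt (h3 i hi) (lor_lt (h4 i hi) (lor_lt (h5 i hi) (lor_lt (h6 i hi) (lor_lt (h7 i hi) (lor_lt (h8 i hi) (h9 i hi))))))),
    enc_lor (by norm_num) h1 (fun i hi => lor_lt (h2 i hi) (lor_lt (h3 i hi) (lor_lt (h4 i hi) (lor_lt (h5 i hi) (lor_lt (h6 i hi) (lor_lt (h7 i hi) (lor_lt (h8 i hi) (h9 i hi)))))))),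
    enc_lor (by norm_num) h0 (fun i hi => lor_lt (h1 i hi) (lor_lt (h2 i hi) (lor_lt (h3 i hi) (lor_lt (h4 i hi) (lor_lt (h5 i hi) (lor_lt (h6 i hi) (lor_lt (h7 i hi) (lor_lt (h8 i hi) (h9 i hi)))))))))]
  rfl

theorem badf_lt (m f : ℕ) : badf m f < 2 ^ 640 := by
  have l : ∀ p q r k, m3f p q r 10 f * bt k m < 2 ^ 640 := fun p q r k =>
    lt_of_le_of_lt (Nat.mul_le_mul (m3f_le p q r 10 f) (bt_le1 k m)) (by norm_num)
  unfold badf
  exact lor_lt (l _ _ _ _) (lor_lt (l _ _ _ _) (lor_lt (l _ _ _ _) (lor_lt (l _ _ _ _) (lor_lt (l _ _ _ _)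
    (lor_lt (l _ _ _ _) (lor_lt (l _ _ _ _) (lor_lt (l _ _ _ _) (lor_lt (l _ _ _ _) (l _ _ _ _)))))))))

theorem ec_lt' (m f k : ℕ) : ec m f k < 2 ^ 640 := pow640 (lt_trans (ec_lt m f k) (by norm_num))

theorem vld_spec {m : ℕ} (hm : m < 1024) (h : vld m (DV m) = true) {f : ℕ} (hf : f < 1024) (hb : badf m f = 0) :
    ec m f 13 = 1 := by
  unfold vld at h
  have h1 := Nat.eq_of_beq_eq_true h
  have e2 : kN (DV m) 520 = enc 640 10 (fun f => ec m f 13) := kN_DV (k := 13) hm (by norm_num)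
  rw [e2, bad_eq, OS1024_eq, enc_lor (by norm_num) (fun i _ => ec_lt' m i 13) (fun i _ => badf_lt m i)] at h1
  have h2 := enc_inj10 (f := fun i => Nat.lor (ec m i 13) (badf m i)) (g := fun _ => 1)
    (fun i => lor_lt (ec_lt' m i 13) (badf_lt m i)) (fun _ => by norm_num) h1 hf
  simp only [hb] at h2
  exact (Nat.or_zero _).symm.trans h2

/-- one coordinate is preserved or reversed -/
def Rk (m m' : ℕ) (g : ℕ → ℕ) (k : ℕ) : Prop :=
  (∀ f < 1024, ec m f k = ec m' (g f) k) ∨ (∀ f < 1024, ec m f k + ec m' (g f) k = ec m f 13 * 19456)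

theorem aux_a {a b : ℕ} (ha : a < 2 ^ 40) (hb : b < 2 ^ 40) : a + b < 2 ^ 80 := by
  have e40 : (2 : ℕ) ^ 40 = 1099511627776 := by norm_num
  have e80 : (2 : ℕ) ^ 80 = 1208925819614629174706176 := by norm_num
  rw [e40] at ha hb
  rw [e80]
  omega

theorem aux_b {a : ℕ} (ha : a < 2 ^ 40) : a * 19456 < 2 ^ 80 := by
  have e40 : (2 : ℕ) ^ 40 = 1099511627776 := by norm_num
  have e80 : (2 : ℕ) ^ 80 = 1208925819614629174706176 := by norm_num
  rw [e40] at ha
  rw [e80]
  omega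

theorem cnd_false' {α : Type} (x y : α) : cnd false x y = y := rfl

theorem inv1_spec {m m' : ℕ} (hm : m < 1024) {g : ℕ → ℕ} {y : ℕ} (hy : y = enc 640 10 (fun f => rc m' (g f))) {k : ℕ}
    (hk : k < 12) (h : inv1 (DV m) y (40 * k) = true) : Rk m m' g k := by
  have e2 : kN (DV m) 520 = enc 640 10 (fun f => ec m f 13) := kN_DV (k := 13) hm (by norm_num)
  have ex := kN_DV (k := k) hm (by omega)
  have ey : kN y (40 * k) = enc 640 10 (fun f => ec m' (g f) k) := by
    rw [hy, kN_eq (fun i _ => rc_lt _ _) (by omega)]; rfl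
  unfold inv1 at h
  rw [ex, ey, e2] at h
  cases hb : Nat.beq (enc 640 10 (fun f => ec m f k)) (enc 640 10 (fun f => ec m' (g f) k)) with
  | true =>
    left
    intro f hf
    exact enc_inj10 (f := fun f => ec m f k) (g := fun f => ec m' (g f) k) (fun i => ec_lt' _ _ _) (fun i => ec_lt' _ _ _)
      (Nat.eq_of_beq_eq_true hb) hf
  | false =>
    right
    intro f hf
    rw [hb] at h
    rw [cnd_false'] at h
    have h1 := Nat.eq_of_beq_eq_true h
    simp only [Nat.add_eq, Nat.mul_eq] at h1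
    rw [enc_add, enc_mulc] at h1
    exact enc_inj10 (f := fun f => ec m f k + ec m' (g f) k) (g := fun f => ec m f 13 * 19456)
      (fun i => pow640 (aux_a (ec_lt _ _ _) (ec_lt _ _ _))) (fun i => pow640 (aux_b (ec_lt _ _ _))) h1 hf

theorem inv0_spec {m m' : ℕ} (hm : m < 1024) {g : ℕ → ℕ} {y : ℕ} (hy : y = enc 640 10 (fun f => rc m' (g f)))
    (h : inv0 (DV m) y = true) {k : ℕ} (hk : k < 12) : Rk m m' g k := by
  unfold inv0 at h
  obtain ⟨a0, h⟩ := cnd_and h
  obtain ⟨a1, h⟩ := cnd_and h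
  obtain ⟨a2, h⟩ := cnd_and h
  obtain ⟨a3, h⟩ := cnd_and h
  obtain ⟨a4, h⟩ := cnd_and h
  obtain ⟨a5, h⟩ := cnd_and h
  obtain ⟨a6, h⟩ := cnd_and h
  obtain ⟨a7, h⟩ := cnd_and h
  obtain ⟨a8, h⟩ := cnd_and h
  obtain ⟨a9, h⟩ := cnd_and h
  obtain ⟨a10, a11⟩ := cnd_and h
  interval_cases k
  · exact inv1_spec hm hy (k := 0) (by norm_num) a0
  · exact inv1_spec hm hy (k := 1) (by norm_num) a1
  · exact inv1_spec hm hy (k := 2) (by norm_num) a2
  · exact inv1_spec hm hy (k := 3) (by norm_num) a3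
  · exact inv1_spec hm hy (k := 4) (by norm_num) a4
  · exact inv1_spec hm hy (k := 5) (by norm_num) a5
  · exact inv1_spec hm hy (k := 6) (by norm_num) a6
  · exact inv1_spec hm hy (k := 7) (by norm_num) a7
  · exact inv1_spec hm hy (k := 8) (by norm_num) a8
  · exact inv1_spec hm hy (k := 9) (by norm_num) a9
  · exact inv1_spec hm hy (k := 10) (by norm_num) a10
  · exact inv1_spec hm hy (k := 11) (by norm_num) a11

theorem inv_spec {m m' : ℕ} (hm : m < 1024) {g : ℕ → ℕ} {y : ℕ} (hy : y = enc 640 10 (fun f => rc m' (g f)))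
    (h : inv (DV m) y = true) {k : ℕ} (hk : k < 12) : Rk m m' g k := by
  unfold inv at h
  exact inv0_spec hm hy (cnd_and h).2 hk

theorem inv14_spec {m m' : ℕ} (hm : m < 1024) {g : ℕ → ℕ} {y : ℕ} (hy : y = enc 640 10 (fun f => rc m' (g f)))
    (h : inv (DV m) y = true) {f : ℕ} (hf : f < 1024) : ec m f 14 = ec m' (g f) 14 := by
  unfold inv at h
  have h1 := Nat.eq_of_beq_eq_true (cnd_and h).1
  have ex : kN (DV m) 560 = enc 640 10 (fun f => ec m f 14) := kN_DV (k := 14) hm (by norm_num)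
  have ey : kN y 560 = enc 640 10 (fun f => ec m' (g f) 14) := by
    rw [hy, show (560 : ℕ) = 40 * 14 from rfl, kN_eq (fun i _ => rc_lt _ _) (by omega)]; rfl
  rw [ex, ey] at h1
  exact enc_inj10 (f := fun f => ec m f 14) (g := fun f => ec m' (g f) 14) (fun i => ec_lt' _ _ _) (fun i => ec_lt' _ _ _) h1 hf

end

end Pool.Agent.T2H13.B7
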