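import Pool.Agent.T2H13.B7.Enc

/-! Exchange of two index bits of a packed vector. -/

set_option autoImplicit false
set_option maxRecDepth 100000
open Finset

namespace Pool.Agent.T2H13.B7

/-- exchange of the bits `p < q` -/
def sb (p q i : ℕ) : ℕ := Nat.sub (Nat.add i (Nat.mul (bt p i) (Nat.sub (Nat.pow 2 q) (Nat.pow 2 p))))
  (Nat.mul (bt q i) (Nat.sub (Nat.pow 2 q) (Nat.pow 2 p)))

theorem bt_eq (k c : ℕ) : bt k c = c / 2 ^ k % 2 := by
  show (c >>> k) % 2 = _
  rw [Nat.shiftRight_eq_div_pow]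

theorem bt_lt {n i : ℕ} (h : i < 2 ^ n) : bt n i = 0 := by
  rw [bt_eq, Nat.div_eq_of_lt h]

theorem bt_add_self {n i : ℕ} (h : i < 2 ^ n) : bt n (2 ^ n + i) = 1 := by
  rw [bt_eq, Nat.add_div_left _ (by positivity), Nat.div_eq_of_lt h]

theorem bt_add {p n : ℕ} (h : p < n) (i : ℕ) : bt p (2 ^ n + i) = bt p i := by
  rw [bt_eq, bt_eq]
  obtain ⟨r, rfl⟩ : ∃ r, n = p + (r + 1) := ⟨n - p - 1, by omega⟩
  rw [pow_add, Nat.mul_add_div (by positivity), pow_succ]
  omega

theorem bt01 (k c : ℕ) : bt k c = 0 ∨ bt k c = 1 := by rw [bt_eq]; omega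

theorem sb_eq (p q i : ℕ) : sb p q i = i + bt p i * (2 ^ q - 2 ^ p) - bt q i * (2 ^ q - 2 ^ p) := rfl

theorem pow_split {p q : ℕ} (h : p < q) : ∃ R, 2 ^ (q - p) = 2 * R ∧ 0 < R ∧ 2 ^ q = 2 ^ p * (2 * R) := by
  refine ⟨2 ^ (q - p - 1), ?_, by positivity, ?_⟩
  · rw [← pow_succ']; congr 1; omega
  · rw [← pow_succ', ← pow_add]; congr 1; omega

theorem keyK {p q k : ℕ} (h : p < q) (h1 : bt p k = 1) (h0 : bt q k = 0) :
    bt p (k + (2 ^ q - 2 ^ p)) = 0 ∧ bt q (k + (2 ^ q - 2 ^ p)) = 1 ∧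
      (k + (2 ^ q - 2 ^ p)) / 2 ^ q = k / 2 ^ q + 1 := by
  obtain ⟨R, hR, hRp, hq⟩ := pow_split h
  have hP : 0 < 2 ^ p := by positivity
  rw [bt_eq] at h1 h0
  have ed : 2 ^ q - 2 ^ p = 2 ^ p * (2 * R - 1) := by
    rw [hq, Nat.mul_sub, mul_one]
  have e1 : (k + (2 ^ q - 2 ^ p)) / 2 ^ p = k / 2 ^ p + (2 * R - 1) := by
    rw [ed, Nat.add_mul_div_left _ _ hP]
  have e2 : ∀ x, x / 2 ^ q = x / 2 ^ p / (2 * R) := fun x => by rw [hq, Nat.div_div_eq_div_mul]
  set a := k / 2 ^ p with ha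
  have hb : a % (2 * R) < 2 * R := Nat.mod_lt _ (by omega)
  have hbm : a % (2 * R) % 2 = a % 2 := Nat.mod_mul_right_mod a 2 R
  have hda := Nat.div_add_mod a (2 * R)
  have e3 : (a + (2 * R - 1)) / (2 * R) = a / (2 * R) + 1 := by
    have : a + (2 * R - 1) = (a % (2 * R) - 1) + (2 * R) * (a / (2 * R) + 1) := by
      rw [mul_add]; omega
    rw [this, Nat.add_mul_div_left _ _ (by omega), Nat.div_eq_of_lt (by omega), Nat.zero_add]
  have e4 : (k + (2 ^ q - 2 ^ p)) / 2 ^ q = k / 2 ^ q + 1 := by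
    rw [e2, e1, e3, e2 k]
  refine ⟨?_, ?_, e4⟩
  · rw [bt_eq, e1]; omega
  · rw [bt_eq, e4]; omega

theorem keyK' {p q k : ℕ} (h : p < q) (h0 : bt p k = 0) (h1 : bt q k = 1) :
    2 ^ q - 2 ^ p ≤ k ∧ bt p (k - (2 ^ q - 2 ^ p)) = 1 ∧ bt q (k - (2 ^ q - 2 ^ p)) = 0 := by
  obtain ⟨R, hR, hRp, hq⟩ := pow_split h
  have hP : 0 < 2 ^ p := by positivity
  rw [bt_eq] at h1 h0
  have hk : 2 ^ q ≤ k := by
    by_contra hlt
    rw [Nat.div_eq_of_lt (by omega)] at h1
    omega
  have hle : 2 ^ q - 2 ^ p ≤ k := by omega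
  have ed : 2 ^ q - 2 ^ p = 2 ^ p * (2 * R - 1) := by
    rw [hq, Nat.mul_sub, mul_one]
  have e1 : (k - (2 ^ q - 2 ^ p)) / 2 ^ p = k / 2 ^ p - (2 * R - 1) := by
    rw [ed, Nat.sub_mul_div]
  have e2 : ∀ x, x / 2 ^ q = x / 2 ^ p / (2 * R) := fun x => by rw [hq, Nat.div_div_eq_div_mul]
  have h1' := h1
  rw [e2] at h1'
  set a := k / 2 ^ p with ha
  have hb : a % (2 * R) < 2 * R := Nat.mod_lt _ (by omega)
  have hbm : a % (2 * R) % 2 = a % 2 := Nat.mod_mul_right_mod a 2 R
  have hda := Nat.div_add_mod a (2 * R)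
  have hc : 1 ≤ a / (2 * R) := Nat.pos_of_ne_zero fun h0 => by rw [h0] at h1'; omega
  obtain ⟨c, hc'⟩ : ∃ c, a / (2 * R) = c + 1 := ⟨a / (2 * R) - 1, by omega⟩
  rw [hc', mul_add] at hda
  have e3 : (a - (2 * R - 1)) / (2 * R) = c := by
    have : a - (2 * R - 1) = (a % (2 * R) + 1) + (2 * R) * c := by omega
    rw [this, Nat.add_mul_div_left _ _ (by omega), Nat.div_eq_of_lt (by omega), Nat.zero_add]
  refine ⟨hle, ?_, ?_⟩
  · rw [bt_eq, e1]; omega
  · rw [bt_eq, e2, e1, e3]; omega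

theorem sb_lt {p q n i : ℕ} (h : p < q) (hq : q < n) (hi : i < 2 ^ n) : sb p q i < 2 ^ n := by
  rw [sb_eq]
  rcases bt01 p i with h0 | h0 <;> rcases bt01 q i with h1 | h1 <;> rw [h0, h1]
  · omega
  · omega
  · obtain ⟨-, -, h3⟩ := keyK h h0 h1
    have hQ : 0 < 2 ^ q := by positivity
    obtain ⟨r, rfl⟩ : ∃ r, n = q + (r + 1) := ⟨n - q - 1, by omega⟩
    have e : 2 ^ (q + (r + 1)) = 2 ^ q * (2 * 2 ^ r) := by rw [pow_add, pow_succ']
    rw [e] at hi ⊢
    rw [one_mul, zero_mul, Nat.sub_zero]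
    rw [Nat.mul_comm] at hi ⊢
    rw [← Nat.div_lt_iff_lt_mul hQ] at hi ⊢
    rw [h3]
    rw [bt_eq] at h1
    omega
  · omega

/-- the mask -/
def mf (s p q n i : ℕ) : ℕ := if (p < n → bt p i = 1) ∧ (q < n → bt q i = 0) then 2 ^ s - 1 else 0

theorem mk_eq (s : ℕ) {p q : ℕ} (h : p < q) (n : ℕ) : mk s p q n = enc s n (mf s p q n) := by
  induction n with
  | zero =>
    rw [enc_zero]
    simp [mf, mk]
  | succ n ih =>
    have e : mk s p q (n + 1) = cnd (Nat.beq n p) (Nat.shiftLeft (mk s p q n) (Nat.mul s (Nat.pow 2 n)))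
      (cnd (Nat.beq n q) (mk s p q n) (Nat.add (mk s p q n) (Nat.shiftLeft (mk s p q n) (Nat.mul s (Nat.pow 2 n))))) := rfl
    have esh : ∀ x, Nat.shiftLeft x (Nat.mul s (Nat.pow 2 n)) = x * 2 ^ (s * 2 ^ n) := fun x => Nat.shiftLeft_eq _ _
    have hz : ∀ g : ℕ → ℕ, (∀ i < 2 ^ n, g i = 0) → enc s n g = 0 := fun g hg => by
      unfold enc
      exact sum_eq_zero fun i hi => by rw [hg i (mem_range.mp hi), zero_mul]
    rw [e, esh, enc_succ, ih]
    by_cases hp : n = p
    · subst hp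
      have : Nat.beq n n = true := Nat.beq_refl n
      rw [this]
      show enc s n (mf s n q n) * 2 ^ (s * 2 ^ n) = _
      rw [hz (mf s n q (n + 1)) fun i hi => ?_, zero_add]
      · congr 1
        refine enc_congr fun i hi => ?_
        unfold mf
        rw [if_pos ⟨fun h => absurd h (lt_irrefl _), fun h' => absurd h' (by omega)⟩,
          if_pos ⟨fun _ => bt_add_self hi, fun h' => absurd h' (by omega)⟩]
      · unfold mf
        rw [if_neg]
        rintro ⟨h1, -⟩
        have := h1 (by omega)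
        rw [bt_lt hi] at this
        omega
    · have hb : Nat.beq n p = false := by
        rw [← Bool.not_eq_true]; exact fun hh => hp (Nat.eq_of_beq_eq_true hh)
      rw [hb]
      show cnd (Nat.beq n q) _ _ = _
      by_cases hq : n = q
      · subst hq
        have : Nat.beq n n = true := Nat.beq_refl n
        rw [this]
        show enc s n (mf s p n n) = _
        rw [hz (fun i => mf s p n (n + 1) (2 ^ n + i)) fun i hi => ?_, zero_mul, add_zero]
        · refine enc_congr fun i hi => ?_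
          unfold mf
          have h0 := bt_lt hi
          refine if_congr ⟨fun ⟨h1, _⟩ => ⟨fun _ => h1 h, fun _ => h0⟩,
            fun ⟨h1, _⟩ => ⟨fun _ => h1 (by omega), fun h' => absurd h' (lt_irrefl _)⟩⟩ rfl rfl
        · unfold mf
          rw [if_neg]
          rintro ⟨-, h1⟩
          have := h1 (by omega)
          rw [bt_add_self hi] at this
          omega
      · have hb' : Nat.beq n q = false := by
          rw [← Bool.not_eq_true]; exact fun hh => hq (Nat.eq_of_beq_eq_true hh)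
        rw [hb']
        show enc s n (mf s p q n) + enc s n (mf s p q n) * 2 ^ (s * 2 ^ n) = _
        have ep : ∀ j, (p < n + 1 → bt p j = 1) ↔ (p < n → bt p j = 1) := fun j =>
          ⟨fun h1 h2 => h1 (by omega), fun h1 h2 => h1 (by omega)⟩
        have eq : ∀ j, (q < n + 1 → bt q j = 0) ↔ (q < n → bt q j = 0) := fun j =>
          ⟨fun h1 h2 => h1 (by omega), fun h1 h2 => h1 (by omega)⟩
        congr 1
        · refine enc_congr fun i _ => ?_
          unfold mf
          exact if_congr (and_congr (ep i).symm (eq i).symm) rfl rfl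
        · congr 1
          refine enc_congr fun i _ => ?_
          unfold mf
          refine if_congr ((and_congr ?_ ?_).trans (and_congr (ep _).symm (eq _).symm)) rfl rfl
          · exact ⟨fun h1 h => by rw [bt_add h]; exact h1 h, fun h1 h => by rw [← bt_add h i]; exact h1 h⟩
          · exact ⟨fun h1 h => by rw [bt_add h]; exact h1 h, fun h1 h => by rw [← bt_add h i]; exact h1 h⟩

theorem mf_lt (s p q n i : ℕ) : mf s p q n i < 2 ^ s := by
  unfold mf
  have : 0 < 2 ^ s := by positivity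
  split_ifs <;> omega

theorem mf_testBit {s p q n i j : ℕ} (hj : j < s) : (mf s p q n i).testBit j
    = decide ((p < n → bt p i = 1) ∧ (q < n → bt q i = 0)) := by
  unfold mf
  split_ifs with h
  · rw [Nat.testBit_two_pow_sub_one, decide_eq_true hj, decide_eq_true h]
  · rw [Nat.zero_testBit, decide_eq_false h]

theorem sw_testBit (m s x t : ℕ) : (sw m s x).testBit t = (x.testBit t ^^
    (((x.testBit (s + t) ^^ x.testBit t) && m.testBit t) ^^
      (decide (t ≥ s) && ((x.testBit (s + (t - s)) ^^ x.testBit (t - s)) && m.testBit (t - s))))) := by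
  show (x ^^^ ((((x >>> s) ^^^ x) &&& m) ^^^ ((((x >>> s) ^^^ x) &&& m) <<< s))).testBit t = _
  rw [Nat.testBit_xor, Nat.testBit_xor, Nat.testBit_shiftLeft, Nat.testBit_and, Nat.testBit_and,
    Nat.testBit_xor, Nat.testBit_xor, Nat.testBit_shiftRight, Nat.testBit_shiftRight]

theorem swp_enc {s n p q : ℕ} (hs : 0 < s) (h : p < q) (hq : q < n) {f : ℕ → ℕ} (hf : ∀ i < 2 ^ n, f i < 2 ^ s) :
    swp s n p q (enc s n f) = enc s n (fun i => f (sb p q i)) := by
  refine Nat.eq_of_testBit_eq fun t => ?_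
  unfold swp
  rw [mk_eq s h, sw_testBit]
  show _ = (enc s n (fun i => f (sb p q i))).testBit t
  rw [enc_testBit hs (f := fun i => f (sb p q i)) fun i hi => hf _ (sb_lt h hq hi)]
  have ed : Nat.mul s (Nat.sub (Nat.pow 2 q) (Nat.pow 2 p)) = s * (2 ^ q - 2 ^ p) := rfl
  rw [ed]
  set δ := 2 ^ q - 2 ^ p with hδ
  have ex := enc_testBit hs (n := n) (f := f) hf
  have em := enc_testBit hs (n := n) (f := mf s p q n) (fun i _ => mf_lt _ _ _ _ _)
  have e1 : (s * δ + t) / s = t / s + δ := by rw [Nat.mul_add_div hs, add_comm]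
  have e2 : (s * δ + t) % s = t % s := by rw [Nat.mul_add_mod]
  have hj : t % s < s := Nat.mod_lt _ hs
  set i := t / s with hi'
  set j := t % s with hj'
  have hM : ∀ k, (mf s p q n k).testBit j = decide (bt p k = 1 ∧ bt q k = 0) := fun k => by
    rw [mf_testBit hj]
    exact decide_eq_decide.mpr ⟨fun ⟨h1, h2⟩ => ⟨h1 (by omega), h2 hq⟩, fun ⟨h1, h2⟩ => ⟨fun _ => h1, fun _ => h2⟩⟩
  -- the third part
  have h3 : (decide (t ≥ s * δ) && (((enc s n f).testBit (s * δ + (t - s * δ)) ^^ (enc s n f).testBit (t - s * δ)) &&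
      (enc s n (mf s p q n)).testBit (t - s * δ)))
      = (decide (i < 2 ^ n ∧ bt p i = 0 ∧ bt q i = 1) && ((f i).testBit j ^^ (f (i - δ)).testBit j)) := by
    by_cases ht : s * δ ≤ t
    · have hk1 : (t - s * δ) / s = i - δ := by rw [Nat.sub_mul_div]
      have hk2 : (t - s * δ) % s = j := Nat.sub_mul_mod ht
      have hid : δ ≤ i := (Nat.le_div_iff_mul_le hs).mpr (by rw [mul_comm]; exact ht)
      rw [decide_eq_true ht, Bool.true_and, em, hk1, hk2, hM, ex, ex, hk1, hk2]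
      have e3 : s * δ + (t - s * δ) = t := by omega
      rw [e3]
      by_cases hc : i < 2 ^ n ∧ bt p i = 0 ∧ bt q i = 1
      · obtain ⟨hin, hp0, hq1⟩ := hc
        obtain ⟨-, k1, k2⟩ := keyK' h hp0 hq1
        rw [decide_eq_true (show i - δ < 2 ^ n by omega), decide_eq_true (show i < 2 ^ n ∧ bt p i = 0 ∧ bt q i = 1 from ⟨hin, hp0, hq1⟩),
          decide_eq_true (show bt p (i - δ) = 1 ∧ bt q (i - δ) = 0 from ⟨k1, k2⟩), ← hi', ← hj', decide_eq_true hin]
        simp
      · rw [decide_eq_false hc, Bool.false_and]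
        have : (decide (i - δ < 2 ^ n) && decide (bt p (i - δ) = 1 ∧ bt q (i - δ) = 0)) = false := by
          by_contra hne
          rw [Bool.not_eq_false, Bool.and_eq_true, decide_eq_true_eq, decide_eq_true_eq] at hne
          obtain ⟨hlt, hp1, hq0⟩ := hne
          obtain ⟨k1, k2, -⟩ := keyK h hp1 hq0
          have hsl := sb_lt h hq hlt
          rw [sb_eq, hp1, hq0, one_mul, zero_mul, Nat.sub_zero] at hsl
          rw [← hδ, Nat.sub_add_cancel hid] at k1 k2 hsl
          exact hc ⟨hsl, k1, k2⟩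
        rw [this, Bool.and_false]
    · rw [decide_eq_false ht, Bool.false_and]
      have : ¬ (i < 2 ^ n ∧ bt p i = 0 ∧ bt q i = 1) := by
        rintro ⟨-, hp0, hq1⟩
        obtain ⟨hle, -, -⟩ := keyK' h hp0 hq1
        apply ht
        rw [mul_comm]
        exact (Nat.le_div_iff_mul_le hs).mp hle
      rw [decide_eq_false this, Bool.false_and]
  rw [h3, ex, ex, em, e1, e2, ← hi', ← hj', hM]
  by_cases hin : i < 2 ^ n
  · rw [sb_eq, ← hδ]
    rcases bt01 p i with h0 | h0 <;> rcases bt01 q i with h1 | h1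
    · simp [h0, h1, hin]
    · simp [h0, h1, hin]
    · have hsl := sb_lt h hq hin
      rw [sb_eq, h0, h1, one_mul, zero_mul, Nat.sub_zero, ← hδ] at hsl
      simp only [h0, h1, hin, hsl, decide_true, Bool.true_and, one_mul, zero_mul, Nat.sub_zero, and_self,
        Bool.and_true, one_ne_zero, and_false, false_and, decide_false, Bool.false_and, Bool.xor_false, zero_ne_one]
      cases (f i).testBit j <;> cases (f (i + δ)).testBit j <;> rfl
    · simp [h0, h1, hin]
  · have : ¬ (i + δ < 2 ^ n) := by omega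
    simp [hin]

end Pool.Agent.T2H13.B7
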