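import Pool.Agent.T2H13.B7.D0
import Pool.Agent.T2H13.B7.D1
import Pool.Agent.T2H13.B7.D2
import Pool.Agent.T2H13.B7.D3
import Pool.Agent.T2H13.B7.D4
import Pool.Agent.T2H13.B7.D5
import Pool.Agent.T2H13.B7.D6
import Pool.Agent.T2H13.B7.D7
import Pool.Agent.T2H13.B7.D8
import Pool.Agent.T2H13.B7.Small

/-! Tables of vectors. -/

set_option autoImplicit false
set_option maxRecDepth 100000

namespace Pool.Agent.T2H13.B7

noncomputable section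

def D0 : ℕ := (j2 327680 (j2 163840 (j2 81920 (j2 40960 (j2 20480 (j2 10240 d0_0 d0_1) (j2 10240 d0_2 d0_3)) (j2 20480 (j2 10240 d0_4 d0_5) (j2 10240 d0_6 d0_7))) (j2 40960 (j2 20480 (j2 10240 d0_8 d0_9) (j2 10240 d0_10 d0_11)) (j2 20480 (j2 10240 d0_12 d0_13) (j2 10240 d0_14 d0_15)))) (j2 81920 (j2 40960 (j2 20480 (j2 10240 d0_16 d0_17) (j2 10240 d0_18 d0_19)) (j2 20480 (j2 10240 d0_20 d0_21) (j2 10240 d0_22 d0_23))) (j2 40960 (j2 20480 (j2 10240 d0_24 d0_25) (j2 10240 d0_26 d0_27)) (j2 20480 (j2 10240 d0_28 d0_29) (j2 10240 d0_30 d0_31))))) (j2 163840 (j2 81920 (j2 40960 (j2 20480 (j2 10240 d0_32 d0_33) (j2 10240 d0_34 d0_35)) (j2 20480 (j2 10240 d0_36 d0_37) (j2 10240 d0_38 d0_39))) (j2 40960 (j2 20480 (j2 10240 d0_40 d0_41) (j2 10240 d0_42 d0_43)) (j2 20480 (j2 10240 d0_44 d0_45) (j2 10240 d0_46 d0_47)))) (j2 81920 (j2 40960 (j2 20480 (j2 10240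 d0_48 d0_49) (j2 10240 d0_50 d0_51)) (j2 20480 (j2 10240 d0_52 d0_53) (j2 10240 d0_54 d0_55))) (j2 40960 (j2 20480 (j2 10240 d0_56 d0_57) (j2 10240 d0_58 d0_59)) (j2 20480 (j2 10240 d0_60 d0_61) (j2 10240 d0_62 d0_63))))))
def D1 : ℕ := (j2 327680 (j2 163840 (j2 81920 (j2 40960 (j2 20480 (j2 10240 d1_0 d1_1) (j2 10240 d1_2 d1_3)) (j2 20480 (j2 10240 d1_4 d1_5) d1_6)) (j2 40960 (j2 20480 (j2 10240 d1_8 d1_9) (j2 10240 d1_10 d1_11)) (j2 20480 (j2 10240 d1_12 d1_13) d1_14))) (j2 81920 (j2 40960 (j2 20480 (j2 10240 d1_16 d1_17) (j2 10240 d1_18 d1_19)) (j2 20480 (j2 10240 d1_20 d1_21) d1_22)) (j2 40960 (j2 20480 (j2 10240 d1_24 d1_25) (j2 10240 d1_26 d1_27)) (j2 20480 (j2 10240 d1_28 d1_29) d1_30)))) (j2 163840 (j2 81920 (j2 40960 (j2 20480 (j2 10240 d1_32 d1_33) (j2 10240 d1_34 d1_35)) (j2 20480 (j2 10240 d1_36 d1_37) d1_38)) (j2 40960 (j2 20480 (j2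 10240 d1_40 d1_41) (j2 10240 d1_42 d1_43)) (j2 20480 (j2 10240 d1_44 d1_45) d1_46))) (j2 81920 (j2 40960 (j2 20480 (j2 10240 d1_48 d1_49) (j2 10240 d1_50 d1_51)) (j2 20480 (j2 10240 d1_52 d1_53) d1_54)) (j2 40960 (j2 20480 (j2 10240 d1_56 d1_57) (j2 10240 d1_58 d1_59)) (j2 20480 (j2 10240 d1_60 d1_61) d1_62)))))
def D2 : ℕ := (j2 327680 (j2 163840 (j2 81920 (j2 40960 (j2 20480 (j2 10240 d2_0 d2_1) (j2 10240 d2_2 d2_3)) (j2 20480 (j2 10240 d2_4 d2_5) d2_6)) (j2 40960 (j2 20480 (j2 10240 d2_8 d2_9) (j2 10240 d2_10 d2_11)) (j2 20480 (j2 10240 d2_12 d2_13) d2_14))) (j2 81920 (j2 40960 (j2 20480 (j2 10240 d2_16 d2_17) (j2 10240 d2_18 d2_19)) (j2 20480 (j2 10240 d2_20 d2_21) d2_22)) (j2 40960 (j2 20480 d2_24 d2_26) (j2 20480 d2_28 d2_30)))) (j2 163840 (j2 81920 (j2 40960 (j2 20480 (j2 10240 d2_32 d2_33) (j2 10240 d2_34 d2_35)) (j2 20480 (j2 10240 d2_36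 d2_37) d2_38)) (j2 40960 (j2 20480 (j2 10240 d2_40 d2_41) (j2 10240 d2_42 d2_43)) (j2 20480 (j2 10240 d2_44 d2_45) d2_46))) (j2 81920 (j2 40960 (j2 20480 (j2 10240 d2_48 d2_49) (j2 10240 d2_50 d2_51)) (j2 20480 (j2 10240 d2_52 d2_53) d2_54)) (j2 40960 (j2 20480 d2_56 d2_58) (j2 20480 d2_60 d2_62)))))
def D3 : ℕ := (j2 327680 (j2 163840 (j2 81920 (j2 40960 (j2 20480 (j2 10240 d3_0 d3_1) (j2 10240 d3_2 d3_3)) (j2 20480 (j2 10240 d3_4 d3_5) d3_6)) (j2 40960 (j2 20480 (j2 10240 d3_8 d3_9) (j2 10240 d3_10 d3_11)) (j2 20480 (j2 10240 d3_12 d3_13) d3_14))) (j2 81920 (j2 40960 (j2 20480 (j2 10240 d3_16 d3_17) (j2 10240 d3_18 d3_19)) (j2 20480 (j2 10240 d3_20 d3_21) d3_22)) (j2 40960 (j2 20480 d3_24 d3_26) (j2 20480 d3_28 d3_30)))) (j2 163840 (j2 81920 (j2 40960 (j2 20480 (j2 10240 d3_32 d3_33) (j2 10240 d3_34 d3_35)) (j2 20480 (j2 10240 d3_36 d3_37) d3_38))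 (j2 40960 (j2 10240 d3_40 d3_41) (j2 10240 d3_44 d3_45))) (j2 81920 (j2 40960 (j2 20480 (j2 10240 d3_48 d3_49) (j2 10240 d3_50 d3_51)) (j2 20480 (j2 10240 d3_52 d3_53) d3_54)) (j2 40960 d3_56 d3_60))))
def D4 : ℕ := (j2 327680 (j2 163840 (j2 81920 (j2 40960 (j2 20480 (j2 10240 d4_0 d4_1) (j2 10240 d4_2 d4_3)) (j2 20480 (j2 10240 d4_4 d4_5) (j2 10240 d4_6 d4_7))) (j2 40960 (j2 20480 (j2 10240 d4_8 d4_9) (j2 10240 d4_10 d4_11)) (j2 20480 (j2 10240 d4_12 d4_13) (j2 10240 d4_14 d4_15)))) (j2 81920 (j2 40960 (j2 20480 (j2 10240 d4_16 d4_17) (j2 10240 d4_18 d4_19)) (j2 20480 (j2 10240 d4_20 d4_21) (j2 10240 d4_22 d4_23))) (j2 40960 (j2 20480 (j2 10240 d4_24 d4_25) (j2 10240 d4_26 d4_27)) (j2 20480 (j2 10240 d4_28 d4_29) (j2 10240 d4_30 d4_31))))) (j2 163840 (j2 81920 (j2 40960 (j2 20480 (j2 10240 d4_32 d4_33) (j2 10240 d4_34 d4_35)) (j2 20480 (j2 10240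 d4_36 d4_37) (j2 10240 d4_38 d4_39))) (j2 40960 (j2 20480 (j2 10240 d4_40 d4_41) (j2 10240 d4_42 d4_43)) (j2 20480 (j2 10240 d4_44 d4_45) (j2 10240 d4_46 d4_47)))) (j2 81920 (j2 40960 (j2 20480 (j2 10240 d4_48 d4_49) (j2 10240 d4_50 d4_51)) (j2 20480 (j2 10240 d4_52 d4_53) (j2 10240 d4_54 d4_55))) (j2 40960 (j2 20480 (j2 10240 d4_56 d4_57) (j2 10240 d4_58 d4_59)) (j2 20480 (j2 10240 d4_60 d4_61) (j2 10240 d4_62 d4_63))))))
def D5 : ℕ := (j2 327680 (j2 163840 (j2 81920 (j2 40960 (j2 20480 (j2 10240 d5_0 d5_1) (j2 10240 d5_2 d5_3)) (j2 20480 (j2 10240 d5_4 d5_5) d5_6)) (j2 40960 (j2 20480 (j2 10240 d5_8 d5_9) (j2 10240 d5_10 d5_11)) (j2 20480 (j2 10240 d5_12 d5_13) d5_14))) (j2 81920 (j2 40960 (j2 20480 (j2 10240 d5_16 d5_17) (j2 10240 d5_18 d5_19)) (j2 20480 (j2 10240 d5_20 d5_21) d5_22)) (j2 40960 (j2 20480 (j2 10240 d5_24 d5_25) (j2 10240 d5_26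 d5_27)) (j2 20480 (j2 10240 d5_28 d5_29) d5_30)))) (j2 163840 (j2 81920 (j2 40960 (j2 20480 (j2 10240 d5_32 d5_33) (j2 10240 d5_34 d5_35)) (j2 20480 (j2 10240 d5_36 d5_37) d5_38)) (j2 40960 (j2 20480 (j2 10240 d5_40 d5_41) (j2 10240 d5_42 d5_43)) (j2 20480 (j2 10240 d5_44 d5_45) d5_46))) (j2 81920 (j2 40960 (j2 20480 (j2 10240 d5_48 d5_49) (j2 10240 d5_50 d5_51)) (j2 20480 (j2 10240 d5_52 d5_53) d5_54)) (j2 40960 (j2 20480 (j2 10240 d5_56 d5_57) (j2 10240 d5_58 d5_59)) (j2 20480 (j2 10240 d5_60 d5_61) d5_62)))))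
def D6 : ℕ := (j2 327680 (j2 163840 (j2 81920 (j2 40960 (j2 20480 (j2 10240 d6_0 d6_1) (j2 10240 d6_2 d6_3)) (j2 20480 (j2 10240 d6_4 d6_5) d6_6)) (j2 40960 (j2 20480 (j2 10240 d6_8 d6_9) (j2 10240 d6_10 d6_11)) (j2 20480 (j2 10240 d6_12 d6_13) d6_14))) (j2 81920 (j2 40960 (j2 20480 (j2 10240 d6_16 d6_17) (j2 10240 d6_18 d6_19)) (j2 20480 (j2 10240 d6_20 d6_21) d6_22)) (j2 40960 (j2 20480 d6_24 d6_26) (j2 20480 d6_28 d6_30)))) (j2 163840 (j2 81920 (j2 40960 (j2 20480 (j2 10240 d6_32 d6_33) (j2 10240 d6_34 d6_35)) (j2 20480 (j2 10240 d6_36 d6_37) d6_38)) (j2 40960 (j2 20480 (j2 10240 d6_40 d6_41) (j2 10240 d6_42 d6_43)) (j2 20480 (j2 10240 d6_44 d6_45) d6_46))) (j2 81920 (j2 40960 (j2 20480 (j2 10240 d6_48 d6_49) (j2 10240 d6_50 d6_51)) (j2 20480 (j2 10240 d6_52 d6_53) d6_54)) (j2 40960 (j2 20480 d6_56 d6_58) (j2 20480 d6_60 d6_62)))))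
def D7 : ℕ := (j2 327680 (j2 163840 (j2 81920 (j2 40960 (j2 20480 (j2 10240 d7_0 d7_1) (j2 10240 d7_2 d7_3)) (j2 20480 (j2 10240 d7_4 d7_5) (j2 10240 d7_6 d7_7))) (j2 40960 (j2 20480 (j2 10240 d7_8 d7_9) (j2 10240 d7_10 d7_11)) (j2 20480 (j2 10240 d7_12 d7_13) (j2 10240 d7_14 d7_15)))) (j2 81920 (j2 40960 (j2 20480 (j2 10240 d7_16 d7_17) (j2 10240 d7_18 d7_19)) (j2 20480 (j2 10240 d7_20 d7_21) (j2 10240 d7_22 d7_23))) (j2 40960 (j2 20480 (j2 10240 d7_24 d7_25) (j2 10240 d7_26 d7_27)) (j2 20480 (j2 10240 d7_28 d7_29) (j2 10240 d7_30 d7_31))))) (j2 163840 (j2 81920 (j2 40960 (j2 20480 (j2 10240 d7_32 d7_33) (j2 10240 d7_34 d7_35)) (j2 20480 (j2 10240 d7_36 d7_37) (j2 10240 d7_38 d7_39))) (j2 40960 (j2 10240 d7_40 d7_41) (j2 10240 d7_44 d7_45))) (j2 81920 (j2 40960 (j2 20480 (j2 10240 d7_48 d7_49) (j2 10240 d7_50 d7_51)) (j2 20480 (j2 10240 d7_52 d7_53)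 (j2 10240 d7_54 d7_55))) (j2 40960 (j2 10240 d7_56 d7_57) (j2 10240 d7_60 d7_61)))))
def D8 : ℕ := (j2 327680 (j2 163840 (j2 81920 (j2 40960 (j2 20480 (j2 10240 d8_0 d8_1) (j2 10240 d8_2 d8_3)) (j2 20480 (j2 10240 d8_4 d8_5) d8_6)) (j2 40960 (j2 20480 (j2 10240 d8_8 d8_9) (j2 10240 d8_10 d8_11)) (j2 20480 (j2 10240 d8_12 d8_13) d8_14))) (j2 81920 (j2 40960 (j2 20480 (j2 10240 d8_16 d8_17) (j2 10240 d8_18 d8_19)) (j2 20480 (j2 10240 d8_20 d8_21) d8_22)) (j2 40960 (j2 20480 (j2 10240 d8_24 d8_25) (j2 10240 d8_26 d8_27)) (j2 20480 (j2 10240 d8_28 d8_29) d8_30)))) (j2 163840 (j2 81920 (j2 40960 (j2 20480 (j2 10240 d8_32 d8_33) (j2 10240 d8_34 d8_35)) (j2 20480 (j2 10240 d8_36 d8_37) d8_38)) (j2 40960 (j2 10240 d8_40 d8_41) (j2 10240 d8_44 d8_45))) (j2 81920 (j2 40960 (j2 20480 (j2 10240 d8_48 d8_49) (j2 10240 d8_50 d8_51)) (j2 20480 (j2 10240 d8_52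 d8_53) d8_54)) (j2 40960 (j2 10240 d8_56 d8_57) (j2 10240 d8_60 d8_61)))))
def D9 : ℕ := (j2 327680 (j2 163840 (j2 81920 (j2 40960 (j2 20480 (j2 10240 d9_0 d9_1) (j2 10240 d9_2 d9_3)) (j2 20480 (j2 10240 d9_4 d9_5) d9_6)) (j2 40960 (j2 20480 (j2 10240 d9_8 d9_9) (j2 10240 d9_10 d9_11)) (j2 20480 (j2 10240 d9_12 d9_13) d9_14))) (j2 81920 (j2 40960 (j2 20480 (j2 10240 d9_16 d9_17) (j2 10240 d9_18 d9_19)) (j2 20480 (j2 10240 d9_20 d9_21) d9_22)) (j2 40960 (j2 20480 d9_24 d9_26) (j2 20480 d9_28 d9_30)))) (j2 163840 (j2 81920 (j2 40960 (j2 20480 (j2 10240 d9_32 d9_33) (j2 10240 d9_34 d9_35)) (j2 20480 (j2 10240 d9_36 d9_37) d9_38)) (j2 40960 (j2 10240 d9_40 d9_41) (j2 10240 d9_44 d9_45))) (j2 81920 (j2 40960 (j2 20480 (j2 10240 d9_48 d9_49) (j2 10240 d9_50 d9_51)) (j2 20480 (j2 10240 d9_52 d9_53) d9_54)) (j2 40960 d9_56 d9_60))))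
def D10 : ℕ := (j2 327680 (j2 163840 (j2 81920 (j2 40960 (j2 20480 (j2 10240 d10_0 d10_1) (j2 10240 d10_2 d10_3)) (j2 20480 (j2 10240 d10_4 d10_5) (j2 10240 d10_6 d10_7))) (j2 40960 (j2 20480 (j2 10240 d10_8 d10_9) (j2 10240 d10_10 d10_11)) (j2 20480 (j2 10240 d10_12 d10_13) (j2 10240 d10_14 d10_15)))) (j2 81920 (j2 40960 (j2 20480 (j2 10240 d10_16 d10_17) (j2 10240 d10_18 d10_19)) (j2 20480 (j2 10240 d10_20 d10_21) (j2 10240 d10_22 d10_23))) (j2 40960 (j2 20480 (j2 10240 d10_24 d10_25) (j2 10240 d10_26 d10_27)) (j2 20480 (j2 10240 d10_28 d10_29) (j2 10240 d10_30 d10_31))))) (j2 163840 (j2 81920 (j2 40960 (j2 20480 (j2 10240 d10_32 d10_33) (j2 10240 d10_34 d10_35)) (j2 20480 (j2 10240 d10_36 d10_37) (j2 10240 d10_38 d10_39))) (j2 40960 (j2 10240 d10_40 d10_41) (j2 10240 d10_44 d10_45))) (j2 81920 (j2 20480 (j2 10240 d10_48 d10_49) (j2 10240 d10_50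 d10_51)) (j2 10240 d10_56 d10_57))))
def D11 : ℕ := (j2 327680 (j2 163840 (j2 81920 (j2 40960 (j2 20480 (j2 10240 d11_0 d11_1) (j2 10240 d11_2 d11_3)) (j2 20480 (j2 10240 d11_4 d11_5) d11_6)) (j2 40960 (j2 20480 (j2 10240 d11_8 d11_9) (j2 10240 d11_10 d11_11)) (j2 20480 (j2 10240 d11_12 d11_13) d11_14))) (j2 81920 (j2 40960 (j2 20480 (j2 10240 d11_16 d11_17) (j2 10240 d11_18 d11_19)) (j2 20480 (j2 10240 d11_20 d11_21) d11_22)) (j2 40960 (j2 20480 (j2 10240 d11_24 d11_25) (j2 10240 d11_26 d11_27)) (j2 20480 (j2 10240 d11_28 d11_29) d11_30)))) (j2 163840 (j2 81920 (j2 40960 (j2 20480 (j2 10240 d11_32 d11_33) (j2 10240 d11_34 d11_35)) (j2 20480 (j2 10240 d11_36 d11_37) d11_38)) (j2 40960 (j2 10240 d11_40 d11_41) (j2 10240 d11_44 d11_45))) (j2 81920 (j2 20480 (j2 10240 d11_48 d11_49) (j2 10240 d11_50 d11_51)) (j2 10240 d11_56 d11_57))))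
def D12 : ℕ := (j2 327680 (j2 163840 (j2 81920 (j2 40960 (j2 20480 (j2 10240 d12_0 d12_1) (j2 10240 d12_2 d12_3)) (j2 20480 (j2 10240 d12_4 d12_5) (j2 10240 d12_6 d12_7))) (j2 40960 (j2 20480 (j2 10240 d12_8 d12_9) (j2 10240 d12_10 d12_11)) (j2 20480 (j2 10240 d12_12 d12_13) (j2 10240 d12_14 d12_15)))) (j2 81920 (j2 40960 (j2 20480 (j2 10240 d12_16 d12_17) (j2 10240 d12_18 d12_19)) (j2 20480 (j2 10240 d12_20 d12_21) (j2 10240 d12_22 d12_23))) (j2 40960 (j2 20480 (j2 10240 d12_24 d12_25) (j2 10240 d12_26 d12_27)) (j2 20480 (j2 10240 d12_28 d12_29) (j2 10240 d12_30 d12_31))))) (j2 163840 (j2 81920 (j2 40960 (j2 20480 (j2 10240 d12_32 d12_33) (j2 10240 d12_34 d12_35)) (j2 20480 (j2 10240 d12_36 d12_37) (j2 10240 d12_38 d12_39))) (j2 40960 (j2 20480 (j2 10240 d12_40 d12_41) (j2 10240 d12_42 d12_43)) (j2 20480 (j2 10240 d12_44 d12_45) (j2 10240 d12_46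 d12_47)))) (j2 81920 (j2 40960 (j2 20480 (j2 10240 d12_48 d12_49) (j2 10240 d12_50 d12_51)) (j2 20480 (j2 10240 d12_52 d12_53) (j2 10240 d12_54 d12_55))) (j2 40960 (j2 20480 (j2 10240 d12_56 d12_57) (j2 10240 d12_58 d12_59)) (j2 20480 (j2 10240 d12_60 d12_61) (j2 10240 d12_62 d12_63))))))
def D13 : ℕ := (j2 327680 (j2 163840 (j2 81920 (j2 40960 (j2 20480 (j2 10240 d13_0 d13_1) (j2 10240 d13_2 d13_3)) (j2 20480 (j2 10240 d13_4 d13_5) d13_6)) (j2 40960 (j2 20480 (j2 10240 d13_8 d13_9) (j2 10240 d13_10 d13_11)) (j2 20480 (j2 10240 d13_12 d13_13) d13_14))) (j2 81920 (j2 40960 (j2 20480 (j2 10240 d13_16 d13_17) (j2 10240 d13_18 d13_19)) (j2 20480 (j2 10240 d13_20 d13_21) d13_22)) (j2 40960 (j2 20480 (j2 10240 d13_24 d13_25) (j2 10240 d13_26 d13_27)) (j2 20480 (j2 10240 d13_28 d13_29) d13_30)))) (j2 163840 (j2 81920 (j2 40960 (j2 20480 (j2 10240 d13_32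 d13_33) (j2 10240 d13_34 d13_35)) (j2 20480 (j2 10240 d13_36 d13_37) d13_38)) (j2 40960 (j2 20480 (j2 10240 d13_40 d13_41) (j2 10240 d13_42 d13_43)) (j2 20480 (j2 10240 d13_44 d13_45) d13_46))) (j2 81920 (j2 40960 (j2 20480 (j2 10240 d13_48 d13_49) (j2 10240 d13_50 d13_51)) (j2 20480 (j2 10240 d13_52 d13_53) d13_54)) (j2 40960 (j2 20480 (j2 10240 d13_56 d13_57) (j2 10240 d13_58 d13_59)) (j2 20480 (j2 10240 d13_60 d13_61) d13_62)))))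
def D14 : ℕ := (j2 327680 (j2 163840 (j2 81920 (j2 40960 (j2 20480 (j2 10240 d14_0 d14_1) (j2 10240 d14_2 d14_3)) (j2 20480 (j2 10240 d14_4 d14_5) (j2 10240 d14_6 d14_7))) (j2 40960 (j2 20480 (j2 10240 d14_8 d14_9) (j2 10240 d14_10 d14_11)) (j2 20480 (j2 10240 d14_12 d14_13) (j2 10240 d14_14 d14_15)))) (j2 81920 (j2 40960 (j2 20480 (j2 10240 d14_16 d14_17) (j2 10240 d14_18 d14_19)) (j2 20480 (j2 10240 d14_20 d14_21) (j2 10240 d14_22 d14_23))) (j2 40960 (j2 20480 d14_24 d14_26) (j2 20480 d14_28 d14_30)))) (j2 163840 (j2 81920 (j2 40960 (j2 20480 (j2 10240 d14_32 d14_33) (j2 10240 d14_34 d14_35)) (j2 20480 (j2 10240 d14_36 d14_37) (j2 10240 d14_38 d14_39))) (j2 40960 (j2 20480 (j2 10240 d14_40 d14_41) (j2 10240 d14_42 d14_43)) (j2 20480 (j2 10240 d14_44 d14_45) (j2 10240 d14_46 d14_47)))) (j2 81920 (j2 40960 (j2 20480 (j2 10240 d14_48 d14_49) (j2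 10240 d14_50 d14_51)) (j2 20480 (j2 10240 d14_52 d14_53) (j2 10240 d14_54 d14_55))) (j2 40960 (j2 20480 d14_56 d14_58) (j2 20480 d14_60 d14_62)))))
def D15 : ℕ := (j2 327680 (j2 163840 (j2 81920 (j2 40960 (j2 20480 (j2 10240 d15_0 d15_1) (j2 10240 d15_2 d15_3)) (j2 20480 (j2 10240 d15_4 d15_5) d15_6)) (j2 40960 (j2 20480 (j2 10240 d15_8 d15_9) (j2 10240 d15_10 d15_11)) (j2 20480 (j2 10240 d15_12 d15_13) d15_14))) (j2 81920 (j2 40960 (j2 20480 (j2 10240 d15_16 d15_17) (j2 10240 d15_18 d15_19)) (j2 20480 (j2 10240 d15_20 d15_21) d15_22)) (j2 40960 (j2 20480 d15_24 d15_26) (j2 20480 d15_28 d15_30)))) (j2 163840 (j2 81920 (j2 40960 (j2 20480 (j2 10240 d15_32 d15_33) (j2 10240 d15_34 d15_35)) (j2 20480 (j2 10240 d15_36 d15_37) d15_38)) (j2 40960 (j2 20480 (j2 10240 d15_40 d15_41) (j2 10240 d15_42 d15_43)) (j2 20480 (j2 10240 d15_44 d15_45) d15_46)))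 (j2 81920 (j2 40960 (j2 20480 (j2 10240 d15_48 d15_49) (j2 10240 d15_50 d15_51)) (j2 20480 (j2 10240 d15_52 d15_53) d15_54)) (j2 40960 (j2 20480 d15_56 d15_58) (j2 20480 d15_60 d15_62)))))
def D16 : ℕ := (j2 327680 (j2 163840 (j2 81920 (j2 40960 (j2 20480 (j2 10240 d16_0 d16_1) (j2 10240 d16_2 d16_3)) (j2 20480 (j2 10240 d16_4 d16_5) (j2 10240 d16_6 d16_7))) (j2 40960 (j2 20480 (j2 10240 d16_8 d16_9) (j2 10240 d16_10 d16_11)) (j2 20480 (j2 10240 d16_12 d16_13) (j2 10240 d16_14 d16_15)))) (j2 81920 (j2 40960 (j2 20480 (j2 10240 d16_16 d16_17) (j2 10240 d16_18 d16_19)) (j2 20480 (j2 10240 d16_20 d16_21) (j2 10240 d16_22 d16_23))) (j2 40960 (j2 20480 d16_24 d16_26) (j2 20480 d16_28 d16_30)))) (j2 163840 (j2 81920 (j2 40960 (j2 20480 (j2 10240 d16_32 d16_33) (j2 10240 d16_34 d16_35)) (j2 20480 (j2 10240 d16_36 d16_37) (j2 10240 d16_38 d16_39))) (j2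 40960 (j2 10240 d16_40 d16_41) (j2 10240 d16_44 d16_45))) (j2 81920 (j2 40960 (j2 20480 (j2 10240 d16_48 d16_49) (j2 10240 d16_50 d16_51)) (j2 20480 (j2 10240 d16_52 d16_53) (j2 10240 d16_54 d16_55))) (j2 40960 d16_56 d16_60))))
def D17 : ℕ := (j2 327680 (j2 163840 (j2 81920 (j2 40960 (j2 20480 (j2 10240 d17_0 d17_1) (j2 10240 d17_2 d17_3)) (j2 20480 (j2 10240 d17_4 d17_5) d17_6)) (j2 40960 (j2 20480 (j2 10240 d17_8 d17_9) (j2 10240 d17_10 d17_11)) (j2 20480 (j2 10240 d17_12 d17_13) d17_14))) (j2 81920 (j2 40960 (j2 20480 (j2 10240 d17_16 d17_17) (j2 10240 d17_18 d17_19)) (j2 20480 (j2 10240 d17_20 d17_21) d17_22)) (j2 40960 (j2 20480 d17_24 d17_26) (j2 20480 d17_28 d17_30)))) (j2 163840 (j2 81920 (j2 40960 (j2 20480 (j2 10240 d17_32 d17_33) (j2 10240 d17_34 d17_35)) (j2 20480 (j2 10240 d17_36 d17_37) d17_38)) (j2 40960 (j2 10240 d17_40 d17_41)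 (j2 10240 d17_44 d17_45))) (j2 81920 (j2 40960 (j2 20480 (j2 10240 d17_48 d17_49) (j2 10240 d17_50 d17_51)) (j2 20480 (j2 10240 d17_52 d17_53) d17_54)) (j2 40960 d17_56 d17_60))))
def D18 : ℕ := (j2 327680 (j2 163840 (j2 81920 (j2 40960 (j2 20480 (j2 10240 d18_0 d18_1) (j2 10240 d18_2 d18_3)) (j2 20480 (j2 10240 d18_4 d18_5) (j2 10240 d18_6 d18_7))) (j2 40960 (j2 20480 (j2 10240 d18_8 d18_9) (j2 10240 d18_10 d18_11)) (j2 20480 (j2 10240 d18_12 d18_13) (j2 10240 d18_14 d18_15)))) (j2 81920 (j2 40960 (j2 20480 (j2 10240 d18_16 d18_17) (j2 10240 d18_18 d18_19)) (j2 20480 (j2 10240 d18_20 d18_21) (j2 10240 d18_22 d18_23))) (j2 40960 (j2 20480 (j2 10240 d18_24 d18_25) (j2 10240 d18_26 d18_27)) (j2 20480 (j2 10240 d18_28 d18_29) (j2 10240 d18_30 d18_31))))) (j2 163840 (j2 81920 (j2 40960 (j2 20480 (j2 10240 d18_32 d18_33) (j2 10240 d18_34 d18_35)) (j2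 20480 (j2 10240 d18_36 d18_37) (j2 10240 d18_38 d18_39))) (j2 40960 (j2 20480 (j2 10240 d18_40 d18_41) (j2 10240 d18_42 d18_43)) (j2 20480 (j2 10240 d18_44 d18_45) (j2 10240 d18_46 d18_47)))) (j2 81920 (j2 20480 (j2 10240 d18_48 d18_49) (j2 10240 d18_50 d18_51)) (j2 20480 (j2 10240 d18_56 d18_57) (j2 10240 d18_58 d18_59)))))
def D19 : ℕ := (j2 327680 (j2 163840 (j2 81920 (j2 40960 (j2 20480 (j2 10240 d19_0 d19_1) (j2 10240 d19_2 d19_3)) (j2 20480 (j2 10240 d19_4 d19_5) d19_6)) (j2 40960 (j2 20480 (j2 10240 d19_8 d19_9) (j2 10240 d19_10 d19_11)) (j2 20480 (j2 10240 d19_12 d19_13) d19_14))) (j2 81920 (j2 40960 (j2 20480 (j2 10240 d19_16 d19_17) (j2 10240 d19_18 d19_19)) (j2 20480 (j2 10240 d19_20 d19_21) d19_22)) (j2 40960 (j2 20480 (j2 10240 d19_24 d19_25) (j2 10240 d19_26 d19_27)) (j2 20480 (j2 10240 d19_28 d19_29) d19_30)))) (j2 163840 (j2 81920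 (j2 40960 (j2 20480 (j2 10240 d19_32 d19_33) (j2 10240 d19_34 d19_35)) (j2 20480 (j2 10240 d19_36 d19_37) d19_38)) (j2 40960 (j2 20480 (j2 10240 d19_40 d19_41) (j2 10240 d19_42 d19_43)) (j2 20480 (j2 10240 d19_44 d19_45) d19_46))) (j2 81920 (j2 20480 (j2 10240 d19_48 d19_49) (j2 10240 d19_50 d19_51)) (j2 20480 (j2 10240 d19_56 d19_57) (j2 10240 d19_58 d19_59)))))
def D20 : ℕ := (j2 327680 (j2 163840 (j2 81920 (j2 40960 (j2 20480 (j2 10240 d20_0 d20_1) (j2 10240 d20_2 d20_3)) (j2 20480 (j2 10240 d20_4 d20_5) (j2 10240 d20_6 d20_7))) (j2 40960 (j2 20480 (j2 10240 d20_8 d20_9) (j2 10240 d20_10 d20_11)) (j2 20480 (j2 10240 d20_12 d20_13) (j2 10240 d20_14 d20_15)))) (j2 81920 (j2 40960 (j2 20480 (j2 10240 d20_16 d20_17) (j2 10240 d20_18 d20_19)) (j2 20480 (j2 10240 d20_20 d20_21) (j2 10240 d20_22 d20_23))) (j2 40960 (j2 20480 d20_24 d20_26) (j2 20480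 d20_28 d20_30)))) (j2 163840 (j2 81920 (j2 40960 (j2 20480 (j2 10240 d20_32 d20_33) (j2 10240 d20_34 d20_35)) (j2 20480 (j2 10240 d20_36 d20_37) (j2 10240 d20_38 d20_39))) (j2 40960 (j2 20480 (j2 10240 d20_40 d20_41) (j2 10240 d20_42 d20_43)) (j2 20480 (j2 10240 d20_44 d20_45) (j2 10240 d20_46 d20_47)))) (j2 81920 (j2 20480 (j2 10240 d20_48 d20_49) (j2 10240 d20_50 d20_51)) (j2 20480 d20_56 d20_58))))
def D21 : ℕ := (j2 327680 (j2 163840 (j2 81920 (j2 40960 (j2 20480 (j2 10240 d21_0 d21_1) (j2 10240 d21_2 d21_3)) (j2 20480 (j2 10240 d21_4 d21_5) d21_6)) (j2 40960 (j2 20480 (j2 10240 d21_8 d21_9) (j2 10240 d21_10 d21_11)) (j2 20480 (j2 10240 d21_12 d21_13) d21_14))) (j2 81920 (j2 40960 (j2 20480 (j2 10240 d21_16 d21_17) (j2 10240 d21_18 d21_19)) (j2 20480 (j2 10240 d21_20 d21_21) d21_22)) (j2 40960 (j2 20480 d21_24 d21_26) (j2 20480 d21_28 d21_30))))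 (j2 163840 (j2 81920 (j2 40960 (j2 20480 (j2 10240 d21_32 d21_33) (j2 10240 d21_34 d21_35)) (j2 20480 (j2 10240 d21_36 d21_37) d21_38)) (j2 40960 (j2 20480 (j2 10240 d21_40 d21_41) (j2 10240 d21_42 d21_43)) (j2 20480 (j2 10240 d21_44 d21_45) d21_46))) (j2 81920 (j2 20480 (j2 10240 d21_48 d21_49) (j2 10240 d21_50 d21_51)) (j2 20480 d21_56 d21_58))))
def D22 : ℕ := (j2 327680 (j2 163840 (j2 81920 (j2 40960 (j2 20480 (j2 10240 d22_0 d22_1) (j2 10240 d22_2 d22_3)) (j2 20480 (j2 10240 d22_4 d22_5) (j2 10240 d22_6 d22_7))) (j2 40960 (j2 20480 (j2 10240 d22_8 d22_9) (j2 10240 d22_10 d22_11)) (j2 20480 (j2 10240 d22_12 d22_13) (j2 10240 d22_14 d22_15)))) (j2 81920 (j2 40960 (j2 20480 (j2 10240 d22_16 d22_17) (j2 10240 d22_18 d22_19)) (j2 20480 (j2 10240 d22_20 d22_21) (j2 10240 d22_22 d22_23))) (j2 40960 (j2 20480 d22_24 d22_26) (j2 20480 d22_28 d22_30))))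 (j2 163840 (j2 81920 (j2 40960 (j2 20480 (j2 10240 d22_32 d22_33) (j2 10240 d22_34 d22_35)) (j2 20480 (j2 10240 d22_36 d22_37) (j2 10240 d22_38 d22_39))) (j2 40960 (j2 10240 d22_40 d22_41) (j2 10240 d22_44 d22_45))) (j2 81920 (j2 20480 (j2 10240 d22_48 d22_49) (j2 10240 d22_50 d22_51)) d22_56)))
def D23 : ℕ := (j2 327680 (j2 163840 (j2 81920 (j2 40960 (j2 20480 (j2 10240 d23_0 d23_1) (j2 10240 d23_2 d23_3)) (j2 20480 (j2 10240 d23_4 d23_5) (j2 10240 d23_6 d23_7))) (j2 40960 (j2 20480 (j2 10240 d23_8 d23_9) (j2 10240 d23_10 d23_11)) (j2 20480 (j2 10240 d23_12 d23_13) (j2 10240 d23_14 d23_15)))) (j2 81920 (j2 40960 (j2 20480 (j2 10240 d23_16 d23_17) (j2 10240 d23_18 d23_19)) (j2 20480 (j2 10240 d23_20 d23_21) (j2 10240 d23_22 d23_23))) (j2 40960 (j2 20480 (j2 10240 d23_24 d23_25) (j2 10240 d23_26 d23_27)) (j2 20480 (j2 10240 d23_28 d23_29) (j2 10240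 d23_30 d23_31))))) (j2 163840 (j2 81920 (j2 40960 (j2 20480 (j2 10240 d23_32 d23_33) (j2 10240 d23_34 d23_35)) (j2 20480 (j2 10240 d23_36 d23_37) (j2 10240 d23_38 d23_39))) (j2 40960 (j2 20480 (j2 10240 d23_40 d23_41) (j2 10240 d23_42 d23_43)) (j2 20480 (j2 10240 d23_44 d23_45) (j2 10240 d23_46 d23_47)))) (j2 81920 (j2 40960 (j2 20480 (j2 10240 d23_48 d23_49) (j2 10240 d23_50 d23_51)) (j2 20480 (j2 10240 d23_52 d23_53) (j2 10240 d23_54 d23_55))) (j2 40960 (j2 20480 (j2 10240 d23_56 d23_57) (j2 10240 d23_58 d23_59)) (j2 20480 (j2 10240 d23_60 d23_61) (j2 10240 d23_62 d23_63))))))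
def D24 : ℕ := (j2 327680 (j2 163840 (j2 81920 (j2 40960 (j2 20480 (j2 10240 d24_0 d24_1) (j2 10240 d24_2 d24_3)) (j2 20480 (j2 10240 d24_4 d24_5) (j2 10240 d24_6 d24_7))) (j2 40960 (j2 20480 (j2 10240 d24_8 d24_9) (j2 10240 d24_10 d24_11)) (j2 20480 (j2 10240 d24_12 d24_13) (j2 10240 d24_14 d24_15)))) (j2 81920 (j2 40960 (j2 20480 (j2 10240 d24_16 d24_17) (j2 10240 d24_18 d24_19)) (j2 20480 (j2 10240 d24_20 d24_21) (j2 10240 d24_22 d24_23))) (j2 40960 (j2 20480 d24_24 d24_26) (j2 20480 d24_28 d24_30)))) (j2 163840 (j2 81920 (j2 40960 (j2 20480 (j2 10240 d24_32 d24_33) (j2 10240 d24_34 d24_35)) (j2 20480 (j2 10240 d24_36 d24_37) (j2 10240 d24_38 d24_39))) (j2 40960 (j2 20480 (j2 10240 d24_40 d24_41) (j2 10240 d24_42 d24_43)) (j2 20480 (j2 10240 d24_44 d24_45) (j2 10240 d24_46 d24_47)))) (j2 81920 (j2 40960 (j2 20480 (j2 10240 d24_48 d24_49) (j2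 10240 d24_50 d24_51)) (j2 20480 (j2 10240 d24_52 d24_53) (j2 10240 d24_54 d24_55))) (j2 40960 (j2 20480 d24_56 d24_58) (j2 20480 d24_60 d24_62)))))
def D25 : ℕ := (j2 327680 (j2 163840 (j2 81920 (j2 40960 (j2 20480 (j2 10240 d25_0 d25_1) (j2 10240 d25_2 d25_3)) (j2 20480 (j2 10240 d25_4 d25_5) (j2 10240 d25_6 d25_7))) (j2 40960 (j2 20480 (j2 10240 d25_8 d25_9) (j2 10240 d25_10 d25_11)) (j2 20480 (j2 10240 d25_12 d25_13) (j2 10240 d25_14 d25_15)))) (j2 81920 (j2 40960 (j2 20480 (j2 10240 d25_16 d25_17) (j2 10240 d25_18 d25_19)) (j2 20480 (j2 10240 d25_20 d25_21) (j2 10240 d25_22 d25_23))) (j2 40960 (j2 20480 d25_24 d25_26) (j2 20480 d25_28 d25_30)))) (j2 163840 (j2 81920 (j2 40960 (j2 20480 (j2 10240 d25_32 d25_33) (j2 10240 d25_34 d25_35)) (j2 20480 (j2 10240 d25_36 d25_37) (j2 10240 d25_38 d25_39))) (j2 40960 (j2 10240 d25_40 d25_41) (j2 10240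 d25_44 d25_45))) (j2 81920 (j2 40960 (j2 20480 (j2 10240 d25_48 d25_49) (j2 10240 d25_50 d25_51)) (j2 20480 (j2 10240 d25_52 d25_53) (j2 10240 d25_54 d25_55))) (j2 40960 d25_56 d25_60))))
def D26 : ℕ := (j2 327680 (j2 163840 (j2 81920 (j2 40960 (j2 20480 (j2 10240 d26_0 d26_1) (j2 10240 d26_2 d26_3)) (j2 20480 (j2 10240 d26_4 d26_5) (j2 10240 d26_6 d26_7))) (j2 40960 (j2 20480 (j2 10240 d26_8 d26_9) (j2 10240 d26_10 d26_11)) (j2 20480 (j2 10240 d26_12 d26_13) (j2 10240 d26_14 d26_15)))) (j2 81920 (j2 40960 (j2 20480 (j2 10240 d26_16 d26_17) (j2 10240 d26_18 d26_19)) (j2 20480 (j2 10240 d26_20 d26_21) (j2 10240 d26_22 d26_23))) (j2 40960 (j2 20480 d26_24 d26_26) (j2 20480 d26_28 d26_30)))) (j2 163840 (j2 81920 (j2 40960 (j2 20480 (j2 10240 d26_32 d26_33) (j2 10240 d26_34 d26_35)) (j2 20480 (j2 10240 d26_36 d26_37) (j2 10240 d26_38 d26_39))) (j2 40960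 (j2 10240 d26_40 d26_41) (j2 10240 d26_44 d26_45))) (j2 81920 (j2 20480 (j2 10240 d26_48 d26_49) (j2 10240 d26_50 d26_51)) d26_56)))
def D27 : ℕ := (j2 327680 (j2 163840 (j2 81920 (j2 40960 (j2 20480 (j2 10240 d27_0 d27_1) (j2 10240 d27_2 d27_3)) (j2 20480 (j2 10240 d27_4 d27_5) (j2 10240 d27_6 d27_7))) (j2 40960 (j2 20480 (j2 10240 d27_8 d27_9) (j2 10240 d27_10 d27_11)) (j2 20480 (j2 10240 d27_12 d27_13) (j2 10240 d27_14 d27_15)))) (j2 81920 (j2 40960 (j2 20480 (j2 10240 d27_16 d27_17) (j2 10240 d27_18 d27_19)) (j2 20480 (j2 10240 d27_20 d27_21) (j2 10240 d27_22 d27_23))) (j2 40960 (j2 20480 (j2 10240 d27_24 d27_25) (j2 10240 d27_26 d27_27)) (j2 20480 (j2 10240 d27_28 d27_29) (j2 10240 d27_30 d27_31))))) (j2 163840 (j2 81920 (j2 40960 (j2 20480 (j2 10240 d27_32 d27_33) (j2 10240 d27_34 d27_35)) (j2 20480 (j2 10240 d27_36 d27_37) (j2 10240 d27_38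 d27_39))) (j2 40960 (j2 20480 (j2 10240 d27_40 d27_41) (j2 10240 d27_42 d27_43)) (j2 20480 (j2 10240 d27_44 d27_45) (j2 10240 d27_46 d27_47)))) (j2 81920 (j2 40960 (j2 20480 (j2 10240 d27_48 d27_49) (j2 10240 d27_50 d27_51)) (j2 20480 (j2 10240 d27_52 d27_53) (j2 10240 d27_54 d27_55))) (j2 40960 (j2 20480 (j2 10240 d27_56 d27_57) (j2 10240 d27_58 d27_59)) (j2 20480 (j2 10240 d27_60 d27_61) (j2 10240 d27_62 d27_63))))))
def D28 : ℕ := (j2 327680 (j2 163840 (j2 81920 (j2 40960 (j2 20480 (j2 10240 d28_0 d28_1) (j2 10240 d28_2 d28_3)) (j2 20480 (j2 10240 d28_4 d28_5) d28_6)) (j2 40960 (j2 20480 (j2 10240 d28_8 d28_9) (j2 10240 d28_10 d28_11)) (j2 20480 (j2 10240 d28_12 d28_13) d28_14))) (j2 81920 (j2 40960 (j2 20480 (j2 10240 d28_16 d28_17) (j2 10240 d28_18 d28_19)) (j2 20480 (j2 10240 d28_20 d28_21) d28_22)) (j2 40960 (j2 20480 (j2 10240 d28_24 d28_25)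 (j2 10240 d28_26 d28_27)) (j2 20480 (j2 10240 d28_28 d28_29) d28_30)))) (j2 163840 (j2 81920 (j2 40960 (j2 20480 (j2 10240 d28_32 d28_33) (j2 10240 d28_34 d28_35)) (j2 20480 (j2 10240 d28_36 d28_37) d28_38)) (j2 40960 (j2 20480 (j2 10240 d28_40 d28_41) (j2 10240 d28_42 d28_43)) (j2 20480 (j2 10240 d28_44 d28_45) d28_46))) (j2 81920 (j2 40960 (j2 20480 (j2 10240 d28_48 d28_49) (j2 10240 d28_50 d28_51)) (j2 20480 (j2 10240 d28_52 d28_53) d28_54)) (j2 40960 (j2 20480 (j2 10240 d28_56 d28_57) (j2 10240 d28_58 d28_59)) (j2 20480 (j2 10240 d28_60 d28_61) d28_62)))))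
def D29 : ℕ := (j2 327680 (j2 163840 (j2 81920 (j2 40960 (j2 20480 (j2 10240 d29_0 d29_1) (j2 10240 d29_2 d29_3)) (j2 20480 (j2 10240 d29_4 d29_5) d29_6)) (j2 40960 (j2 20480 (j2 10240 d29_8 d29_9) (j2 10240 d29_10 d29_11)) (j2 20480 (j2 10240 d29_12 d29_13) d29_14))) (j2 81920 (j2 40960 (j2 20480 (j2 10240 d29_16 d29_17) (j2 10240 d29_18 d29_19)) (j2 20480 (j2 10240 d29_20 d29_21) d29_22)) (j2 40960 (j2 20480 d29_24 d29_26) (j2 20480 d29_28 d29_30)))) (j2 163840 (j2 81920 (j2 40960 (j2 20480 (j2 10240 d29_32 d29_33) (j2 10240 d29_34 d29_35)) (j2 20480 (j2 10240 d29_36 d29_37) d29_38)) (j2 40960 (j2 20480 (j2 10240 d29_40 d29_41) (j2 10240 d29_42 d29_43)) (j2 20480 (j2 10240 d29_44 d29_45) d29_46))) (j2 81920 (j2 40960 (j2 20480 (j2 10240 d29_48 d29_49) (j2 10240 d29_50 d29_51)) (j2 20480 (j2 10240 d29_52 d29_53) d29_54)) (j2 40960 (j2 20480 d29_56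 d29_58) (j2 20480 d29_60 d29_62)))))
def D30 : ℕ := (j2 327680 (j2 163840 (j2 81920 (j2 40960 (j2 20480 (j2 10240 d30_0 d30_1) (j2 10240 d30_2 d30_3)) (j2 20480 (j2 10240 d30_4 d30_5) d30_6)) (j2 40960 (j2 20480 (j2 10240 d30_8 d30_9) (j2 10240 d30_10 d30_11)) (j2 20480 (j2 10240 d30_12 d30_13) d30_14))) (j2 81920 (j2 40960 (j2 20480 (j2 10240 d30_16 d30_17) (j2 10240 d30_18 d30_19)) (j2 20480 (j2 10240 d30_20 d30_21) d30_22)) (j2 40960 (j2 20480 d30_24 d30_26) (j2 20480 d30_28 d30_30)))) (j2 163840 (j2 81920 (j2 40960 (j2 20480 (j2 10240 d30_32 d30_33) (j2 10240 d30_34 d30_35)) (j2 20480 (j2 10240 d30_36 d30_37) d30_38)) (j2 40960 (j2 10240 d30_40 d30_41) (j2 10240 d30_44 d30_45))) (j2 81920 (j2 40960 (j2 20480 (j2 10240 d30_48 d30_49) (j2 10240 d30_50 d30_51)) (j2 20480 (j2 10240 d30_52 d30_53) d30_54)) (j2 40960 d30_56 d30_60))))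
def D31 : ℕ := (j2 327680 (j2 163840 (j2 81920 (j2 40960 (j2 20480 (j2 10240 d31_0 d31_1) (j2 10240 d31_2 d31_3)) (j2 20480 (j2 10240 d31_4 d31_5) (j2 10240 d31_6 d31_7))) (j2 40960 (j2 20480 (j2 10240 d31_8 d31_9) (j2 10240 d31_10 d31_11)) (j2 20480 (j2 10240 d31_12 d31_13) (j2 10240 d31_14 d31_15)))) (j2 81920 (j2 40960 (j2 20480 (j2 10240 d31_16 d31_17) (j2 10240 d31_18 d31_19)) (j2 20480 (j2 10240 d31_20 d31_21) (j2 10240 d31_22 d31_23))) (j2 40960 (j2 20480 (j2 10240 d31_24 d31_25) (j2 10240 d31_26 d31_27)) (j2 20480 (j2 10240 d31_28 d31_29) (j2 10240 d31_30 d31_31))))) (j2 163840 (j2 81920 (j2 40960 (j2 20480 (j2 10240 d31_32 d31_33) (j2 10240 d31_34 d31_35)) (j2 20480 (j2 10240 d31_36 d31_37) (j2 10240 d31_38 d31_39))) (j2 40960 (j2 20480 (j2 10240 d31_40 d31_41) (j2 10240 d31_42 d31_43)) (j2 20480 (j2 10240 d31_44 d31_45) (j2 10240 d31_46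 d31_47)))) (j2 81920 (j2 20480 (j2 10240 d31_48 d31_49) (j2 10240 d31_50 d31_51)) (j2 20480 (j2 10240 d31_56 d31_57) (j2 10240 d31_58 d31_59)))))
def D32 : ℕ := (j2 327680 (j2 163840 (j2 81920 (j2 40960 (j2 20480 (j2 10240 d32_0 d32_1) (j2 10240 d32_2 d32_3)) (j2 20480 (j2 10240 d32_4 d32_5) d32_6)) (j2 40960 (j2 20480 (j2 10240 d32_8 d32_9) (j2 10240 d32_10 d32_11)) (j2 20480 (j2 10240 d32_12 d32_13) d32_14))) (j2 81920 (j2 40960 (j2 20480 (j2 10240 d32_16 d32_17) (j2 10240 d32_18 d32_19)) (j2 20480 (j2 10240 d32_20 d32_21) d32_22)) (j2 40960 (j2 20480 (j2 10240 d32_24 d32_25) (j2 10240 d32_26 d32_27)) (j2 20480 (j2 10240 d32_28 d32_29) d32_30)))) (j2 163840 (j2 81920 (j2 40960 (j2 20480 (j2 10240 d32_32 d32_33) (j2 10240 d32_34 d32_35)) (j2 20480 (j2 10240 d32_36 d32_37) d32_38)) (j2 40960 (j2 20480 (j2 10240 d32_40 d32_41) (j2 10240 d32_42 d32_43))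 (j2 20480 (j2 10240 d32_44 d32_45) d32_46))) (j2 81920 (j2 20480 (j2 10240 d32_48 d32_49) (j2 10240 d32_50 d32_51)) (j2 20480 (j2 10240 d32_56 d32_57) (j2 10240 d32_58 d32_59)))))
def D33 : ℕ := (j2 327680 (j2 163840 (j2 81920 (j2 40960 (j2 20480 (j2 10240 d33_0 d33_1) (j2 10240 d33_2 d33_3)) (j2 20480 (j2 10240 d33_4 d33_5) d33_6)) (j2 40960 (j2 20480 (j2 10240 d33_8 d33_9) (j2 10240 d33_10 d33_11)) (j2 20480 (j2 10240 d33_12 d33_13) d33_14))) (j2 81920 (j2 40960 (j2 20480 (j2 10240 d33_16 d33_17) (j2 10240 d33_18 d33_19)) (j2 20480 (j2 10240 d33_20 d33_21) d33_22)) (j2 40960 (j2 20480 d33_24 d33_26) (j2 20480 d33_28 d33_30)))) (j2 163840 (j2 81920 (j2 40960 (j2 20480 (j2 10240 d33_32 d33_33) (j2 10240 d33_34 d33_35)) (j2 20480 (j2 10240 d33_36 d33_37) d33_38)) (j2 40960 (j2 20480 (j2 10240 d33_40 d33_41) (j2 10240 d33_42 d33_43)) (j2 20480 (j2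 10240 d33_44 d33_45) d33_46))) (j2 81920 (j2 20480 (j2 10240 d33_48 d33_49) (j2 10240 d33_50 d33_51)) (j2 20480 d33_56 d33_58))))
def D34 : ℕ := (j2 327680 (j2 163840 (j2 81920 (j2 40960 (j2 20480 (j2 10240 d34_0 d34_1) (j2 10240 d34_2 d34_3)) (j2 20480 (j2 10240 d34_4 d34_5) (j2 10240 d34_6 d34_7))) (j2 40960 (j2 20480 (j2 10240 d34_8 d34_9) (j2 10240 d34_10 d34_11)) (j2 20480 (j2 10240 d34_12 d34_13) (j2 10240 d34_14 d34_15)))) (j2 81920 (j2 40960 (j2 20480 (j2 10240 d34_16 d34_17) (j2 10240 d34_18 d34_19)) (j2 20480 (j2 10240 d34_20 d34_21) (j2 10240 d34_22 d34_23))) (j2 40960 (j2 20480 (j2 10240 d34_24 d34_25) (j2 10240 d34_26 d34_27)) (j2 20480 (j2 10240 d34_28 d34_29) (j2 10240 d34_30 d34_31))))) (j2 163840 (j2 81920 (j2 40960 (j2 20480 (j2 10240 d34_32 d34_33) (j2 10240 d34_34 d34_35)) (j2 20480 (j2 10240 d34_36 d34_37) (j2 10240 d34_38 d34_39)))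 (j2 40960 (j2 20480 (j2 10240 d34_40 d34_41) (j2 10240 d34_42 d34_43)) (j2 20480 (j2 10240 d34_44 d34_45) (j2 10240 d34_46 d34_47)))) (j2 81920 (j2 40960 (j2 20480 (j2 10240 d34_48 d34_49) (j2 10240 d34_50 d34_51)) (j2 20480 (j2 10240 d34_52 d34_53) (j2 10240 d34_54 d34_55))) (j2 40960 (j2 20480 (j2 10240 d34_56 d34_57) (j2 10240 d34_58 d34_59)) (j2 20480 (j2 10240 d34_60 d34_61) (j2 10240 d34_62 d34_63))))))
def D35 : ℕ := (j2 327680 (j2 163840 (j2 81920 (j2 40960 (j2 20480 (j2 10240 d35_0 d35_1) (j2 10240 d35_2 d35_3)) (j2 20480 (j2 10240 d35_4 d35_5) d35_6)) (j2 40960 (j2 20480 (j2 10240 d35_8 d35_9) (j2 10240 d35_10 d35_11)) (j2 20480 (j2 10240 d35_12 d35_13) d35_14))) (j2 81920 (j2 40960 (j2 20480 (j2 10240 d35_16 d35_17) (j2 10240 d35_18 d35_19)) (j2 20480 (j2 10240 d35_20 d35_21) d35_22)) (j2 40960 (j2 20480 (j2 10240 d35_24 d35_25) (j2 10240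 d35_26 d35_27)) (j2 20480 (j2 10240 d35_28 d35_29) d35_30)))) (j2 163840 (j2 81920 (j2 40960 (j2 20480 (j2 10240 d35_32 d35_33) (j2 10240 d35_34 d35_35)) (j2 20480 (j2 10240 d35_36 d35_37) d35_38)) (j2 40960 (j2 20480 (j2 10240 d35_40 d35_41) (j2 10240 d35_42 d35_43)) (j2 20480 (j2 10240 d35_44 d35_45) d35_46))) (j2 81920 (j2 40960 (j2 20480 (j2 10240 d35_48 d35_49) (j2 10240 d35_50 d35_51)) (j2 20480 (j2 10240 d35_52 d35_53) d35_54)) (j2 40960 (j2 20480 (j2 10240 d35_56 d35_57) (j2 10240 d35_58 d35_59)) (j2 20480 (j2 10240 d35_60 d35_61) d35_62)))))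
def D36 : ℕ := (j2 327680 (j2 163840 (j2 81920 (j2 40960 (j2 20480 (j2 10240 d36_0 d36_1) (j2 10240 d36_2 d36_3)) (j2 20480 (j2 10240 d36_4 d36_5) d36_6)) (j2 40960 (j2 20480 (j2 10240 d36_8 d36_9) (j2 10240 d36_10 d36_11)) (j2 20480 (j2 10240 d36_12 d36_13) d36_14))) (j2 81920 (j2 40960 (j2 20480 (j2 10240 d36_16 d36_17) (j2 10240 d36_18 d36_19)) (j2 20480 (j2 10240 d36_20 d36_21) d36_22)) (j2 40960 (j2 20480 d36_24 d36_26) (j2 20480 d36_28 d36_30)))) (j2 163840 (j2 81920 (j2 40960 (j2 20480 (j2 10240 d36_32 d36_33) (j2 10240 d36_34 d36_35)) (j2 20480 (j2 10240 d36_36 d36_37) d36_38)) (j2 40960 (j2 20480 (j2 10240 d36_40 d36_41) (j2 10240 d36_42 d36_43)) (j2 20480 (j2 10240 d36_44 d36_45) d36_46))) (j2 81920 (j2 40960 (j2 20480 (j2 10240 d36_48 d36_49) (j2 10240 d36_50 d36_51)) (j2 20480 (j2 10240 d36_52 d36_53) d36_54)) (j2 40960 (j2 20480 d36_56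 d36_58) (j2 20480 d36_60 d36_62)))))
def D37 : ℕ := (j2 327680 (j2 163840 (j2 81920 (j2 40960 (j2 20480 (j2 10240 d37_0 d37_1) (j2 10240 d37_2 d37_3)) (j2 20480 (j2 10240 d37_4 d37_5) (j2 10240 d37_6 d37_7))) (j2 40960 (j2 20480 (j2 10240 d37_8 d37_9) (j2 10240 d37_10 d37_11)) (j2 20480 (j2 10240 d37_12 d37_13) (j2 10240 d37_14 d37_15)))) (j2 81920 (j2 40960 (j2 20480 (j2 10240 d37_16 d37_17) (j2 10240 d37_18 d37_19)) (j2 20480 (j2 10240 d37_20 d37_21) (j2 10240 d37_22 d37_23))) (j2 40960 (j2 20480 d37_24 d37_26) (j2 20480 d37_28 d37_30)))) (j2 163840 (j2 81920 (j2 40960 (j2 20480 (j2 10240 d37_32 d37_33) (j2 10240 d37_34 d37_35)) (j2 20480 (j2 10240 d37_36 d37_37) (j2 10240 d37_38 d37_39))) (j2 40960 (j2 10240 d37_40 d37_41) (j2 10240 d37_44 d37_45))) (j2 81920 (j2 40960 (j2 20480 (j2 10240 d37_48 d37_49) (j2 10240 d37_50 d37_51)) (j2 20480 (j2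 10240 d37_52 d37_53) (j2 10240 d37_54 d37_55))) (j2 40960 d37_56 d37_60))))
def D38 : ℕ := (j2 327680 (j2 163840 (j2 81920 (j2 40960 (j2 20480 (j2 10240 d38_0 d38_1) (j2 10240 d38_2 d38_3)) (j2 20480 (j2 10240 d38_4 d38_5) d38_6)) (j2 40960 (j2 20480 (j2 10240 d38_8 d38_9) (j2 10240 d38_10 d38_11)) (j2 20480 (j2 10240 d38_12 d38_13) d38_14))) (j2 81920 (j2 40960 (j2 20480 (j2 10240 d38_16 d38_17) (j2 10240 d38_18 d38_19)) (j2 20480 (j2 10240 d38_20 d38_21) d38_22)) (j2 40960 (j2 20480 d38_24 d38_26) (j2 20480 d38_28 d38_30)))) (j2 163840 (j2 81920 (j2 40960 (j2 20480 (j2 10240 d38_32 d38_33) (j2 10240 d38_34 d38_35)) (j2 20480 (j2 10240 d38_36 d38_37) d38_38)) (j2 40960 (j2 10240 d38_40 d38_41) (j2 10240 d38_44 d38_45))) (j2 81920 (j2 40960 (j2 20480 (j2 10240 d38_48 d38_49) (j2 10240 d38_50 d38_51)) (j2 20480 (j2 10240 d38_52 d38_53) d38_54)) (j2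 40960 d38_56 d38_60))))
def D39 : ℕ := (j2 327680 (j2 163840 (j2 81920 (j2 40960 (j2 20480 (j2 10240 d39_0 d39_1) (j2 10240 d39_2 d39_3)) (j2 20480 (j2 10240 d39_4 d39_5) (j2 10240 d39_6 d39_7))) (j2 40960 (j2 20480 (j2 10240 d39_8 d39_9) (j2 10240 d39_10 d39_11)) (j2 20480 (j2 10240 d39_12 d39_13) (j2 10240 d39_14 d39_15)))) (j2 81920 (j2 40960 (j2 20480 (j2 10240 d39_16 d39_17) (j2 10240 d39_18 d39_19)) (j2 20480 (j2 10240 d39_20 d39_21) (j2 10240 d39_22 d39_23))) (j2 40960 (j2 20480 (j2 10240 d39_24 d39_25) (j2 10240 d39_26 d39_27)) (j2 20480 (j2 10240 d39_28 d39_29) (j2 10240 d39_30 d39_31))))) (j2 163840 (j2 81920 (j2 40960 (j2 20480 (j2 10240 d39_32 d39_33) (j2 10240 d39_34 d39_35)) (j2 20480 (j2 10240 d39_36 d39_37) (j2 10240 d39_38 d39_39))) (j2 40960 (j2 20480 (j2 10240 d39_40 d39_41) (j2 10240 d39_42 d39_43)) (j2 20480 (j2 10240 d39_44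 d39_45) (j2 10240 d39_46 d39_47)))) (j2 81920 (j2 40960 (j2 20480 (j2 10240 d39_48 d39_49) (j2 10240 d39_50 d39_51)) (j2 20480 (j2 10240 d39_52 d39_53) (j2 10240 d39_54 d39_55))) (j2 40960 (j2 20480 (j2 10240 d39_56 d39_57) (j2 10240 d39_58 d39_59)) (j2 20480 (j2 10240 d39_60 d39_61) (j2 10240 d39_62 d39_63))))))
def D40 : ℕ := (j2 327680 (j2 163840 (j2 81920 (j2 40960 (j2 20480 (j2 10240 d40_0 d40_1) (j2 10240 d40_2 d40_3)) (j2 20480 (j2 10240 d40_4 d40_5) d40_6)) (j2 40960 (j2 20480 (j2 10240 d40_8 d40_9) (j2 10240 d40_10 d40_11)) (j2 20480 (j2 10240 d40_12 d40_13) d40_14))) (j2 81920 (j2 40960 (j2 20480 (j2 10240 d40_16 d40_17) (j2 10240 d40_18 d40_19)) (j2 20480 (j2 10240 d40_20 d40_21) d40_22)) (j2 40960 (j2 20480 (j2 10240 d40_24 d40_25) (j2 10240 d40_26 d40_27)) (j2 20480 (j2 10240 d40_28 d40_29) d40_30)))) (j2 163840 (j2 81920 (j2 40960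 (j2 20480 (j2 10240 d40_32 d40_33) (j2 10240 d40_34 d40_35)) (j2 20480 (j2 10240 d40_36 d40_37) d40_38)) (j2 40960 (j2 20480 (j2 10240 d40_40 d40_41) (j2 10240 d40_42 d40_43)) (j2 20480 (j2 10240 d40_44 d40_45) d40_46))) (j2 81920 (j2 40960 (j2 20480 (j2 10240 d40_48 d40_49) (j2 10240 d40_50 d40_51)) (j2 20480 (j2 10240 d40_52 d40_53) d40_54)) (j2 40960 (j2 20480 (j2 10240 d40_56 d40_57) (j2 10240 d40_58 d40_59)) (j2 20480 (j2 10240 d40_60 d40_61) d40_62)))))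
def D41 : ℕ := (j2 327680 (j2 163840 (j2 81920 (j2 40960 (j2 20480 (j2 10240 d41_0 d41_1) (j2 10240 d41_2 d41_3)) (j2 20480 (j2 10240 d41_4 d41_5) d41_6)) (j2 40960 (j2 20480 (j2 10240 d41_8 d41_9) (j2 10240 d41_10 d41_11)) (j2 20480 (j2 10240 d41_12 d41_13) d41_14))) (j2 81920 (j2 40960 (j2 20480 (j2 10240 d41_16 d41_17) (j2 10240 d41_18 d41_19)) (j2 20480 (j2 10240 d41_20 d41_21) d41_22)) (j2 40960 (j2 20480 d41_24 d41_26) (j2 20480 d41_28 d41_30)))) (j2 163840 (j2 81920 (j2 40960 (j2 20480 (j2 10240 d41_32 d41_33) (j2 10240 d41_34 d41_35)) (j2 20480 (j2 10240 d41_36 d41_37) d41_38)) (j2 40960 (j2 20480 (j2 10240 d41_40 d41_41) (j2 10240 d41_42 d41_43)) (j2 20480 (j2 10240 d41_44 d41_45) d41_46))) (j2 81920 (j2 40960 (j2 20480 (j2 10240 d41_48 d41_49) (j2 10240 d41_50 d41_51)) (j2 20480 (j2 10240 d41_52 d41_53) d41_54)) (j2 40960 (j2 20480 d41_56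 d41_58) (j2 20480 d41_60 d41_62)))))
def D42 : ℕ := (j2 327680 (j2 163840 (j2 81920 (j2 40960 (j2 20480 (j2 10240 d42_0 d42_1) (j2 10240 d42_2 d42_3)) (j2 20480 (j2 10240 d42_4 d42_5) (j2 10240 d42_6 d42_7))) (j2 40960 (j2 20480 (j2 10240 d42_8 d42_9) (j2 10240 d42_10 d42_11)) (j2 20480 (j2 10240 d42_12 d42_13) (j2 10240 d42_14 d42_15)))) (j2 81920 (j2 40960 (j2 20480 (j2 10240 d42_16 d42_17) (j2 10240 d42_18 d42_19)) (j2 20480 (j2 10240 d42_20 d42_21) (j2 10240 d42_22 d42_23))) (j2 40960 (j2 20480 (j2 10240 d42_24 d42_25) (j2 10240 d42_26 d42_27)) (j2 20480 (j2 10240 d42_28 d42_29) (j2 10240 d42_30 d42_31))))) (j2 163840 (j2 81920 (j2 40960 (j2 20480 (j2 10240 d42_32 d42_33) (j2 10240 d42_34 d42_35)) (j2 20480 (j2 10240 d42_36 d42_37) (j2 10240 d42_38 d42_39))) (j2 40960 (j2 10240 d42_40 d42_41) (j2 10240 d42_44 d42_45))) (j2 81920 (j2 40960 (j2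 20480 (j2 10240 d42_48 d42_49) (j2 10240 d42_50 d42_51)) (j2 20480 (j2 10240 d42_52 d42_53) (j2 10240 d42_54 d42_55))) (j2 40960 (j2 10240 d42_56 d42_57) (j2 10240 d42_60 d42_61)))))
def D43 : ℕ := (j2 327680 (j2 163840 (j2 81920 (j2 40960 (j2 20480 (j2 10240 d43_0 d43_1) (j2 10240 d43_2 d43_3)) (j2 20480 (j2 10240 d43_4 d43_5) d43_6)) (j2 40960 (j2 20480 (j2 10240 d43_8 d43_9) (j2 10240 d43_10 d43_11)) (j2 20480 (j2 10240 d43_12 d43_13) d43_14))) (j2 81920 (j2 40960 (j2 20480 (j2 10240 d43_16 d43_17) (j2 10240 d43_18 d43_19)) (j2 20480 (j2 10240 d43_20 d43_21) d43_22)) (j2 40960 (j2 20480 (j2 10240 d43_24 d43_25) (j2 10240 d43_26 d43_27)) (j2 20480 (j2 10240 d43_28 d43_29) d43_30)))) (j2 163840 (j2 81920 (j2 40960 (j2 20480 (j2 10240 d43_32 d43_33) (j2 10240 d43_34 d43_35)) (j2 20480 (j2 10240 d43_36 d43_37) d43_38)) (j2 40960 (j2 10240 d43_40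 d43_41) (j2 10240 d43_44 d43_45))) (j2 81920 (j2 40960 (j2 20480 (j2 10240 d43_48 d43_49) (j2 10240 d43_50 d43_51)) (j2 20480 (j2 10240 d43_52 d43_53) d43_54)) (j2 40960 (j2 10240 d43_56 d43_57) (j2 10240 d43_60 d43_61)))))
def D44 : ℕ := (j2 327680 (j2 163840 (j2 81920 (j2 40960 (j2 20480 (j2 10240 d44_0 d44_1) (j2 10240 d44_2 d44_3)) (j2 20480 (j2 10240 d44_4 d44_5) (j2 10240 d44_6 d44_7))) (j2 40960 (j2 20480 (j2 10240 d44_8 d44_9) (j2 10240 d44_10 d44_11)) (j2 20480 (j2 10240 d44_12 d44_13) (j2 10240 d44_14 d44_15)))) (j2 81920 (j2 40960 (j2 20480 (j2 10240 d44_16 d44_17) (j2 10240 d44_18 d44_19)) (j2 20480 (j2 10240 d44_20 d44_21) (j2 10240 d44_22 d44_23))) (j2 40960 (j2 20480 d44_24 d44_26) (j2 20480 d44_28 d44_30)))) (j2 163840 (j2 81920 (j2 40960 (j2 20480 (j2 10240 d44_32 d44_33) (j2 10240 d44_34 d44_35)) (j2 20480 (j2 10240 d44_36 d44_37)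 (j2 10240 d44_38 d44_39))) (j2 40960 (j2 10240 d44_40 d44_41) (j2 10240 d44_44 d44_45))) (j2 81920 (j2 40960 (j2 20480 (j2 10240 d44_48 d44_49) (j2 10240 d44_50 d44_51)) (j2 20480 (j2 10240 d44_52 d44_53) (j2 10240 d44_54 d44_55))) (j2 40960 d44_56 d44_60))))
def D45 : ℕ := (j2 327680 (j2 163840 (j2 81920 (j2 40960 (j2 20480 (j2 10240 d45_0 d45_1) (j2 10240 d45_2 d45_3)) (j2 20480 (j2 10240 d45_4 d45_5) d45_6)) (j2 40960 (j2 20480 (j2 10240 d45_8 d45_9) (j2 10240 d45_10 d45_11)) (j2 20480 (j2 10240 d45_12 d45_13) d45_14))) (j2 81920 (j2 40960 (j2 20480 (j2 10240 d45_16 d45_17) (j2 10240 d45_18 d45_19)) (j2 20480 (j2 10240 d45_20 d45_21) d45_22)) (j2 40960 (j2 20480 d45_24 d45_26) (j2 20480 d45_28 d45_30)))) (j2 163840 (j2 81920 (j2 40960 (j2 20480 (j2 10240 d45_32 d45_33) (j2 10240 d45_34 d45_35)) (j2 20480 (j2 10240 d45_36 d45_37) d45_38)) (j2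 40960 (j2 10240 d45_40 d45_41) (j2 10240 d45_44 d45_45))) (j2 81920 (j2 40960 (j2 20480 (j2 10240 d45_48 d45_49) (j2 10240 d45_50 d45_51)) (j2 20480 (j2 10240 d45_52 d45_53) d45_54)) (j2 40960 d45_56 d45_60))))
def D46 : ℕ := (j2 327680 (j2 163840 (j2 81920 (j2 40960 (j2 20480 (j2 10240 d46_0 d46_1) (j2 10240 d46_2 d46_3)) (j2 20480 (j2 10240 d46_4 d46_5) (j2 10240 d46_6 d46_7))) (j2 40960 (j2 20480 (j2 10240 d46_8 d46_9) (j2 10240 d46_10 d46_11)) (j2 20480 (j2 10240 d46_12 d46_13) (j2 10240 d46_14 d46_15)))) (j2 81920 (j2 40960 (j2 20480 (j2 10240 d46_16 d46_17) (j2 10240 d46_18 d46_19)) (j2 20480 (j2 10240 d46_20 d46_21) (j2 10240 d46_22 d46_23))) (j2 40960 (j2 20480 (j2 10240 d46_24 d46_25) (j2 10240 d46_26 d46_27)) (j2 20480 (j2 10240 d46_28 d46_29) (j2 10240 d46_30 d46_31))))) (j2 163840 (j2 81920 (j2 40960 (j2 20480 (j2 10240 d46_32 d46_33)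 (j2 10240 d46_34 d46_35)) (j2 20480 (j2 10240 d46_36 d46_37) (j2 10240 d46_38 d46_39))) (j2 40960 (j2 10240 d46_40 d46_41) (j2 10240 d46_44 d46_45))) (j2 81920 (j2 20480 (j2 10240 d46_48 d46_49) (j2 10240 d46_50 d46_51)) (j2 10240 d46_56 d46_57))))
def D47 : ℕ := (j2 327680 (j2 163840 (j2 81920 (j2 40960 (j2 20480 (j2 10240 d47_0 d47_1) (j2 10240 d47_2 d47_3)) (j2 20480 (j2 10240 d47_4 d47_5) d47_6)) (j2 40960 (j2 20480 (j2 10240 d47_8 d47_9) (j2 10240 d47_10 d47_11)) (j2 20480 (j2 10240 d47_12 d47_13) d47_14))) (j2 81920 (j2 40960 (j2 20480 (j2 10240 d47_16 d47_17) (j2 10240 d47_18 d47_19)) (j2 20480 (j2 10240 d47_20 d47_21) d47_22)) (j2 40960 (j2 20480 (j2 10240 d47_24 d47_25) (j2 10240 d47_26 d47_27)) (j2 20480 (j2 10240 d47_28 d47_29) d47_30)))) (j2 163840 (j2 81920 (j2 40960 (j2 20480 (j2 10240 d47_32 d47_33) (j2 10240 d47_34 d47_35)) (j2 20480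 (j2 10240 d47_36 d47_37) d47_38)) (j2 40960 (j2 10240 d47_40 d47_41) (j2 10240 d47_44 d47_45))) (j2 81920 (j2 20480 (j2 10240 d47_48 d47_49) (j2 10240 d47_50 d47_51)) (j2 10240 d47_56 d47_57))))
def D48 : ℕ := (j2 327680 (j2 163840 (j2 81920 (j2 40960 (j2 20480 (j2 10240 d48_0 d48_1) (j2 10240 d48_2 d48_3)) (j2 20480 (j2 10240 d48_4 d48_5) (j2 10240 d48_6 d48_7))) (j2 40960 (j2 20480 (j2 10240 d48_8 d48_9) (j2 10240 d48_10 d48_11)) (j2 20480 (j2 10240 d48_12 d48_13) (j2 10240 d48_14 d48_15)))) (j2 81920 (j2 40960 (j2 20480 (j2 10240 d48_16 d48_17) (j2 10240 d48_18 d48_19)) (j2 20480 (j2 10240 d48_20 d48_21) (j2 10240 d48_22 d48_23))) (j2 40960 (j2 20480 (j2 10240 d48_24 d48_25) (j2 10240 d48_26 d48_27)) (j2 20480 (j2 10240 d48_28 d48_29) (j2 10240 d48_30 d48_31))))) (j2 163840 (j2 81920 (j2 40960 (j2 20480 (j2 10240 d48_32 d48_33) (j2 10240 d48_34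 d48_35)) (j2 20480 (j2 10240 d48_36 d48_37) (j2 10240 d48_38 d48_39))) (j2 40960 (j2 20480 (j2 10240 d48_40 d48_41) (j2 10240 d48_42 d48_43)) (j2 20480 (j2 10240 d48_44 d48_45) (j2 10240 d48_46 d48_47)))) (j2 81920 (j2 40960 (j2 20480 (j2 10240 d48_48 d48_49) (j2 10240 d48_50 d48_51)) (j2 20480 (j2 10240 d48_52 d48_53) (j2 10240 d48_54 d48_55))) (j2 40960 (j2 20480 (j2 10240 d48_56 d48_57) (j2 10240 d48_58 d48_59)) (j2 20480 (j2 10240 d48_60 d48_61) (j2 10240 d48_62 d48_63))))))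
def D49 : ℕ := (j2 327680 (j2 163840 (j2 81920 (j2 40960 (j2 20480 (j2 10240 d49_0 d49_1) (j2 10240 d49_2 d49_3)) (j2 20480 (j2 10240 d49_4 d49_5) (j2 10240 d49_6 d49_7))) (j2 40960 (j2 20480 (j2 10240 d49_8 d49_9) (j2 10240 d49_10 d49_11)) (j2 20480 (j2 10240 d49_12 d49_13) (j2 10240 d49_14 d49_15)))) (j2 81920 (j2 40960 (j2 20480 (j2 10240 d49_16 d49_17) (j2 10240 d49_18 d49_19)) (j2 20480 (j2 10240 d49_20 d49_21) (j2 10240 d49_22 d49_23))) (j2 40960 (j2 20480 d49_24 d49_26) (j2 20480 d49_28 d49_30)))) (j2 163840 (j2 81920 (j2 40960 (j2 20480 (j2 10240 d49_32 d49_33) (j2 10240 d49_34 d49_35)) (j2 20480 (j2 10240 d49_36 d49_37) (j2 10240 d49_38 d49_39))) (j2 40960 (j2 20480 (j2 10240 d49_40 d49_41) (j2 10240 d49_42 d49_43)) (j2 20480 (j2 10240 d49_44 d49_45) (j2 10240 d49_46 d49_47)))) (j2 81920 (j2 40960 (j2 20480 (j2 10240 d49_48 d49_49) (j2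 10240 d49_50 d49_51)) (j2 20480 (j2 10240 d49_52 d49_53) (j2 10240 d49_54 d49_55))) (j2 40960 (j2 20480 d49_56 d49_58) (j2 20480 d49_60 d49_62)))))
def D50 : ℕ := (j2 327680 (j2 163840 (j2 81920 (j2 40960 (j2 20480 (j2 10240 d50_0 d50_1) (j2 10240 d50_2 d50_3)) (j2 20480 (j2 10240 d50_4 d50_5) (j2 10240 d50_6 d50_7))) (j2 40960 (j2 20480 (j2 10240 d50_8 d50_9) (j2 10240 d50_10 d50_11)) (j2 20480 (j2 10240 d50_12 d50_13) (j2 10240 d50_14 d50_15)))) (j2 81920 (j2 40960 (j2 20480 (j2 10240 d50_16 d50_17) (j2 10240 d50_18 d50_19)) (j2 20480 (j2 10240 d50_20 d50_21) (j2 10240 d50_22 d50_23))) (j2 40960 (j2 20480 d50_24 d50_26) (j2 20480 d50_28 d50_30)))) (j2 163840 (j2 81920 (j2 40960 (j2 20480 (j2 10240 d50_32 d50_33) (j2 10240 d50_34 d50_35)) (j2 20480 (j2 10240 d50_36 d50_37) (j2 10240 d50_38 d50_39))) (j2 40960 (j2 10240 d50_40 d50_41) (j2 10240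 d50_44 d50_45))) (j2 81920 (j2 40960 (j2 20480 (j2 10240 d50_48 d50_49) (j2 10240 d50_50 d50_51)) (j2 20480 (j2 10240 d50_52 d50_53) (j2 10240 d50_54 d50_55))) (j2 40960 d50_56 d50_60))))
def D51 : ℕ := (j2 327680 (j2 163840 (j2 81920 (j2 40960 (j2 20480 (j2 10240 d51_0 d51_1) (j2 10240 d51_2 d51_3)) (j2 20480 (j2 10240 d51_4 d51_5) (j2 10240 d51_6 d51_7))) (j2 40960 (j2 20480 (j2 10240 d51_8 d51_9) (j2 10240 d51_10 d51_11)) (j2 20480 (j2 10240 d51_12 d51_13) (j2 10240 d51_14 d51_15)))) (j2 81920 (j2 40960 (j2 20480 (j2 10240 d51_16 d51_17) (j2 10240 d51_18 d51_19)) (j2 20480 (j2 10240 d51_20 d51_21) (j2 10240 d51_22 d51_23))) (j2 40960 (j2 20480 (j2 10240 d51_24 d51_25) (j2 10240 d51_26 d51_27)) (j2 20480 (j2 10240 d51_28 d51_29) (j2 10240 d51_30 d51_31))))) (j2 163840 (j2 81920 (j2 40960 (j2 20480 (j2 10240 d51_32 d51_33) (j2 10240 d51_34 d51_35))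 (j2 20480 (j2 10240 d51_36 d51_37) (j2 10240 d51_38 d51_39))) (j2 40960 (j2 20480 (j2 10240 d51_40 d51_41) (j2 10240 d51_42 d51_43)) (j2 20480 (j2 10240 d51_44 d51_45) (j2 10240 d51_46 d51_47)))) (j2 81920 (j2 20480 (j2 10240 d51_48 d51_49) (j2 10240 d51_50 d51_51)) (j2 20480 (j2 10240 d51_56 d51_57) (j2 10240 d51_58 d51_59)))))
def D52 : ℕ := (j2 327680 (j2 163840 (j2 81920 (j2 40960 (j2 20480 (j2 10240 d52_0 d52_1) (j2 10240 d52_2 d52_3)) (j2 20480 (j2 10240 d52_4 d52_5) (j2 10240 d52_6 d52_7))) (j2 40960 (j2 20480 (j2 10240 d52_8 d52_9) (j2 10240 d52_10 d52_11)) (j2 20480 (j2 10240 d52_12 d52_13) (j2 10240 d52_14 d52_15)))) (j2 81920 (j2 40960 (j2 20480 (j2 10240 d52_16 d52_17) (j2 10240 d52_18 d52_19)) (j2 20480 (j2 10240 d52_20 d52_21) (j2 10240 d52_22 d52_23))) (j2 40960 (j2 20480 d52_24 d52_26) (j2 20480 d52_28 d52_30)))) (j2 163840 (j2 81920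 (j2 40960 (j2 20480 (j2 10240 d52_32 d52_33) (j2 10240 d52_34 d52_35)) (j2 20480 (j2 10240 d52_36 d52_37) (j2 10240 d52_38 d52_39))) (j2 40960 (j2 20480 (j2 10240 d52_40 d52_41) (j2 10240 d52_42 d52_43)) (j2 20480 (j2 10240 d52_44 d52_45) (j2 10240 d52_46 d52_47)))) (j2 81920 (j2 20480 (j2 10240 d52_48 d52_49) (j2 10240 d52_50 d52_51)) (j2 20480 d52_56 d52_58))))
def D53 : ℕ := (j2 327680 (j2 163840 (j2 81920 (j2 40960 (j2 20480 (j2 10240 d53_0 d53_1) (j2 10240 d53_2 d53_3)) (j2 20480 (j2 10240 d53_4 d53_5) (j2 10240 d53_6 d53_7))) (j2 40960 (j2 20480 (j2 10240 d53_8 d53_9) (j2 10240 d53_10 d53_11)) (j2 20480 (j2 10240 d53_12 d53_13) (j2 10240 d53_14 d53_15)))) (j2 81920 (j2 40960 (j2 20480 (j2 10240 d53_16 d53_17) (j2 10240 d53_18 d53_19)) (j2 20480 (j2 10240 d53_20 d53_21) (j2 10240 d53_22 d53_23))) (j2 40960 (j2 20480 d53_24 d53_26) (j2 20480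 d53_28 d53_30)))) (j2 163840 (j2 81920 (j2 40960 (j2 20480 (j2 10240 d53_32 d53_33) (j2 10240 d53_34 d53_35)) (j2 20480 (j2 10240 d53_36 d53_37) (j2 10240 d53_38 d53_39))) (j2 40960 (j2 10240 d53_40 d53_41) (j2 10240 d53_44 d53_45))) (j2 81920 (j2 20480 (j2 10240 d53_48 d53_49) (j2 10240 d53_50 d53_51)) d53_56)))
def D54 : ℕ := (j2 327680 (j2 163840 (j2 81920 (j2 40960 (j2 20480 (j2 10240 d54_0 d54_1) (j2 10240 d54_2 d54_3)) (j2 20480 (j2 10240 d54_4 d54_5) (j2 10240 d54_6 d54_7))) (j2 40960 (j2 20480 (j2 10240 d54_8 d54_9) (j2 10240 d54_10 d54_11)) (j2 20480 (j2 10240 d54_12 d54_13) (j2 10240 d54_14 d54_15)))) (j2 81920 (j2 40960 (j2 20480 (j2 10240 d54_16 d54_17) (j2 10240 d54_18 d54_19)) (j2 20480 (j2 10240 d54_20 d54_21) (j2 10240 d54_22 d54_23))) (j2 40960 (j2 20480 (j2 10240 d54_24 d54_25) (j2 10240 d54_26 d54_27)) (j2 20480 (j2 10240 d54_28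 d54_29) (j2 10240 d54_30 d54_31))))) (j2 163840 (j2 81920 (j2 40960 (j2 20480 (j2 10240 d54_32 d54_33) (j2 10240 d54_34 d54_35)) (j2 20480 (j2 10240 d54_36 d54_37) (j2 10240 d54_38 d54_39))) (j2 40960 (j2 20480 (j2 10240 d54_40 d54_41) (j2 10240 d54_42 d54_43)) (j2 20480 (j2 10240 d54_44 d54_45) (j2 10240 d54_46 d54_47)))) (j2 81920 (j2 40960 (j2 20480 (j2 10240 d54_48 d54_49) (j2 10240 d54_50 d54_51)) (j2 20480 (j2 10240 d54_52 d54_53) (j2 10240 d54_54 d54_55))) (j2 40960 (j2 20480 (j2 10240 d54_56 d54_57) (j2 10240 d54_58 d54_59)) (j2 20480 (j2 10240 d54_60 d54_61) (j2 10240 d54_62 d54_63))))))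
def D55 : ℕ := (j2 327680 (j2 163840 (j2 81920 (j2 40960 (j2 20480 (j2 10240 d55_0 d55_1) (j2 10240 d55_2 d55_3)) (j2 20480 (j2 10240 d55_4 d55_5) d55_6)) (j2 40960 (j2 20480 (j2 10240 d55_8 d55_9) (j2 10240 d55_10 d55_11)) (j2 20480 (j2 10240 d55_12 d55_13) d55_14))) (j2 81920 (j2 40960 (j2 20480 (j2 10240 d55_16 d55_17) (j2 10240 d55_18 d55_19)) (j2 20480 (j2 10240 d55_20 d55_21) d55_22)) (j2 40960 (j2 20480 (j2 10240 d55_24 d55_25) (j2 10240 d55_26 d55_27)) (j2 20480 (j2 10240 d55_28 d55_29) d55_30)))) (j2 163840 (j2 81920 (j2 40960 (j2 20480 (j2 10240 d55_32 d55_33) (j2 10240 d55_34 d55_35)) (j2 20480 (j2 10240 d55_36 d55_37) d55_38)) (j2 40960 (j2 20480 (j2 10240 d55_40 d55_41) (j2 10240 d55_42 d55_43)) (j2 20480 (j2 10240 d55_44 d55_45) d55_46))) (j2 81920 (j2 40960 (j2 20480 (j2 10240 d55_48 d55_49) (j2 10240 d55_50 d55_51)) (j2 20480 (j2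 10240 d55_52 d55_53) d55_54)) (j2 40960 (j2 20480 (j2 10240 d55_56 d55_57) (j2 10240 d55_58 d55_59)) (j2 20480 (j2 10240 d55_60 d55_61) d55_62)))))
def D56 : ℕ := (j2 327680 (j2 163840 (j2 81920 (j2 40960 (j2 20480 (j2 10240 d56_0 d56_1) (j2 10240 d56_2 d56_3)) (j2 20480 (j2 10240 d56_4 d56_5) d56_6)) (j2 40960 (j2 20480 (j2 10240 d56_8 d56_9) (j2 10240 d56_10 d56_11)) (j2 20480 (j2 10240 d56_12 d56_13) d56_14))) (j2 81920 (j2 40960 (j2 20480 (j2 10240 d56_16 d56_17) (j2 10240 d56_18 d56_19)) (j2 20480 (j2 10240 d56_20 d56_21) d56_22)) (j2 40960 (j2 20480 d56_24 d56_26) (j2 20480 d56_28 d56_30)))) (j2 163840 (j2 81920 (j2 40960 (j2 20480 (j2 10240 d56_32 d56_33) (j2 10240 d56_34 d56_35)) (j2 20480 (j2 10240 d56_36 d56_37) d56_38)) (j2 40960 (j2 20480 (j2 10240 d56_40 d56_41) (j2 10240 d56_42 d56_43)) (j2 20480 (j2 10240 d56_44 d56_45) d56_46)))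 (j2 81920 (j2 40960 (j2 20480 (j2 10240 d56_48 d56_49) (j2 10240 d56_50 d56_51)) (j2 20480 (j2 10240 d56_52 d56_53) d56_54)) (j2 40960 (j2 20480 d56_56 d56_58) (j2 20480 d56_60 d56_62)))))
def D57 : ℕ := (j2 327680 (j2 163840 (j2 81920 (j2 40960 (j2 20480 (j2 10240 d57_0 d57_1) (j2 10240 d57_2 d57_3)) (j2 20480 (j2 10240 d57_4 d57_5) d57_6)) (j2 40960 (j2 20480 (j2 10240 d57_8 d57_9) (j2 10240 d57_10 d57_11)) (j2 20480 (j2 10240 d57_12 d57_13) d57_14))) (j2 81920 (j2 40960 (j2 20480 (j2 10240 d57_16 d57_17) (j2 10240 d57_18 d57_19)) (j2 20480 (j2 10240 d57_20 d57_21) d57_22)) (j2 40960 (j2 20480 (j2 10240 d57_24 d57_25) (j2 10240 d57_26 d57_27)) (j2 20480 (j2 10240 d57_28 d57_29) d57_30)))) (j2 163840 (j2 81920 (j2 40960 (j2 20480 (j2 10240 d57_32 d57_33) (j2 10240 d57_34 d57_35)) (j2 20480 (j2 10240 d57_36 d57_37) d57_38)) (j2 40960 (j2 10240 d57_40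 d57_41) (j2 10240 d57_44 d57_45))) (j2 81920 (j2 40960 (j2 20480 (j2 10240 d57_48 d57_49) (j2 10240 d57_50 d57_51)) (j2 20480 (j2 10240 d57_52 d57_53) d57_54)) (j2 40960 (j2 10240 d57_56 d57_57) (j2 10240 d57_60 d57_61)))))
def D58 : ℕ := (j2 327680 (j2 163840 (j2 81920 (j2 40960 (j2 20480 (j2 10240 d58_0 d58_1) (j2 10240 d58_2 d58_3)) (j2 20480 (j2 10240 d58_4 d58_5) d58_6)) (j2 40960 (j2 20480 (j2 10240 d58_8 d58_9) (j2 10240 d58_10 d58_11)) (j2 20480 (j2 10240 d58_12 d58_13) d58_14))) (j2 81920 (j2 40960 (j2 20480 (j2 10240 d58_16 d58_17) (j2 10240 d58_18 d58_19)) (j2 20480 (j2 10240 d58_20 d58_21) d58_22)) (j2 40960 (j2 20480 d58_24 d58_26) (j2 20480 d58_28 d58_30)))) (j2 163840 (j2 81920 (j2 40960 (j2 20480 (j2 10240 d58_32 d58_33) (j2 10240 d58_34 d58_35)) (j2 20480 (j2 10240 d58_36 d58_37) d58_38)) (j2 40960 (j2 10240 d58_40 d58_41) (j2 10240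 d58_44 d58_45))) (j2 81920 (j2 40960 (j2 20480 (j2 10240 d58_48 d58_49) (j2 10240 d58_50 d58_51)) (j2 20480 (j2 10240 d58_52 d58_53) d58_54)) (j2 40960 d58_56 d58_60))))
def D59 : ℕ := (j2 327680 (j2 163840 (j2 81920 (j2 40960 (j2 20480 (j2 10240 d59_0 d59_1) (j2 10240 d59_2 d59_3)) (j2 20480 (j2 10240 d59_4 d59_5) (j2 10240 d59_6 d59_7))) (j2 40960 (j2 20480 (j2 10240 d59_8 d59_9) (j2 10240 d59_10 d59_11)) (j2 20480 (j2 10240 d59_12 d59_13) (j2 10240 d59_14 d59_15)))) (j2 81920 (j2 40960 (j2 20480 (j2 10240 d59_16 d59_17) (j2 10240 d59_18 d59_19)) (j2 20480 (j2 10240 d59_20 d59_21) (j2 10240 d59_22 d59_23))) (j2 40960 (j2 20480 (j2 10240 d59_24 d59_25) (j2 10240 d59_26 d59_27)) (j2 20480 (j2 10240 d59_28 d59_29) (j2 10240 d59_30 d59_31))))) (j2 163840 (j2 81920 (j2 40960 (j2 20480 (j2 10240 d59_32 d59_33) (j2 10240 d59_34 d59_35)) (j2 20480 (j2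 10240 d59_36 d59_37) (j2 10240 d59_38 d59_39))) (j2 40960 (j2 20480 (j2 10240 d59_40 d59_41) (j2 10240 d59_42 d59_43)) (j2 20480 (j2 10240 d59_44 d59_45) (j2 10240 d59_46 d59_47)))) (j2 81920 (j2 40960 (j2 20480 (j2 10240 d59_48 d59_49) (j2 10240 d59_50 d59_51)) (j2 20480 (j2 10240 d59_52 d59_53) (j2 10240 d59_54 d59_55))) (j2 40960 (j2 20480 (j2 10240 d59_56 d59_57) (j2 10240 d59_58 d59_59)) (j2 20480 (j2 10240 d59_60 d59_61) (j2 10240 d59_62 d59_63))))))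
def D60 : ℕ := (j2 327680 (j2 163840 (j2 81920 (j2 40960 (j2 20480 (j2 10240 d60_0 d60_1) (j2 10240 d60_2 d60_3)) (j2 20480 (j2 10240 d60_4 d60_5) (j2 10240 d60_6 d60_7))) (j2 40960 (j2 20480 (j2 10240 d60_8 d60_9) (j2 10240 d60_10 d60_11)) (j2 20480 (j2 10240 d60_12 d60_13) (j2 10240 d60_14 d60_15)))) (j2 81920 (j2 40960 (j2 20480 (j2 10240 d60_16 d60_17) (j2 10240 d60_18 d60_19)) (j2 20480 (j2 10240 d60_20 d60_21) (j2 10240 d60_22 d60_23))) (j2 40960 (j2 20480 (j2 10240 d60_24 d60_25) (j2 10240 d60_26 d60_27)) (j2 20480 (j2 10240 d60_28 d60_29) (j2 10240 d60_30 d60_31))))) (j2 163840 (j2 81920 (j2 40960 (j2 20480 (j2 10240 d60_32 d60_33) (j2 10240 d60_34 d60_35)) (j2 20480 (j2 10240 d60_36 d60_37) (j2 10240 d60_38 d60_39))) (j2 40960 (j2 10240 d60_40 d60_41) (j2 10240 d60_44 d60_45))) (j2 81920 (j2 40960 (j2 20480 (j2 10240 d60_48 d60_49) (j2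 10240 d60_50 d60_51)) (j2 20480 (j2 10240 d60_52 d60_53) (j2 10240 d60_54 d60_55))) (j2 40960 (j2 10240 d60_56 d60_57) (j2 10240 d60_60 d60_61)))))
def D61 : ℕ := (j2 327680 (j2 163840 (j2 81920 (j2 40960 (j2 20480 (j2 10240 d61_0 d61_1) (j2 10240 d61_2 d61_3)) (j2 20480 (j2 10240 d61_4 d61_5) (j2 10240 d61_6 d61_7))) (j2 40960 (j2 20480 (j2 10240 d61_8 d61_9) (j2 10240 d61_10 d61_11)) (j2 20480 (j2 10240 d61_12 d61_13) (j2 10240 d61_14 d61_15)))) (j2 81920 (j2 40960 (j2 20480 (j2 10240 d61_16 d61_17) (j2 10240 d61_18 d61_19)) (j2 20480 (j2 10240 d61_20 d61_21) (j2 10240 d61_22 d61_23))) (j2 40960 (j2 20480 (j2 10240 d61_24 d61_25) (j2 10240 d61_26 d61_27)) (j2 20480 (j2 10240 d61_28 d61_29) (j2 10240 d61_30 d61_31))))) (j2 163840 (j2 81920 (j2 40960 (j2 20480 (j2 10240 d61_32 d61_33) (j2 10240 d61_34 d61_35)) (j2 20480 (j2 10240 d61_36 d61_37)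 (j2 10240 d61_38 d61_39))) (j2 40960 (j2 10240 d61_40 d61_41) (j2 10240 d61_44 d61_45))) (j2 81920 (j2 20480 (j2 10240 d61_48 d61_49) (j2 10240 d61_50 d61_51)) (j2 10240 d61_56 d61_57))))
def D62 : ℕ := (j2 327680 (j2 163840 (j2 81920 (j2 40960 (j2 20480 (j2 10240 d62_0 d62_1) (j2 10240 d62_2 d62_3)) (j2 20480 (j2 10240 d62_4 d62_5) (j2 10240 d62_6 d62_7))) (j2 40960 (j2 20480 (j2 10240 d62_8 d62_9) (j2 10240 d62_10 d62_11)) (j2 20480 (j2 10240 d62_12 d62_13) (j2 10240 d62_14 d62_15)))) (j2 81920 (j2 40960 (j2 20480 (j2 10240 d62_16 d62_17) (j2 10240 d62_18 d62_19)) (j2 20480 (j2 10240 d62_20 d62_21) (j2 10240 d62_22 d62_23))) (j2 40960 (j2 20480 (j2 10240 d62_24 d62_25) (j2 10240 d62_26 d62_27)) (j2 20480 (j2 10240 d62_28 d62_29) (j2 10240 d62_30 d62_31))))) (j2 163840 (j2 81920 (j2 40960 (j2 20480 (j2 10240 d62_32 d62_33) (j2 10240 d62_34 d62_35))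 (j2 20480 (j2 10240 d62_36 d62_37) (j2 10240 d62_38 d62_39))) (j2 40960 (j2 20480 (j2 10240 d62_40 d62_41) (j2 10240 d62_42 d62_43)) (j2 20480 (j2 10240 d62_44 d62_45) (j2 10240 d62_46 d62_47)))) (j2 81920 (j2 40960 (j2 20480 (j2 10240 d62_48 d62_49) (j2 10240 d62_50 d62_51)) (j2 20480 (j2 10240 d62_52 d62_53) (j2 10240 d62_54 d62_55))) (j2 40960 (j2 20480 (j2 10240 d62_56 d62_57) (j2 10240 d62_58 d62_59)) (j2 20480 (j2 10240 d62_60 d62_61) (j2 10240 d62_62 d62_63))))))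
def H0 : ℕ := (j2 327680 (j2 163840 (j2 81920 (j2 40960 (j2 20480 (j2 10240 h0_0 h0_1) (j2 10240 h0_2 h0_3)) (j2 20480 (j2 10240 h0_4 h0_5) (j2 10240 h0_6 h0_7))) (j2 40960 (j2 20480 (j2 10240 h0_8 h0_9) (j2 10240 h0_10 h0_11)) (j2 20480 (j2 10240 h0_12 h0_13) (j2 10240 h0_14 h0_15)))) (j2 81920 (j2 40960 (j2 20480 (j2 10240 h0_16 h0_17) (j2 10240 h0_18 h0_19)) (j2 20480 (j2 10240 h0_20 h0_21) (j2 10240 h0_22 h0_23))) (j2 40960 (j2 20480 (j2 10240 h0_24 h0_25) (j2 10240 h0_26 h0_27)) (j2 10240 h0_28 h0_29)))) (j2 163840 (j2 81920 (j2 40960 (j2 20480 (j2 10240 h0_32 h0_33) (j2 10240 h0_34 h0_35)) (j2 20480 (j2 10240 h0_36 h0_37) (j2 10240 h0_38 h0_39))) (j2 40960 (j2 20480 (j2 10240 h0_40 h0_41) (j2 10240 h0_42 h0_43)) (j2 20480 (j2 10240 h0_44 h0_45) (j2 10240 h0_46 h0_47)))) (j2 81920 (j2 40960 (j2 20480 (j2 10240 h0_48 h0_49) (j2 10240 h0_50 h0_51))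 (j2 20480 (j2 10240 h0_52 h0_53) (j2 10240 h0_54 h0_55))) (j2 40960 (j2 20480 (j2 10240 h0_56 h0_57) (j2 10240 h0_58 h0_59)) (j2 10240 h0_60 h0_61)))))
def H1 : ℕ := (j2 327680 (j2 163840 (j2 81920 (j2 40960 (j2 20480 (j2 10240 h1_0 h1_1) (j2 10240 h1_2 h1_3)) (j2 20480 (j2 10240 h1_4 h1_5) (j2 10240 h1_6 h1_7))) (j2 40960 (j2 20480 (j2 10240 h1_8 h1_9) (j2 10240 h1_10 h1_11)) (j2 20480 (j2 10240 h1_12 h1_13) (j2 10240 h1_14 h1_15)))) (j2 81920 (j2 40960 (j2 20480 (j2 10240 h1_16 h1_17) (j2 10240 h1_18 h1_19)) (j2 20480 (j2 10240 h1_20 h1_21) (j2 10240 h1_22 h1_23))) (j2 40960 (j2 20480 (j2 10240 h1_24 h1_25) (j2 10240 h1_26 h1_27)) (j2 10240 h1_28 h1_29)))) (j2 163840 (j2 81920 (j2 40960 (j2 20480 (j2 10240 h1_32 h1_33) (j2 10240 h1_34 h1_35)) (j2 20480 (j2 10240 h1_36 h1_37) (j2 10240 h1_38 h1_39))) (j2 40960 (j2 20480 (j2 10240 h1_40 h1_41) (j2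 10240 h1_42 h1_43)) (j2 20480 (j2 10240 h1_44 h1_45) (j2 10240 h1_46 h1_47)))) (j2 81920 (j2 40960 (j2 20480 (j2 10240 h1_48 h1_49) (j2 10240 h1_50 h1_51)) (j2 20480 (j2 10240 h1_52 h1_53) (j2 10240 h1_54 h1_55))) (j2 40960 (j2 20480 (j2 10240 h1_56 h1_57) (j2 10240 h1_58 h1_59)) (j2 10240 h1_60 h1_61)))))
def DT : Tr := (Tr.n (Tr.n (Tr.n (Tr.n (Tr.n (Tr.n (Tr.l D0) (Tr.l D32)) (Tr.n (Tr.l D16) (Tr.l D48))) (Tr.n (Tr.n (Tr.l D8) (Tr.l D40)) (Tr.n (Tr.l D24) (Tr.l D56)))) (Tr.n (Tr.n (Tr.n (Tr.l D4) (Tr.l D36)) (Tr.n (Tr.l D20) (Tr.l D52))) (Tr.n (Tr.n (Tr.l D12) (Tr.l D44)) (Tr.n (Tr.l D28) (Tr.l D60))))) (Tr.n (Tr.n (Tr.n (Tr.n (Tr.l D2) (Tr.l D34)) (Tr.n (Tr.l D18) (Tr.l D50))) (Tr.n (Tr.n (Tr.l D10) (Tr.l D42)) (Tr.n (Tr.l D26) (Tr.l D58)))) (Tr.n (Tr.n (Tr.n (Tr.l D6) (Tr.l D38)) (Tr.n (Tr.l D22) (Tr.l D54))) (Tr.n (Tr.n (Tr.l D14) (Tr.l D46))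 (Tr.n (Tr.l D30) (Tr.l D62)))))) (Tr.n (Tr.n (Tr.n (Tr.n (Tr.n (Tr.l D1) (Tr.l D33)) (Tr.n (Tr.l D17) (Tr.l D49))) (Tr.n (Tr.n (Tr.l D9) (Tr.l D41)) (Tr.n (Tr.l D25) (Tr.l D57)))) (Tr.n (Tr.n (Tr.n (Tr.l D5) (Tr.l D37)) (Tr.n (Tr.l D21) (Tr.l D53))) (Tr.n (Tr.n (Tr.l D13) (Tr.l D45)) (Tr.n (Tr.l D29) (Tr.l D61))))) (Tr.n (Tr.n (Tr.n (Tr.n (Tr.l D3) (Tr.l D35)) (Tr.n (Tr.l D19) (Tr.l D51))) (Tr.n (Tr.n (Tr.l D11) (Tr.l D43)) (Tr.n (Tr.l D27) (Tr.l D59)))) (Tr.n (Tr.n (Tr.n (Tr.l D7) (Tr.l D39)) (Tr.n (Tr.l D23) (Tr.l D55))) (Tr.n (Tr.n (Tr.l D15) (Tr.l D47)) (Tr.n (Tr.l D31) (Tr.l 0)))))))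

end

end Pool.Agent.T2H13.B7
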