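import Pool.Agent.T2H13.B7.Vec2

/-! Semantics of the vectors of the terms with three vertices. -/

set_option autoImplicit false
set_option maxRecDepth 100000
set_option maxHeartbeats 4000000
set_option exponentiation.threshold 400000
open Finset

namespace Pool.Agent.T2H13.B7

noncomputable section

/-- the term of four records -/
def d4 (x y x' y' : ℕ) : ℕ := (((∑ k ∈ range 10, fld 40 x k * fld 40 x' k) + (∑ k ∈ range 10, fld 40 y k * fld 40 y' k))
  + fld 40 x 10) + fld 40 x' 10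
/-- the term of two structures on three plus two vertices -/
def d3 (c c' : ℕ) : ℕ := d4 (fld 640 H0 c) (fld 640 H1 c) (fld 640 H0 c') (fld 640 H1 c')

def gi (i : ℕ) : ℕ := sb 0 6 (sb 2 3 (sb 3 7 (sb 4 8 (sb 5 9 (sb 6 8 (sb 7 9 i))))))

theorem H0_lt : H0 < 2 ^ (640 * 2 ^ 10) := by decide +kernel
theorem H1_lt : H1 < 2 ^ (640 * 2 ^ 10) := by decide +kernel

theorem G_eq {H : ℕ} (hH : H < 2 ^ (640 * 2 ^ 10)) :
    swp 640 10 7 9 (swp 640 10 6 8 (swp 640 10 5 9 (swp 640 10 4 8 (swp 640 10 3 7 (swp 640 10 2 3 (swp 640 10 0 6 H))))))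
      = enc 640 10 (fun i => fld 640 H (gi i)) := by
  have hb : ∀ f : ℕ → ℕ, (∀ i < 2 ^ 10, f i < 2 ^ 640) → ∀ p q, p < q → q < 10 →
      swp 640 10 p q (enc 640 10 f) = enc 640 10 (fun i => f (sb p q i)) := fun f hf p q hp hq =>
    swp_enc (by norm_num) hp hq hf
  conv_lhs => rw [← enc_fld (s := 640) (n := 10) (by norm_num) hH]
  rw [hb _ (fun i _ => fld_lt _ _ _) 0 6 (by norm_num) (by norm_num)]
  rw [hb _ (fun i _ => fld_lt _ _ _) 2 3 (by norm_num) (by norm_num)]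
  rw [hb _ (fun i _ => fld_lt _ _ _) 3 7 (by norm_num) (by norm_num)]
  rw [hb _ (fun i _ => fld_lt _ _ _) 4 8 (by norm_num) (by norm_num)]
  rw [hb _ (fun i _ => fld_lt _ _ _) 5 9 (by norm_num) (by norm_num)]
  rw [hb _ (fun i _ => fld_lt _ _ _) 6 8 (by norm_num) (by norm_num)]
  rw [hb _ (fun i _ => fld_lt _ _ _) 7 9 (by norm_num) (by norm_num)]
  rfl

theorem G0_eq : G0 = enc 640 10 (fun i => fld 640 H0 (gi i)) := G_eq H0_lt
theorem G1_eq : G1 = enc 640 10 (fun i => fld 640 H1 (gi i)) := G_eq H1_lt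

theorem xt_eq (g t : ℕ) : xt g t = enc 640 6 (fun j => fld 640 g (64 * t + j)) := by
  have h1 : xt g t = fld 40960 g t := by
    unfold xt; rw [ON40960_eq]; exact land_ones g 40960 t
  rw [h1, ← enc_fld (s := 640) (n := 6) (by norm_num) (fld_lt 40960 g t)]
  exact enc_congr fun u hu => fld_fld (s := 640) (k := 6) _ _ _ hu

theorem O2_eq {A B : ℕ → ℕ} (hA : ∀ i < 2 ^ 6, A i < 2 ^ 640) (hB : ∀ i < 2 ^ 6, B i < 2 ^ 640) (r s : ℕ) :
    O2 (enc 640 6 A) (enc 640 6 B) r s = enc 640 6 (fun g => d4 (A g) (B g) r s) := by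
  have hP : ∀ k < 16, Nat.mul (kM (enc 640 6 A) (40 * k)) (kC r (40 * k))
      = enc 640 6 (fun i => fld 40 (A i) k * fld 40 r k) := by
    intro k hk
    rw [kM_eq hA hk, kC_eq]
    exact enc_mulc _ _ _ _
  have hP' : ∀ k < 16, Nat.mul (kM (enc 640 6 B) (40 * k)) (kC s (40 * k))
      = enc 640 6 (fun i => fld 40 (B i) k * fld 40 s k) := by
    intro k hk
    rw [kM_eq hB hk, kC_eq]
    exact enc_mulc _ _ _ _
  have hP1 : kM (enc 640 6 A) (40 * 10) = enc 640 6 (fun i => fld 40 (A i) 10) := kM_eq hA (by norm_num)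
  have hP2 : Nat.mul OS64 (kC r (40 * 10)) = enc 640 6 (fun _ => fld 40 r 10) := by
    rw [kC_eq, OS64_eq]
    exact (enc_mulc _ _ _ _).trans (enc_congr fun i _ => one_mul _)
  have key : O2 (enc 640 6 A) (enc 640 6 B) r s = enc 640 6 (fun i => fld 40 (A i) 0 * fld 40 r 0)
      + (enc 640 6 (fun i => fld 40 (A i) 1 * fld 40 r 1)
      + (enc 640 6 (fun i => fld 40 (A i) 2 * fld 40 r 2)
      + (enc 640 6 (fun i => fld 40 (A i) 3 * fld 40 r 3)
      + (enc 640 6 (fun i => fld 40 (A i) 4 * fld 40 r 4)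
      + (enc 640 6 (fun i => fld 40 (A i) 5 * fld 40 r 5)
      + (enc 640 6 (fun i => fld 40 (A i) 6 * fld 40 r 6)
      + (enc 640 6 (fun i => fld 40 (A i) 7 * fld 40 r 7)
      + (enc 640 6 (fun i => fld 40 (A i) 8 * fld 40 r 8)
      + (enc 640 6 (fun i => fld 40 (A i) 9 * fld 40 r 9)
      + (enc 640 6 (fun i => fld 40 (B i) 0 * fld 40 s 0)
      + (enc 640 6 (fun i => fld 40 (B i) 1 * fld 40 s 1)
      + (enc 640 6 (fun i => fld 40 (B i) 2 * fld 40 s 2)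
      + (enc 640 6 (fun i => fld 40 (B i) 3 * fld 40 s 3)
      + (enc 640 6 (fun i => fld 40 (B i) 4 * fld 40 s 4)
      + (enc 640 6 (fun i => fld 40 (B i) 5 * fld 40 s 5)
      + (enc 640 6 (fun i => fld 40 (B i) 6 * fld 40 s 6)
      + (enc 640 6 (fun i => fld 40 (B i) 7 * fld 40 s 7)
      + (enc 640 6 (fun i => fld 40 (B i) 8 * fld 40 s 8)
      + (enc 640 6 (fun i => fld 40 (B i) 9 * fld 40 s 9)
      + (enc 640 6 (fun i => fld 40 (A i) 10)
      + enc 640 6 (fun _ => fld 40 r 10))))))))))))))))))))) := by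
    rw [← hP 0 (by norm_num), ← hP 1 (by norm_num), ← hP 2 (by norm_num), ← hP 3 (by norm_num),
      ← hP 4 (by norm_num), ← hP 5 (by norm_num), ← hP 6 (by norm_num), ← hP 7 (by norm_num),
      ← hP 8 (by norm_num), ← hP 9 (by norm_num), ← hP' 0 (by norm_num), ← hP' 1 (by norm_num),
      ← hP' 2 (by norm_num), ← hP' 3 (by norm_num), ← hP' 4 (by norm_num), ← hP' 5 (by norm_num),
      ← hP' 6 (by norm_num), ← hP' 7 (by norm_num), ← hP' 8 (by norm_num), ← hP' 9 (by norm_num), ← hP1, ← hP2]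
    rfl
  rw [key]
  simp only [enc_add]
  refine enc_congr fun i _ => ?_
  unfold d4
  simp only [sum_range_succ, sum_range_zero]
  ring

theorem Q2_eq {t : ℕ} (ht : t < 16) (c : ℕ) : Q2 t c = enc 640 6 (fun g => d3 (gi (64 * t + g)) c) := by
  unfold Q2
  rw [xt_eq, xt_eq, xr_eq, xr_eq, O2_eq (fun _ _ => fld_lt _ _ _) (fun _ _ => fld_lt _ _ _)]
  refine enc_congr fun g hg => ?_
  have hg' : g < 64 := hg
  have hlt : 64 * t + g < 2 ^ 10 := by show _ < 1024; omega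
  rw [G0_eq, G1_eq, fld_enc (by norm_num) (fun _ _ => fld_lt _ _ _) hlt, fld_enc (by norm_num) (fun _ _ => fld_lt _ _ _) hlt]
  rfl

theorem T2v_eq {F : ℕ → ℕ} (hF : ∀ g < 2 ^ 6, F g < 2 ^ 40) :
    T2v (enc 640 6 F) = enc 40 14 (fun i => F (i / 256)) := by
  unfold T2v
  rw [as6_eq]
  have hF' : ∀ g < 2 ^ 6, F g < 2 ^ 640 := fun g hg =>
    lt_of_lt_of_le (hF g hg) (Nat.pow_le_pow_right (by norm_num) (by norm_num))
  have h1 : ∀ g < 2 ^ 6, Nat.mul (kC (enc 640 6 F) (Nat.mul 640 g)) ON256 = enc 40 8 (fun _ => F g) := by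
    intro g hg
    have e1 : kC (enc 640 6 F) (640 * g) = F g := by
      unfold kC
      rw [ON40_eq, land_ones0, shr_eq]
      have e2 := fld_enc (s := 640) (by norm_num) hF' hg
      unfold fld at e2
      have e3 : enc 640 6 F / 2 ^ (640 * g) % 2 ^ 40 = enc 640 6 F / 2 ^ (640 * g) % 2 ^ 640 % 2 ^ 40 :=
        (Nat.mod_mod_of_dvd _ (pow_dvd_pow 2 (by norm_num))).symm
      rw [e3, e2, Nat.mod_eq_of_lt (hF g hg)]
    show kC (enc 640 6 F) (640 * g) * ON256 = _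
    rw [e1, ON256_eq, mul_comm, enc_mulc]
    exact enc_congr fun i _ => one_mul _
  have h2 := enc_nest 40 8 (fun g (_ : ℕ) => F g) 6
  exact (enc_congr h1).trans h2

theorem OPY_eq {A B C D : ℕ → ℕ} (hA : ∀ i < 2 ^ 4, A i < 2 ^ 640) (hB : ∀ i < 2 ^ 4, B i < 2 ^ 640)
    (hC : ∀ i < 2 ^ 4, C i < 2 ^ 640) (hD : ∀ i < 2 ^ 4, D i < 2 ^ 640) :
    OPY (enc 640 4 A) (enc 640 4 B) (tr (enc 640 4 C)) (tr (enc 640 4 D))
      = enc 40 8 (fun i => d4 (A (i / 16)) (B (i / 16)) (C (i % 16)) (D (i % 16))) := by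
  rw [tr_eq hC, tr_eq hD]
  have hT : ∀ S : ℕ → ℕ, ∀ k < 16, kB (enc 640 4 (fun k => enc 40 4 (fun u => fld 40 (S u) k))) (640 * k)
      = enc 40 4 (fun u => fld 40 (S u) k) := by
    intro S k hk
    rw [kB_eq]
    exact fld_enc (s := 640) (n := 4) (f := fun k => enc 40 4 (fun u => fld 40 (S u) k)) (by norm_num)
      (fun i _ => enc_lt (s := 40) (n := 4) fun u _ => fld_lt _ _ _) hk
  set c := enc 640 4 (fun k => enc 40 4 (fun u => fld 40 (C u) k)) with hc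
  set d := enc 640 4 (fun k => enc 40 4 (fun u => fld 40 (D u) k)) with hd
  have hP : ∀ k < 16, Nat.mul (kA (enc 640 4 A) (40 * k)) (kB c (640 * k))
      = enc 40 8 (fun i => fld 40 (A (i / 16)) k * fld 40 (C (i % 16)) k) := by
    intro k hk
    rw [hc, hT C k hk, kA_eq hA hk]
    exact enc_prod 40 4 _ _ 4
  have hP' : ∀ k < 16, Nat.mul (kA (enc 640 4 B) (40 * k)) (kB d (640 * k))
      = enc 40 8 (fun i => fld 40 (B (i / 16)) k * fld 40 (D (i % 16)) k) := by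
    intro k hk
    rw [hd, hT D k hk, kA_eq hB hk]
    exact enc_prod 40 4 _ _ 4
  have hP1 : Nat.mul (kA (enc 640 4 A) (40 * 10)) ON16 = enc 40 8 (fun i => fld 40 (A (i / 16)) 10) := by
    rw [kA_eq hA (by norm_num), ON16_eq]
    exact (enc_prod 40 4 _ _ 4).trans (enc_congr fun i _ => mul_one _)
  have hP2 : Nat.mul OS16 (kB c (640 * 10)) = enc 40 8 (fun i => fld 40 (C (i % 16)) 10) := by
    rw [hc, hT C 10 (by norm_num), OS16_eq]
    exact (enc_prod 40 4 _ _ 4).trans (enc_congr fun i _ => one_mul _)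
  have key : OPY (enc 640 4 A) (enc 640 4 B) c d = enc 40 8 (fun i => fld 40 (A (i / 16)) 0 * fld 40 (C (i % 16)) 0)
      + (enc 40 8 (fun i => fld 40 (A (i / 16)) 1 * fld 40 (C (i % 16)) 1)
      + (enc 40 8 (fun i => fld 40 (A (i / 16)) 2 * fld 40 (C (i % 16)) 2)
      + (enc 40 8 (fun i => fld 40 (A (i / 16)) 3 * fld 40 (C (i % 16)) 3)
      + (enc 40 8 (fun i => fld 40 (A (i / 16)) 4 * fld 40 (C (i % 16)) 4)
      + (enc 40 8 (fun i => fld 40 (A (i / 16)) 5 * fld 40 (C (i % 16)) 5)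
      + (enc 40 8 (fun i => fld 40 (A (i / 16)) 6 * fld 40 (C (i % 16)) 6)
      + (enc 40 8 (fun i => fld 40 (A (i / 16)) 7 * fld 40 (C (i % 16)) 7)
      + (enc 40 8 (fun i => fld 40 (A (i / 16)) 8 * fld 40 (C (i % 16)) 8)
      + (enc 40 8 (fun i => fld 40 (A (i / 16)) 9 * fld 40 (C (i % 16)) 9)
      + (enc 40 8 (fun i => fld 40 (B (i / 16)) 0 * fld 40 (D (i % 16)) 0)
      + (enc 40 8 (fun i => fld 40 (B (i / 16)) 1 * fld 40 (D (i % 16)) 1)
      + (enc 40 8 (fun i => fld 40 (B (i / 16)) 2 * fld 40 (D (i % 16)) 2)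
      + (enc 40 8 (fun i => fld 40 (B (i / 16)) 3 * fld 40 (D (i % 16)) 3)
      + (enc 40 8 (fun i => fld 40 (B (i / 16)) 4 * fld 40 (D (i % 16)) 4)
      + (enc 40 8 (fun i => fld 40 (B (i / 16)) 5 * fld 40 (D (i % 16)) 5)
      + (enc 40 8 (fun i => fld 40 (B (i / 16)) 6 * fld 40 (D (i % 16)) 6)
      + (enc 40 8 (fun i => fld 40 (B (i / 16)) 7 * fld 40 (D (i % 16)) 7)
      + (enc 40 8 (fun i => fld 40 (B (i / 16)) 8 * fld 40 (D (i % 16)) 8)
      + (enc 40 8 (fun i => fld 40 (B (i / 16)) 9 * fld 40 (D (i % 16)) 9)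
      + (enc 40 8 (fun i => fld 40 (A (i / 16)) 10)
      + enc 40 8 (fun i => fld 40 (C (i % 16)) 10))))))))))))))))))))) := by
    rw [← hP 0 (by norm_num), ← hP 1 (by norm_num), ← hP 2 (by norm_num), ← hP 3 (by norm_num),
      ← hP 4 (by norm_num), ← hP 5 (by norm_num), ← hP 6 (by norm_num), ← hP 7 (by norm_num),
      ← hP 8 (by norm_num), ← hP 9 (by norm_num), ← hP' 0 (by norm_num), ← hP' 1 (by norm_num),
      ← hP' 2 (by norm_num), ← hP' 3 (by norm_num), ← hP' 4 (by norm_num), ← hP' 5 (by norm_num),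
      ← hP' 6 (by norm_num), ← hP' 7 (by norm_num), ← hP' 8 (by norm_num), ← hP' 9 (by norm_num), ← hP1, ← hP2]
    rfl
  rw [key]
  simp only [enc_add]
  refine enc_congr fun i _ => ?_
  unfold d4
  simp only [sum_range_succ, sum_range_zero]
  ring

theorem xb_H (H x : ℕ) : xb H x = enc 640 4 (fun u => fld 640 H (16 * x + u)) := by
  rw [xb_eq, ← enc_fld (s := 640) (n := 4) (by norm_num) (fld_lt 10240 H x)]
  exact enc_congr fun u hu => fld_fld (s := 640) (k := 4) _ _ _ hu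

end

end Pool.Agent.T2H13.B7
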